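import Pool.Agent.Helper53.GP.LocAux

/-!
# The curve leaves a column in the right directions (project SURF, MP_409f7f_co)
-/

namespace Pool.Agent.Helper53.GP

open Pool.Agent.Helper17.UF Pool.Agent.Helper84.LD Pool.Agent.Helper16.LD
  Pool.Agent.Helper24.GEO Pool.Agent.Helper14.SURF Relation

theorem dk_axis_iff (k : ℤ) (n : Dir) (hn : n = dk k ∨ n = (dk k).neg) :
    (n.axis = 0 ∧ k % 2 = 0) ∨ (n.axis = 1 ∧ k % 2 = 1) := by
  have h := dk_axis k
  have h2 : n.axis = (dk k).axis := by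
    rcases hn with rfl | rfl
    · rfl
    · exact neg_axis _
  by_cases hk : k % 2 = 0
  · rw [if_pos hk] at h
    exact Or.inl ⟨h2.trans h, hk⟩
  · rw [if_neg hk] at h
    exact Or.inr ⟨h2.trans h, by omega⟩

/-- The colour of a lattice point on a wall perpendicular to the direction of its level. -/
theorem colour_wall {P : Finset Cube} {c : Cube → Bool} (H : CanCol P c) {u : Cube} {n τ t : Dir}
    (hn : n = dk u.2.2 ∨ n = (dk u.2.2).neg) (p1 : Dir.perp n τ = true)
    (p2 : Dir.perp n t = true) (p3 : Dir.perp τ t = true) (h1 : ocu u n.neg τ t ∈ P)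
    (h2 : ocu u n τ t ∉ P) : c u = decide (n = dk u.2.2) := by
  have main : ∀ τ t : Dir, Dir.perp n τ = true → t.axis = 2 → τ.axis ≠ 2 →
      ocu u n.neg τ t ∈ P → ocu u n τ t ∉ P → c u = decide (n = dk u.2.2) := by
    intro τ t p1 ht2 hτ2 h1 h2
    have hax := dk_axis_iff u.2.2 n hn
    have hn2 : n.axis ≠ 2 := by
      rcases hax with h | h
      · rw [h.1]; decide
      · rw [h.1]; decide
    let A : Face := (ocu u n.neg τ t, n)
    have hA : IsFace P A := by
      refine ⟨h1, ?_⟩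
      show ocu u n.neg τ t + n.vec ∉ P
      have : ocu u n.neg τ t + n.vec = ocu u n τ t := by
        rw [ocu_rot u n.neg τ t, ocu_rot u n τ t, ocu_neg u τ t n]
      rw [this]
      exact h2
    have hw : Wall A := hn2
    have k1 : ∀ t : Dir, t.axis = 2 → t.neg = Dir.pz ∨ t.neg = Dir.nz := by decide
    have k2 : ∀ n τ : Dir, Dir.perp n τ = true → Dir.perp n τ.neg = true := by decide
    have k3 : ∀ τ : Dir, τ.axis ≠ 2 → (pp τ.neg).2.2 = 0 ∧ (pp τ).2.2 = 0 ∧ τ.neg.axis ≠ 2 := by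
      decide
    have hcr : crn A t.neg τ.neg = u := by
      show ocu u n.neg τ t + pp n + pp t.neg + pp τ.neg = u
      unfold ocu
      rw [Dir.neg_neg]
      abel
    have hht : ht A.1 t.neg = u.2.2 := by
      have e : A.1.2.2 + (pp n).2.2 + (pp t.neg).2.2 + (pp τ.neg).2.2 = u.2.2 :=
        congrArg (fun v : Cube => v.2.2) hcr
      rw [(k3 n hn2).2.1, (k3 τ hτ2).1] at e
      unfold ht
      rw [← e]
      ring
    have hne : ht A.1 t.neg ≠ lev A := by
      rw [hht]
      rcases hax with ⟨a, b⟩ | ⟨a, b⟩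
      · have := (lev_wall_x (v := A.1) a).1
        intro hc
        rw [show lev A = lev (A.1, n) from rfl] at hc
        omega
      · have := (lev_wall_y (v := A.1) a).1
        intro hc
        rw [show lev A = lev (A.1, n) from rfl] at hc
        omega
    have := H.wall A hA hw t.neg τ.neg (k1 t ht2) (k2 n τ p1) (k3 τ hτ2).2.2 hne
    rw [hcr, hht] at this
    exact this
  have hcase : ∀ n τ t : Dir, n.axis ≠ 2 → Dir.perp n τ = true → Dir.perp n t = true →
      Dir.perp τ t = true → (t.axis = 2 ∧ τ.axis ≠ 2) ∨ (τ.axis = 2 ∧ t.axis ≠ 2) := by decide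
  have hn2 : n.axis ≠ 2 := by
    rcases dk_axis_iff u.2.2 n hn with h | h
    · rw [h.1]; decide
    · rw [h.1]; decide
  rcases hcase n τ t hn2 p1 p2 p3 with ⟨a, b⟩ | ⟨a, b⟩
  · exact main τ t p1 a b h1 h2
  · refine main t τ p2 a b ?_ ?_
    · rw [ocu_comm23]; exact h1
    · rw [ocu_comm23]; exact h2

/-- The colour at a lattice point whose two cubes at an edge on the side `W` are equal. -/
theorem colour_edge {P : Finset Cube} {c : Cube → Bool} (H : CanCol P c) {u : Cube} {k : ℤ}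
    (hk : u.2.2 = k) {W : Dir} (hW : W = dk k ∨ W = (dk k).neg) {d : Fin 4} {s : Bool}
    (h : s(u, u + (dF (dk (k + 1)) d).vec) ∈ edgeF P)
    (h1 : mS P u W (dk (k + 1)) d = s) (h2 : mS P u W (dk (k + 1)) (d + 3) = s) :
    c u = if s then decide (W.neg = dk k) else decide (W = dk k) := by
  subst hk
  have hF := frm_dk u.2.2
  set X := dk u.2.2 with hX
  set Y := dk (u.2.2 + 1) with hY
  set t := dF Y d with ht
  have d4 : (d + 3 + 1 : Fin 4) = d := by omega
  unfold mS at h1 h2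
  rw [d4] at h2
  rw [ocu_comm23 u W (dF Y (d + 3)) (dF Y d)] at h2
  -- h1 : oc (ocu u W t (dF (d+1))), h2 : oc (ocu u W t (dF (d+3)))
  have hWc : ∀ W : Dir, (W = X ∨ W = X.neg) → (W.neg = X ∨ W.neg = X.neg) := by
    rintro W (rfl | rfl)
    · exact Or.inr rfl
    · exact Or.inl (Dir.neg_neg X)
  have hside : ∀ τ : Dir, (τ = dF Y (d + 1) ∨ τ = dF Y (d + 3)) → oc P (ocu u W t τ) = s := by
    rintro τ (rfl | rfl)
    · exact h1
    · exact h2
  have hnegside : ∀ τ : Dir, (τ = dF Y (d + 1) ∨ τ = dF Y (d + 3)) →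
      (τ.neg = dF Y (d + 1) ∨ τ.neg = dF Y (d + 3)) := by
    have n1 := (frm_cross X Y hF (d + 1)).2.2.1
    have n3 := (frm_cross X Y hF (d + 3)).2.2.1
    rintro τ (rfl | rfl)
    · right; rw [n1]; congr 1; omega
    · left; rw [n3]; congr 1; omega
  have hperpside : ∀ τ : Dir, (τ = dF Y (d + 1) ∨ τ = dF Y (d + 3)) → Dir.perp W τ = true ∧
      Dir.perp W.neg τ = true ∧ Dir.perp τ t = true := by
    have key : ∀ X Y : Dir, Frm X Y → ∀ d : Fin 4, ∀ W τ : Dir, (W = X ∨ W = X.neg) →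
        (τ = dF Y (d + 1) ∨ τ = dF Y (d + 3)) → Dir.perp W τ = true ∧
        Dir.perp W.neg τ = true ∧ Dir.perp τ (dF Y d) = true := by
      unfold Frm dF
      decide
    exact fun τ hτ => key X Y hF d W τ hW hτ
  have hpW : Dir.perp W t = true ∧ Dir.perp W.neg t = true := by
    obtain ⟨-, -, -, a, b, -⟩ := frm_cross X Y hF d
    rcases hW with hw | hw
    · rw [hw]; exact ⟨a, b⟩
    · rw [hw, Dir.neg_neg]; exact ⟨b, a⟩
  obtain ⟨n, τ, q1, q2, q3, f1, f2⟩ := edge_face h
  have hn := frm_perp X Y hF d n q2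
  have hτ := frm_perp X Y hF d τ q3
  have hτ' : (n = X ∨ n = X.neg) → (τ = dF Y (d + 1) ∨ τ = dF Y (d + 3)) := by
    intro h
    have k : ∀ X n τ : Dir, (n = X ∨ n = X.neg) → (τ = X ∨ τ = X.neg) →
        Dir.perp n τ = true → False := by decide
    rcases hτ with h' | h' | h' | h'
    · exact (k X n τ h (Or.inl h') q1).elim
    · exact (k X n τ h (Or.inr h') q1).elim
    · exact Or.inl h'
    · exact Or.inr h'
  have hWX : ∀ n : Dir, (n = X ∨ n = X.neg) → n = W ∨ n = W.neg := by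
    intro n hn
    rcases hW with hw | hw <;> rcases hn with h' | h'
    · left; rw [h', hw]
    · right; rw [h', hw]
    · right; rw [h', hw, Dir.neg_neg]
    · left; rw [h', hw]
  have casX : (n = X ∨ n = X.neg) → c u = if s then decide (W.neg = X) else decide (W = X) := by
    intro hnX
    have hτs := hτ' hnX
    have hs := hside τ hτs
    have hcol := colour_wall H hnX q1 q2 q3 f1 f2
    rcases hWX n hnX with hw | hw
    · -- normal W
      have : s = false := by
        rw [← hs, oc_eq_false, ocu_comm23]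
        rw [hw] at f2
        exact f2
      rw [this, hcol, hw]
      rfl
    · have : s = true := by
        rw [← hs, oc_eq, ocu_comm23]
        rw [hw, Dir.neg_neg] at f1
        exact f1
      rw [this, hcol, hw]
      rfl
  have casY : (n = dF Y (d + 1) ∨ n = dF Y (d + 3)) →
      c u = if s then decide (W.neg = X) else decide (W = X) := by
    intro hnY
    have hτX : τ = X ∨ τ = X.neg := by
      have k : ∀ X Y : Dir, Frm X Y → ∀ d : Fin 4, ∀ n τ : Dir,
          (n = dF Y (d + 1) ∨ n = dF Y (d + 3)) → (τ = dF Y (d + 1) ∨ τ = dF Y (d + 3)) →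
          Dir.perp n τ = true → False := by
        unfold Frm dF
        decide
      rcases hτ with h' | h' | h' | h'
      · exact Or.inl h'
      · exact Or.inr h'
      · exact (k X Y hF d n τ hnY (Or.inl h') q1).elim
      · exact (k X Y hF d n τ hnY (Or.inr h') q1).elim
    have s1 := hside n hnY
    have s2 := hside n.neg (hnegside n hnY)
    rcases hWX τ hτX with hw | hw
    · exfalso
      rw [hw, ocu_rot] at f1 f2
      have g1 := oc_eq.2 f1
      have g2 := oc_eq_false.2 f2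
      rw [s2] at g1
      rw [s1, g1] at g2
      exact absurd g2 (by decide)
    · rw [hw, ocu_rot] at f1 f2
      cases hs : s with
      | true =>
        rw [hs] at s1
        obtain ⟨a1, a2, a3⟩ := hperpside n hnY
        have := colour_wall H (n := W.neg) (τ := n) (t := t) (hWc W hW) a2 hpW.2 a3
          (by rw [Dir.neg_neg, ocu_comm23]; exact oc_eq.1 s1)
          (by rw [ocu_comm23]; exact f2)
        rw [this]
        rfl
      | false =>
        rw [hs] at s2
        obtain ⟨a1, a2, a3⟩ := hperpside n.neg (hnegside n hnY)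
        have := colour_wall H (n := W) (τ := n.neg) (t := t) hW a1 hpW.1 a3
          (by rw [ocu_comm23]; exact f1)
          (by rw [ocu_comm23]; exact oc_eq_false.1 s2)
        rw [this]
        rfl
  rcases hn with h' | h' | h' | h'
  · exact casX (Or.inl h')
  · exact casX (Or.inr h')
  · exact casY (Or.inl h')
  · exact casY (Or.inr h')

/-! ### The faces of a column at a vertex -/

variable {P : Finset Cube} {c : Cube → Bool}

theorem cr_EW (A : Face) (h : Hd) : cr true eCan A h Hd.E = cr true eCan A h Hd.W +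
    (eCan A).vec := by
  have h1 := pp_neg (eCan A)
  unfold cr crn dA
  simp only [dirH]
  rw [← h1]
  abel

theorem cr_NS (A : Face) (k : Hd) : cr true eCan A Hd.N k = cr true eCan A Hd.S k +
    (Dir.cross A.2 (eCan A)).vec := by
  have h1 := pp_neg (Dir.cross A.2 (eCan A))
  unfold cr crn dA
  simp only [dirH, if_true]
  rw [← h1]
  abel

/-- The cube and the normal of a face from its corners. -/
theorem face_of_corners {A : Face} (hp : Dir.perp A.2 (eCan A) = true) {X D : Dir}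
    (hE : eCan A = X.neg) (hN : Dir.cross A.2 (eCan A) = D) {u : Cube}
    (hu : cr true eCan A Hd.S Hd.W = u) :
    A.2 = Dir.cross X.neg D ∧ A.1 = ocu u (Dir.cross X.neg D).neg D X.neg := by
  have h1 : A.2 = Dir.cross X.neg D := by
    rw [← hN, hE]
    rw [hE] at hp
    exact (cross_cross _ _ hp).symm
  refine ⟨h1, ?_⟩
  rw [← hu]
  unfold cr crn dA ocu
  simp only [dirH, if_true]
  rw [hN, hE, ← h1]
  simp only [Dir.neg_neg]
  abel

theorem face_of_corners' {A : Face} (hp : Dir.perp A.2 (eCan A) = true) {X D : Dir}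
    (hE : eCan A = X.neg) (hN : Dir.cross A.2 (eCan A) = D) {u : Cube}
    (hu : cr true eCan A Hd.N Hd.W = u) :
    A.2 = Dir.cross X.neg D ∧ A.1 = ocu u (Dir.cross X.neg D).neg D.neg X.neg := by
  have h1 : A.2 = Dir.cross X.neg D := by
    rw [← hN, hE]
    rw [hE] at hp
    exact (cross_cross _ _ hp).symm
  refine ⟨h1, ?_⟩
  rw [← hu]
  unfold cr crn dA ocu
  simp only [dirH, if_true]
  rw [hN, hE, ← h1]
  simp only [Dir.neg_neg]
  abel

theorem column_east {S : Strip} {q r : ℕ} {Fc : ℕ → Face} (h : Column P c S q r Fc) {i : ℕ}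
    (hi : i < S.n) : eCan (Fc i) = (dk S.k).neg := by
  have h1 := cr_EW (Fc i) Hd.S
  rw [h.se i hi, h.sw i hi, vx_rt] at h1
  refine vec_injective ?_
  rw [Dir.vec_neg, eq_neg_iff_add_eq_zero]
  have h2 := congrArg (fun z => z - S.vx 0 i) h1
  simp only [sub_self] at h2
  rw [h2]
  abel

/-- The sectors at a vertex of a column. -/
theorem column_sectors {S : Strip} {q r : ℕ} {Fc : ℕ → Face} (h : Column P c S q r Fc) {i : ℕ}
    (h1 : 1 ≤ i) (h2 : i < S.n) :
    mS P (S.vx 1 i) (dk S.k).neg (dk (S.k + 1)) (S.dS i) = true ∧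
    mS P (S.vx 1 i) (dk S.k).neg (dk (S.k + 1)) (S.dS i + 3) = false ∧
    mS P (S.vx 1 i) (dk S.k).neg (dk (S.k + 1)) (S.dN i + 3) = true ∧
    mS P (S.vx 1 i) (dk S.k).neg (dk (S.k + 1)) (S.dN i) = false := by
  have hF := frm_dk S.k
  set X := dk S.k with hX
  set Y := dk (S.k + 1) with hY
  have hi1 : i - 1 < S.n := by omega
  have hi2 : i - 1 + 1 = i := by omega
  -- the face towards N
  have hA := h.face i h2
  have hpA : Dir.perp (Fc i).2 (eCan (Fc i)) = true := perp_eCan _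
  have hEA := column_east h h2
  have hNA : Dir.cross (Fc i).2 (eCan (Fc i)) = dF Y (S.dN i) := by
    have e1 := cr_NS (Fc i) Hd.E
    rw [h.se i h2, h.ne i h2, vx_next S 0 h1 h2] at e1
    exact (vec_injective (add_left_cancel e1)).symm
  obtain ⟨a1, a2⟩ := face_of_corners hpA hEA hNA (h.sw i h2)
  -- the face towards S
  have hB := h.face (i - 1) hi1
  have hpB : Dir.perp (Fc (i - 1)).2 (eCan (Fc (i - 1))) = true := perp_eCan _
  have hEB := column_east h hi1
  have hNB : Dir.cross (Fc (i - 1)).2 (eCan (Fc (i - 1))) = (dF Y (S.dS i)).neg := by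
    have e1 := cr_NS (Fc (i - 1)) Hd.E
    rw [h.se _ hi1, h.ne _ hi1, hi2, vx_prev S 0 h1 h2, add_assoc] at e1
    have e2 := left_eq_add.1 e1
    refine vec_injective ?_
    rw [Dir.vec_neg, eq_neg_iff_add_eq_zero, add_comm]
    exact e2
  have hnw := h.nw (i - 1) hi1
  rw [hi2] at hnw
  obtain ⟨b1, b2⟩ := face_of_corners' hpB hEB hNB hnw
  obtain ⟨c1, -, c3, -, -, -⟩ := frm_cross X Y hF (S.dN i)
  obtain ⟨-, d2, d3, -, -, -⟩ := frm_cross X Y hF (S.dS i)
  have n1 := (frm_cross X Y hF (S.dN i + 1)).2.2.1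
  have n3 := (frm_cross X Y hF (S.dS i + 3)).2.2.1
  rw [show (S.dN i + 1 + 2 : Fin 4) = S.dN i + 3 by omega] at n1
  rw [show (S.dS i + 3 + 2 : Fin 4) = S.dS i + 1 by omega] at n3
  rw [c1] at a1 a2
  rw [n1] at a2
  rw [d2] at b1 b2
  rw [n3, Dir.neg_neg] at b2
  have p4 : ∀ d : Fin 4, d + 3 + 1 = d := by intro d; omega
  unfold mS
  rw [p4, p4]
  refine ⟨?_, ?_, ?_, ?_⟩
  · rw [oc_eq, ocu_rot]
    have := hB.1
    rw [b2, ocu_comm12] at this
    exact this
  · rw [oc_eq_false, ocu_rot]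
    have := hB.2
    have e : ocu (S.vx 1 i) (dF Y (S.dS i + 1)) (dF Y (S.dS i)) X.neg +
        (dF Y (S.dS i + 3)).vec =
        ocu (S.vx 1 i) (dF Y (S.dS i + 3)) (dF Y (S.dS i)) X.neg := by
      rw [← n3, ocu_rot (S.vx 1 i) (dF Y (S.dS i + 3)).neg (dF Y (S.dS i)) X.neg, ← ocu_neg,
        ocu_rot (S.vx 1 i) (dF Y (S.dS i + 3)) (dF Y (S.dS i)) X.neg]
    rw [b1, b2, e] at this
    exact this
  · rw [oc_eq, ocu_rot]
    have := hA.1
    rw [a2] at this
    exact this
  · rw [oc_eq_false, ocu_rot]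
    have := hA.2
    have e : ocu (S.vx 1 i) (dF Y (S.dN i + 3)) (dF Y (S.dN i)) X.neg +
        (dF Y (S.dN i + 1)).vec =
        ocu (S.vx 1 i) (dF Y (S.dN i)) (dF Y (S.dN i + 1)) X.neg := by
      rw [← n1, ocu_rot (S.vx 1 i) (dF Y (S.dN i + 1)).neg (dF Y (S.dN i)) X.neg, ← ocu_neg,
        ocu_comm23]
    rw [a1, a2, e] at this
    exact this

/-- The sectors seen from side 0. -/
theorem mS_side {S : Strip} {i : ℕ} (Y : Dir) (j : Fin 4) :
    mS P (S.vx 0 i) (dk S.k) Y j = mS P (S.vx 1 i) (dk S.k).neg Y j := by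
  unfold mS
  rw [vx_rt, ocu_shift]

theorem mem_bS_next {S : Strip} {s : ℤ} (hs : s = 0 ∨ s = 1) {i : ℕ} (hi : i < S.n) :
    s(S.vx s i, S.vx s (i + 1)) ∈ S.bS := by
  unfold Strip.bS
  rw [Finset.mem_union, Finset.mem_union]
  left
  rcases hs with rfl | rfl
  · left
    exact Finset.mem_image.2 ⟨i, Finset.mem_range.2 hi, rfl⟩
  · right
    exact Finset.mem_image.2 ⟨i, Finset.mem_range.2 hi, rfl⟩

/-- One side of a column. -/
theorem loc_side {S : Strip} {q r : ℕ} {Fc : ℕ → Face} (hE : Man P) (H : CanCol P c)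
    (h : Column P c S q r Fc) {s : ℤ} (hs : s = 0 ∨ s = 1) {W : Dir}
    (hW : (s = 0 ∧ W = dk S.k) ∨ (s = 1 ∧ W = (dk S.k).neg)) {i : ℕ} (h1 : 1 ≤ i) (h2 : i < S.n)
    {d : Fin 4} (hd : s(S.vx s i, stp d (S.vx s i)) ∈ edgeF P)
    (hb : s(S.vx s i, stp d (S.vx s i)) ∉ S.bS) :
    (cyc4 (S.dS i) d (S.dN i) ∧ c (S.vx s i) = decide (W.neg = dk S.k)) ∨
    (cyc4 (S.dN i) d (S.dS i) ∧ c (S.vx s i) = decide (W = dk S.k)) := by
  have hz := vx_z S s h1 h2
  have hi1 : i - 1 < S.n := by omega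
  have hi2 : i - 1 + 1 = i := by omega
  rw [stp_eq, hz] at hd hb
  have hdN : d ≠ S.dN i := by
    intro hc
    apply hb
    rw [hc, ← vx_next S s h1 h2]
    exact mem_bS_next hs h2
  have hdS : d ≠ S.dS i := by
    intro hc
    apply hb
    rw [hc, ← vx_prev S s h1 h2, Sym2.eq_swap]
    have := mem_bS_next (S := S) hs hi1
    rw [hi2] at this
    exact this
  obtain ⟨m1, m2, m3, m4⟩ := column_sectors h h1 h2
  have hF := frm_dk S.k
  have hdiag := fun j => mS_man hE (u := S.vx 1 i) (W := (dk S.k).neg) hF j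
  obtain ⟨k1, k2, k3⟩ := fin_check' (mS P (S.vx 1 i) (dk S.k).neg (dk (S.k + 1))) (S.dS i)
    (S.dN i) d m1 m2 m3 m4 (hdiag 0) (hdiag 1) hdS hdN
  have hW' : W = dk S.k ∨ W = (dk S.k).neg := by
    rcases hW with h | h
    · exact Or.inl h.2
    · exact Or.inr h.2
  have htr : ∀ j, mS P (S.vx s i) W (dk (S.k + 1)) j =
      mS P (S.vx 1 i) (dk S.k).neg (dk (S.k + 1)) j := by
    intro j
    rcases hW with ⟨a, b⟩ | ⟨a, b⟩
    · rw [a, b, mS_side]
    · rw [a, b]
  rcases k1 with h3 | h3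
  · left
    refine ⟨h3, ?_⟩
    obtain ⟨g1, g2⟩ := k2 h3
    rw [← htr] at g1 g2
    have := colour_edge H hz hW' hd g1 g2
    rw [this]
    rfl
  · right
    refine ⟨h3, ?_⟩
    obtain ⟨g1, g2⟩ := k3 h3
    rw [← htr] at g1 g2
    have := colour_edge H hz hW' hd g1 g2
    rw [this]
    rfl

theorem column_loc {S : Strip} {q r : ℕ} {Fc : ℕ → Face} (hE : Man P) (H : CanCol P c)
    (h : Column P c S q r Fc) {C : Finset (Sym2 Cube)} (hC : C ⊆ edgeF P) : Loc S q r C := by
  have hneg : ∀ X : Dir, decide (X.neg = X) = false ∧ decide (X.neg.neg = X) = true := by decide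
  intro i d h1 h2
  constructor
  · intro hd hb
    have hcol := h.colW i h2.le
    rcases loc_side hE H h (Or.inr rfl) (Or.inr ⟨rfl, rfl⟩) h1 h2 (hC hd) hb with ⟨a, b⟩ | ⟨a, b⟩
    · rw [(hneg _).2, hcol, decide_eq_true_iff] at b
      rw [if_pos b]
      exact a
    · rw [(hneg _).1, hcol, decide_eq_false_iff_not] at b
      rw [if_neg b]
      exact a
  · intro hd hb
    have hcol := h.colE i h2.le
    rcases loc_side hE H h (Or.inl rfl) (Or.inl ⟨rfl, rfl⟩) h1 h2 (hC hd) hb with ⟨a, b⟩ | ⟨a, b⟩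
    · rw [(hneg _).1, hcol, decide_eq_false_iff_not] at b
      rw [if_neg b]
      exact a
    · rw [hcol, decide_eq_true rfl, decide_eq_true_iff] at b
      rw [if_pos b]
      exact a

end Pool.Agent.Helper53.GP
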