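import Pool.Agent.Helper53.GP.TieCol

/-!
# Screws with vertical middle axis and the wrong handedness (project TIE, MP_409f7f_co)
-/

namespace Pool.Agent.Helper53.GP

open Pool.Agent.Helper17.UF

/-- `c, c + s1, c + s1 + s2, c + s1 + s2 + s3` are the cubes of `P` around a lattice point, with
`s1 = ±x`, `s2 = ±z` and `s3 = s1 × s2`: a screw with middle axis `z` of one handedness. -/
def BadZ (P : Finset Cube) : Prop :=
  ∃ (c : Cube) (s1 s2 : Dir), s1.axis = 0 ∧ s2.axis = 2 ∧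
    c ∈ P ∧ c + s1.vec ∈ P ∧ c + s1.vec + s2.vec ∈ P ∧
    c + s1.vec + s2.vec + (Dir.cross s1 s2).vec ∈ P ∧
    c + s2.vec ∉ P ∧ c + (Dir.cross s1 s2).vec ∉ P ∧ c + s2.vec + (Dir.cross s1 s2).vec ∉ P ∧
    c + s1.vec + (Dir.cross s1 s2).vec ∉ P

end Pool.Agent.Helper53.GP
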