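import Pool.Agent.Helper53.GP.Field
import Pool.Agent.Helper16.LD.Dual

/-!
# Polycubes with ties: the class and its colouring (project TIE, MP_409f7f_co)
-/

namespace Pool.Agent.Helper53.GP

open Pool.Agent.Helper17.UF Pool.Agent.Helper84.LD Relation

/-- The lattice point `v` is a corner of a face with normal `d`. -/
def OnF (P : Finset Cube) (d : Dir) (v : Cube) : Prop :=
  ∃ (A : Face) (t w : Dir), IsFace P A ∧ A.2 = d ∧ Dir.perp d t = true ∧ Dir.perp d w = true ∧
    Dir.perp t w = true ∧ crn A t w = v

open Classical in
/-- White lattice points of the levels `0, 1` modulo 4. -/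
noncomputable def base (P : Finset Cube) (v : Cube) : Bool :=
  if v.2.2 % 2 = 0 then decide (v.1 % 4 = 1 ∨ OnF P Dir.px v) else decide (OnF P Dir.py v)

/-- The colouring (`true` is white). -/
noncomputable def cTie (P : Finset Cube) (v : Cube) : Bool :=
  if v.2.2 % 4 = 0 ∨ v.2.2 % 4 = 1 then base P v else !base P v

/-- The polycube consists of blocks of length 4 in the direction `x`. -/
def Blk (P : Finset Cube) : Prop := ∀ v : Cube, v ∈ P ↔ ((4 * (v.1 / 4), v.2) : Cube) ∈ P

/-- The horizontal faces lie on even levels. -/
def FlatEven (P : Finset Cube) : Prop := ∀ A, IsFace P A → ¬ Wall A → lev A % 2 = 0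

/-- No lattice point lies on faces with the opposite normals `d` and `-d`. -/
def NoOpp (P : Finset Cube) (d : Dir) : Prop := ∀ v, OnF P d v → OnF P d.neg v → False

end Pool.Agent.Helper53.GP
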