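import Pool.Agent.Helper16.LD.Euler

/-!
# A connected curve gives connected colour graphs (project TIE, MP_409f7f_co)
-/

namespace Pool.Agent.Helper53.GP

open Pool.Agent.Helper17.UF Pool.Agent.Helper84.LD Pool.Agent.Helper16.LD Relation

/-- Monochromatic edges. -/
def MR (P : Finset Cube) (c : Cube → Bool) (x y : Cube) : Prop := s(x, y) ∈ edgeF P ∧ c x = c y

/-- Joined by monochromatic edges. -/
def MC (P : Finset Cube) (c : Cube → Bool) (x y : Cube) : Prop := ReflTransGen (MR P c) x y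

theorem MR.symm {P : Finset Cube} {c : Cube → Bool} {x y : Cube} (h : MR P c x y) : MR P c y x :=
  ⟨by rw [Sym2.eq_swap]; exact h.1, h.2.symm⟩

theorem MC.symm {P : Finset Cube} {c : Cube → Bool} {x y : Cube} (h : MC P c x y) : MC P c y x := by
  induction h with
  | refl => exact ReflTransGen.refl
  | tail _ h2 ih => exact ReflTransGen.head h2.symm ih

theorem MC.trans {P : Finset Cube} {c : Cube → Bool} {x y z : Cube} (h : MC P c x y)
    (h' : MC P c y z) : MC P c x z := ReflTransGen.trans h h'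

theorem MC.refl {P : Finset Cube} {c : Cube → Bool} (x : Cube) : MC P c x x := ReflTransGen.refl

theorem MC.single {P : Finset Cube} {c : Cube → Bool} {x y : Cube} (h : MR P c x y) : MC P c x y :=
  ReflTransGen.single h

theorem MC.colour {P : Finset Cube} {c : Cube → Bool} {x y : Cube} (h : MC P c x y) : c x = c y := by
  induction h with
  | refl => rfl
  | tail _ h2 ih => exact ih.trans h2.2

variable {P : Finset Cube} {σ : Bool} {e : Face → Dir} {c : Cube → Bool}

theorem edg_mem (H : IsField P σ e c) {A : Face} (hA : IsFace P A) (h : Hd) :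
    edg σ e A h ∈ edgeF P := by
  rw [← eg_eq_edg (H.perp A hA) h]
  exact Finset.mem_image.2 ⟨(A, dA σ e A h),
    mem_sideF.2 ⟨hA, perp_dirH σ _ _ (H.perp A hA) h⟩, rfl⟩

theorem edge_E (H : IsField P σ e c) {A : Face} (hA : IsFace P A) :
    s(cr σ e A Hd.S Hd.E, cr σ e A Hd.N Hd.E) ∈ edgeF P := by
  have := edg_mem H hA Hd.E
  unfold edg at this
  simp only [Hd.left, Hd.opp] at this
  rw [Sym2.eq_swap, cr_comm σ e A Hd.S Hd.E, cr_comm σ e A Hd.N Hd.E]
  exact this

theorem edge_W (H : IsField P σ e c) {A : Face} (hA : IsFace P A) :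
    s(cr σ e A Hd.S Hd.W, cr σ e A Hd.N Hd.W) ∈ edgeF P := by
  have := edg_mem H hA Hd.W
  unfold edg at this
  simp only [Hd.left, Hd.opp] at this
  rw [cr_comm σ e A Hd.S Hd.W, cr_comm σ e A Hd.N Hd.W]
  exact this

theorem edge_N (H : IsField P σ e c) {A : Face} (hA : IsFace P A) :
    s(cr σ e A Hd.N Hd.W, cr σ e A Hd.N Hd.E) ∈ edgeF P := by
  have := edg_mem H hA Hd.N
  unfold edg at this
  simp only [Hd.left, Hd.opp] at this
  exact this

theorem edge_S (H : IsField P σ e c) {A : Face} (hA : IsFace P A) :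
    s(cr σ e A Hd.S Hd.W, cr σ e A Hd.S Hd.E) ∈ edgeF P := by
  have := edg_mem H hA Hd.S
  unfold edg at this
  simp only [Hd.left, Hd.opp] at this
  rw [Sym2.eq_swap]
  exact this

/-- White corners of a face are joined to the north-east corner of the top of the column. -/
theorem white_corner (H : IsField P σ e c) {A T : Face} (hT : IsFace P T)
    (hTc : ¬ Cmp P σ e T Hd.N) (hAT : ReflTransGen (Up P σ e (UU P σ e)) A T) :
    IsFace P A → ∀ h k : Hd, (h = Hd.N ∨ h = Hd.S) → (k = Hd.E ∨ k = Hd.W) →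
      c (cr σ e A h k) = true → MC P c (cr σ e A h k) (cr σ e T Hd.N Hd.E) := by
  -- it is enough to treat the northern corners
  have hsouth : ∀ A, IsFace P A → (∀ k : Hd, (k = Hd.E ∨ k = Hd.W) →
      c (cr σ e A Hd.N k) = true → MC P c (cr σ e A Hd.N k) (cr σ e T Hd.N Hd.E)) →
      ∀ h k : Hd, (h = Hd.N ∨ h = Hd.S) → (k = Hd.E ∨ k = Hd.W) →
      c (cr σ e A h k) = true → MC P c (cr σ e A h k) (cr σ e T Hd.N Hd.E) := by
    intro A hA hn h k hh hk hc
    rcases hh with rfl | rfl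
    · exact hn k hk hc
    · rcases hk with rfl | rfl
      · have := H.monoE A hA hc
        exact (MC.single ⟨edge_E H hA, by rw [hc, this]⟩).trans (hn _ (Or.inl rfl) this)
      · have := H.monoW A hA hc
        exact (MC.single ⟨edge_W H hA, by rw [hc, this]⟩).trans (hn _ (Or.inr rfl) this)
  induction hAT using ReflTransGen.head_induction_on with
  | refl =>
    intro _
    refine hsouth T hT ?_
    rintro k (rfl | rfl) hc
    · exact MC.refl _
    · exact MC.single ⟨edge_N H hT, by rw [hc, H.topE T hT hTc]⟩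
  | head h1 _ ih =>
    intro hA
    obtain ⟨⟨hC, hcc⟩, rfl⟩ := h1
    obtain ⟨e1, e2⟩ := H.north hC hcc
    refine hsouth _ hA ?_
    rintro k (rfl | rfl) hc
    · rw [← e1] at hc ⊢
      exact ih (isFace_nbr hC) _ _ (Or.inr rfl) (Or.inl rfl) hc
    · rw [← e2] at hc ⊢
      exact ih (isFace_nbr hC) _ _ (Or.inr rfl) (Or.inr rfl) hc

/-- Black corners of a face are joined to the south-east corner of the bottom of the column. -/
theorem black_corner (H : IsField P σ e c) {D A : Face} (hD : IsFace P D)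
    (hDc : ¬ Cmp P σ e D Hd.S) (hDA : ReflTransGen (Up P σ e (UU P σ e)) D A) :
    ∀ h k : Hd, (h = Hd.N ∨ h = Hd.S) → (k = Hd.E ∨ k = Hd.W) →
      c (cr σ e A h k) = false → MC P c (cr σ e A h k) (cr σ e D Hd.S Hd.E) := by
  have hnorth : ∀ A, IsFace P A → (∀ k : Hd, (k = Hd.E ∨ k = Hd.W) →
      c (cr σ e A Hd.S k) = false → MC P c (cr σ e A Hd.S k) (cr σ e D Hd.S Hd.E)) →
      ∀ h k : Hd, (h = Hd.N ∨ h = Hd.S) → (k = Hd.E ∨ k = Hd.W) →
      c (cr σ e A h k) = false → MC P c (cr σ e A h k) (cr σ e D Hd.S Hd.E) := by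
    intro A hA hs h k hh hk hc
    rcases hh with rfl | rfl
    · rcases hk with rfl | rfl
      · have : c (cr σ e A Hd.S Hd.E) = false := by
          rw [← Bool.not_eq_true]
          intro h
          rw [H.monoE A hA h] at hc
          exact absurd hc (by decide)
        exact (MC.single ⟨edge_E H hA, by rw [hc, this]⟩).symm.trans (hs _ (Or.inl rfl) this)
      · have : c (cr σ e A Hd.S Hd.W) = false := by
          rw [← Bool.not_eq_true]
          intro h
          rw [H.monoW A hA h] at hc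
          exact absurd hc (by decide)
        exact (MC.single ⟨edge_W H hA, by rw [hc, this]⟩).symm.trans (hs _ (Or.inr rfl) this)
    · exact hs k hk hc
  have hface : ∀ B, ReflTransGen (Up P σ e (UU P σ e)) D B → IsFace P B := by
    intro B hB
    induction hB with
    | refl => exact hD
    | tail _ h2 ih =>
      obtain ⟨⟨hC, -⟩, rfl⟩ := h2
      exact isFace_nbr hC
  induction hDA with
  | refl =>
    refine hnorth D hD ?_
    rintro k (rfl | rfl) hc
    · exact MC.refl _
    · exact MC.single ⟨edge_S H hD, by rw [hc, H.botE D hD hDc]⟩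
  | @tail b b' h1 h2 ih =>
    have hb' : IsFace P b' := hface _ (h1.tail h2)
    obtain ⟨⟨hC, hcc⟩, rfl⟩ := h2
    obtain ⟨e1, e2⟩ := H.north hC hcc
    refine hnorth _ hb' ?_
    rintro k (rfl | rfl) hc
    · rw [e1] at hc ⊢
      exact ih _ _ (Or.inl rfl) (Or.inl rfl) hc
    · rw [e2] at hc ⊢
      exact ih _ _ (Or.inl rfl) (Or.inr rfl) hc

/-- Every column has a top. -/
theorem exists_top (H : IsField P σ e c) : ∀ n : ℕ, ∀ A, IsFace P A → hgt P σ e A = n →
    ∃ T, IsFace P T ∧ ¬ Cmp P σ e T Hd.N ∧ ReflTransGen (Up P σ e (UU P σ e)) A T := by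
  intro n
  induction n with
  | zero =>
    intro A hA hn
    refine ⟨A, hA, ?_, ReflTransGen.refl⟩
    intro hc
    have := H.hgt_step hA hc
    omega
  | succ n ih =>
    intro A hA hn
    by_cases hc : Cmp P σ e A Hd.N
    · have h3 := H.hgt_step hA hc
      obtain ⟨T, h4, h5, h6⟩ := ih _ (isFace_nbr hA) (by omega : hgt P σ e (nb P σ e A Hd.N) = n)
      exact ⟨T, h4, h5, ReflTransGen.head ⟨⟨hA, hc⟩, rfl⟩ h6⟩
    · exact ⟨A, hA, hc, ReflTransGen.refl⟩

/-- From the bottom one can go up to every face of the column. -/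
theorem exists_bottom (H : IsField P σ e c) {A : Face} (hA : IsFace P A) :
    ∃ D, IsFace P D ∧ ¬ Cmp P σ e D Hd.S ∧ ReflTransGen (Up P σ e (UU P σ e)) D A := by
  obtain ⟨M, -, h⟩ := H.exists_bot
  obtain ⟨D, hD, hDc, hAD⟩ := h _ A hA rfl
  refine ⟨D, hD, hDc, ?_⟩
  rcases eqvGen_comparable up_func H.up_inj hAD with h1 | h1
  · rcases ReflTransGen.cases_tail h1 with h2 | ⟨C, -, ⟨hC, hcc⟩, h3⟩
    · rw [h2]
    · exfalso
      have := (Cmp.back hC (H.perp C hC) hcc).1
      rw [h3] at this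
      exact hDc this
  · exact h1

theorem top_unique {A T T' : Face} (h1 : ReflTransGen (Up P σ e (UU P σ e)) A T)
    (h2 : ReflTransGen (Up P σ e (UU P σ e)) A T') (hT : ¬ Cmp P σ e T Hd.N)
    (hT' : ¬ Cmp P σ e T' Hd.N) : T = T' := by
  induction h1 using ReflTransGen.head_induction_on with
  | refl =>
    rcases ReflTransGen.cases_head h2 with h | ⟨C, ⟨⟨-, hc⟩, -⟩, -⟩
    · exact h
    · exact absurd hc hT
  | head h3 _ ih =>
    rcases ReflTransGen.cases_head h2 with h | ⟨C, h4, h5⟩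
    · subst h
      obtain ⟨⟨-, hc⟩, -⟩ := h3
      exact absurd hc hT'
    · have := up_func _ _ _ h3 h4
      subst this
      exact ih h5

theorem bottom_unique (H : IsField P σ e c) {A D D' : Face}
    (h1 : ReflTransGen (Up P σ e (UU P σ e)) D A)
    (h2 : ReflTransGen (Up P σ e (UU P σ e)) D' A) (hD : ¬ Cmp P σ e D Hd.S)
    (hD' : ¬ Cmp P σ e D' Hd.S) : D = D' := by
  have key : ∀ {C X : Face}, Up P σ e (UU P σ e) C X → Cmp P σ e X Hd.S := by
    rintro C X ⟨⟨hC, hcc⟩, h3⟩
    have := (Cmp.back hC (H.perp C hC) hcc).1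
    rw [h3] at this
    exact this
  induction h1 with
  | refl =>
    rcases ReflTransGen.cases_tail h2 with h | ⟨C, -, h4⟩
    · exact h
    · exact absurd (key h4) hD
  | tail h3 h4 ih =>
    rcases ReflTransGen.cases_tail h2 with h | ⟨C, h5, h6⟩
    · rw [← h] at hD'
      exact absurd (key h4) hD'
    · have := H.up_inj _ _ _ h4 h6
      subst this
      exact ih h5

/-- Connected curve: equally coloured vertices are joined by monochromatic edges. -/
theorem colours_connected (H : IsField P σ e c)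
    (hconn : ∀ A B, IsFace P A → IsFace P B →
      EqvGen (fun C D => Up P σ e (UU P σ e) C D ∨ Cr P σ e (XX P σ e c) C D) A B) :
    ∀ p ∈ vertF P, ∀ q ∈ vertF P, c p = c q → MC P c p q := by
  classical
  have htop : ∀ A, ∃ T, IsFace P A → IsFace P T ∧ ¬ Cmp P σ e T Hd.N ∧
      ReflTransGen (Up P σ e (UU P σ e)) A T := by
    intro A
    by_cases hA : IsFace P A
    · obtain ⟨T, h⟩ := exists_top H _ A hA rfl
      exact ⟨T, fun _ => h⟩
    · exact ⟨A, fun h => absurd h hA⟩
  have hbot : ∀ A, ∃ D, IsFace P A → IsFace P D ∧ ¬ Cmp P σ e D Hd.S ∧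
      ReflTransGen (Up P σ e (UU P σ e)) D A := by
    intro A
    by_cases hA : IsFace P A
    · obtain ⟨T, h⟩ := exists_bottom H hA
      exact ⟨T, fun _ => h⟩
    · exact ⟨A, fun h => absurd h hA⟩
  choose tp htp using htop
  choose bt hbt using hbot
  -- representatives of the two colours in a column
  have hw : ∀ A, IsFace P A → ∀ h k : Hd, (h = Hd.N ∨ h = Hd.S) → (k = Hd.E ∨ k = Hd.W) →
      c (cr σ e A h k) = true → MC P c (cr σ e A h k) (cr σ e (tp A) Hd.N Hd.E) := by
    intro A hA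
    obtain ⟨h1, h2, h3⟩ := htp A hA
    exact white_corner H h1 h2 h3 hA
  have hb : ∀ A, IsFace P A → ∀ h k : Hd, (h = Hd.N ∨ h = Hd.S) → (k = Hd.E ∨ k = Hd.W) →
      c (cr σ e A h k) = false → MC P c (cr σ e A h k) (cr σ e (bt A) Hd.S Hd.E) := by
    intro A hA
    obtain ⟨h1, h2, h3⟩ := hbt A hA
    exact black_corner H h1 h2 h3
  have hstep : ∀ A B, EqvGen (fun C D => Up P σ e (UU P σ e) C D ∨
      Cr P σ e (XX P σ e c) C D) A B → (IsFace P A ↔ IsFace P B) ∧ (IsFace P A →
      MC P c (cr σ e (tp A) Hd.N Hd.E) (cr σ e (tp B) Hd.N Hd.E) ∧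
      MC P c (cr σ e (bt A) Hd.S Hd.E) (cr σ e (bt B) Hd.S Hd.E)) := by
    intro A B hAB
    induction hAB with
    | rel C D hCD =>
      rcases hCD with hCD | hCD
      · have hC : IsFace P C := hCD.1.1
        have hD : IsFace P D := by rw [← hCD.2]; exact isFace_nbr hC
        refine ⟨⟨fun _ => hD, fun _ => hC⟩, fun _ => ?_⟩
        obtain ⟨a1, a2, a3⟩ := htp C hC
        obtain ⟨b1, b2, b3⟩ := htp D hD
        obtain ⟨c1, c2, c3⟩ := hbt C hC
        obtain ⟨d1, d2, d3⟩ := hbt D hD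
        have e1 : tp C = tp D := top_unique a3 (ReflTransGen.head hCD b3) a2 b2
        have e2 : bt C = bt D := bottom_unique H (c3.tail hCD) d3 c2 d2
        rw [e1, e2]
        exact ⟨MC.refl _, MC.refl _⟩
      · obtain ⟨⟨hC, x1, x2⟩, x3⟩ := hCD
        have hD : IsFace P D := by rw [← x3]; exact isFace_nbr hC
        refine ⟨⟨fun _ => hD, fun _ => hC⟩, fun _ => ?_⟩
        obtain ⟨e1, e2⟩ := H.east hC (H.cmpE hC x1 x2)
        rw [x3] at e1 e2
        constructor
        · refine (hw C hC _ _ (Or.inl rfl) (Or.inl rfl) x2).symm.trans ?_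
          rw [← e2]
          exact hw D hD _ _ (Or.inl rfl) (Or.inr rfl) (by rw [e2]; exact x2)
        · refine (hb C hC _ _ (Or.inr rfl) (Or.inl rfl) x1).symm.trans ?_
          rw [← e1]
          exact hb D hD _ _ (Or.inr rfl) (Or.inr rfl) (by rw [e1]; exact x1)
    | refl x => exact ⟨Iff.rfl, fun _ => ⟨MC.refl _, MC.refl _⟩⟩
    | symm _ _ _ ih =>
      refine ⟨ih.1.symm, fun h => ?_⟩
      have := ih.2 (ih.1.2 h)
      exact ⟨this.1.symm, this.2.symm⟩
    | trans _ _ _ _ _ ih1 ih2 =>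
      refine ⟨ih1.1.trans ih2.1, fun h => ?_⟩
      have h1 := ih1.2 h
      have h2 := ih2.2 (ih1.1.1 h)
      exact ⟨h1.1.trans h2.1, h1.2.trans h2.2⟩
  -- every vertex is a corner of a face
  have hcorner : ∀ p ∈ vertF P, ∃ A h k, IsFace P A ∧ (h = Hd.N ∨ h = Hd.S) ∧
      (k = Hd.E ∨ k = Hd.W) ∧ p = cr σ e A h k := by
    intro p hp
    unfold vertF at hp
    rw [Finset.mem_image] at hp
    obtain ⟨⟨A, t⟩, hs, rfl⟩ := hp
    rw [mem_sideF] at hs
    obtain ⟨hA, ht⟩ := hs
    simp only at hA ht ⊢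
    obtain ⟨h, rfl⟩ := exists_hd σ A.2 (e A) t (H.perp A hA) ht
    have h1 : cnr A (dirH σ A.2 (e A) h) (Dir.cross A.2 (dirH σ A.2 (e A) h)) ∈
        eg A (dA σ e A h) := Sym2.mem_mk_left _ _
    rw [eg_eq_edg (H.perp A hA) h] at h1
    unfold edg at h1
    rw [Sym2.mem_iff] at h1
    cases h with
    | E =>
      simp only [Hd.left, Hd.opp] at h1
      rcases h1 with h1 | h1
      · exact ⟨A, Hd.N, Hd.E, hA, Or.inl rfl, Or.inl rfl, by rw [cr_comm]; exact h1⟩
      · exact ⟨A, Hd.S, Hd.E, hA, Or.inr rfl, Or.inl rfl, by rw [cr_comm]; exact h1⟩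
    | N =>
      simp only [Hd.left, Hd.opp] at h1
      rcases h1 with h1 | h1
      · exact ⟨A, Hd.N, Hd.W, hA, Or.inl rfl, Or.inr rfl, h1⟩
      · exact ⟨A, Hd.N, Hd.E, hA, Or.inl rfl, Or.inl rfl, h1⟩
    | W =>
      simp only [Hd.left, Hd.opp] at h1
      rcases h1 with h1 | h1
      · exact ⟨A, Hd.S, Hd.W, hA, Or.inr rfl, Or.inr rfl, by rw [cr_comm]; exact h1⟩
      · exact ⟨A, Hd.N, Hd.W, hA, Or.inl rfl, Or.inr rfl, by rw [cr_comm]; exact h1⟩
    | S =>
      simp only [Hd.left, Hd.opp] at h1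
      rcases h1 with h1 | h1
      · exact ⟨A, Hd.S, Hd.E, hA, Or.inr rfl, Or.inl rfl, h1⟩
      · exact ⟨A, Hd.S, Hd.W, hA, Or.inr rfl, Or.inr rfl, h1⟩
  intro p hp q hq hpq
  obtain ⟨A, h, k, hA, hh, hk, rfl⟩ := hcorner p hp
  obtain ⟨B, h', k', hB, hh', hk', rfl⟩ := hcorner q hq
  have hs := (hstep A B (hconn A B hA hB)).2 hA
  cases hcp : c (cr σ e A h k) with
  | true =>
    rw [hcp] at hpq
    exact ((hw A hA h k hh hk hcp).trans hs.1).trans (hw B hB h' k' hh' hk' hpq.symm).symm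
  | false =>
    rw [hcp] at hpq
    exact ((hb A hA h k hh hk hcp).trans hs.2).trans (hb B hB h' k' hh' hk' hpq.symm).symm

end Pool.Agent.Helper53.GP
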