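import Pool.Agent.Helper53.GP.OrderZ
import Pool.Agent.Helper53.GP.ColGraph
import Pool.Agent.Helper28.XS.Main
import Pool.Agent.Helper28.XS.Transfer
import Pool.Agent.Helper48.TIE.Fld

/-!
# Assembly: polycubes with ties (project TIE, MP_409f7f_co)
-/

set_option autoImplicit false

namespace Pool.Agent.Helper53.GP

open Pool.Agent.Helper17.UF Pool.Agent.Helper84.LD Pool.Agent.Helper16.LD
  Pool.Agent.Helper28.XS Pool.Agent.Helper48.TIE Relation

variable {P : Finset Cube}

theorem onF_nx_mod (hB : Blk P) {v : Cube} (h : OnF P Dir.nx v) : v.1 % 4 = 0 := by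
  obtain ⟨A, t, w, hA, h1, h2, h3, -, rfl⟩ := h
  obtain ⟨u, d⟩ := A
  simp only at h1
  subst h1
  rw [crn_fst]
  have k : ∀ w : Dir, Dir.perp Dir.nx w = true → (pp w).1 = 0 := by decide
  rw [k t h2, k w h3, show (pp Dir.nx).1 = 0 from rfl]
  have := face_nx hB hA
  simp only
  omega

theorem base_nx (hB : Blk P) (hN : NoOpp P Dir.px) {v : Cube} (hz : v.2.2 % 2 = 0)
    (h : OnF P Dir.nx v) : base P v = false := by
  rw [← Bool.not_eq_true, base_even hz, not_or]
  have := onF_nx_mod hB h
  exact ⟨by omega, fun hc => hN v hc h⟩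

theorem base_px {v : Cube} (hz : v.2.2 % 2 = 0) (h : OnF P Dir.px v) : base P v = true :=
  (base_even hz).2 (Or.inr h)

theorem cTie_colE (hB : Blk P) (hN : NoOpp P Dir.px) : ∀ v : Cube, v.2.2 % 2 = 0 →
    cTie P v = true → ¬ OnF P (dk v.2.2).neg v := by
  intro v hz hc h
  rcases mod4 v.2.2 with h4 | h4 | h4 | h4
  · rw [cTie_01 (Or.inl h4)] at hc
    rw [dk_0 h4] at h
    rw [base_nx hB hN hz h] at hc
    exact absurd hc (by decide)
  · omega
  · rw [cTie_23 (Or.inl h4)] at hc
    rw [dk_2 h4] at h
    rw [base_px hz h] at hc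
    exact absurd hc (by decide)
  · omega

theorem cTie_colW (hB : Blk P) (hN : NoOpp P Dir.px) : ∀ v : Cube, v.2.2 % 2 = 0 →
    cTie P v = false → ¬ OnF P (dk v.2.2) v := by
  intro v hz hc h
  rcases mod4 v.2.2 with h4 | h4 | h4 | h4
  · rw [cTie_01 (Or.inl h4)] at hc
    rw [dk_0 h4] at h
    rw [base_px hz h] at hc
    exact absurd hc (by decide)
  · omega
  · rw [cTie_23 (Or.inl h4)] at hc
    rw [dk_2 h4] at h
    rw [base_nx hB hN hz h] at hc
    exact absurd hc (by decide)
  · omega

/-- The statement of the connectivity theorem for compatible colourings. -/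
def ConnThm : Prop := ∀ (Q : Finset Cube) (c : Cube → Bool), EdgeOK Q → SurfConn Q →
  (vertF Q).card + (faceF Q).card = (edgeF Q).card + 2 → CanCol Q c →
  ∀ A B, IsFace Q A → IsFace Q B →
    EqvGen (fun C D => Up Q true eCan (UU Q true eCan) C D ∨ Cr Q true eCan (XX Q true eCan c) C D)
      A B

/-- **Polycubes with ties.** -/
theorem tie_unfolding (hT : ConnThm) (hE : EdgeOK P) (hsurf : SurfConn P)
    (heuler : (vertF P).card + (faceF P).card = (edgeF P).card + 2) (hB : Blk P)
    (hF : FlatEven P) (hN : NoOpp P Dir.px) (hbad : ¬ BadZ P) : HasEdgeUnfolding P := by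
  have hman : Man P := hE
  have hmT : Man (thick P) := man_thick hman hB hN
  have hcan : CanCol (thick P) (cTie (thick P)) := canCol_thick hB hman hF hN
  have heT : (vertF (thick P)).card + (faceF (thick P)).card =
      (edgeF (thick P)).card + 2 := by
    have h1 := euler_thick hman hB hN
    have h2 := card_edgeF hman
    have h3 := card_edgeF hmT
    omega
  have hconn := hT (thick P) (cTie (thick P)) hmT (surfConn_thick hB hsurf) heT hcan
  have hcc := colours_connected hcan.isField hconn
  have hcol := transfer hB hF hN hcc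
  have H := cTie_isBField hman hB hF hN
  have hbo : ∀ A, IsFace P A → BackOut true eCan (cTie P) A → ¬ Wall A :=
    fun A hA h => (cTie_backOut hman hB hF hN A hA h).1
  have hbi : ∀ A, IsFace P A → BackIn true eCan (cTie P) A → ¬ Wall A :=
    fun A hA h => (cTie_backIn hman hB hF hN A hA h).1
  exact (H.isLadderB (cTie_excl hman hB hF hN)
    (ord1z H hE hF hbad hbo hbi (cTie_colE hB hN))
    (ord2z H hE hF hbad hbo hbi (cTie_colW hB hN))
    (H.conn_of_euler hman hsurf heuler hcol)).unfolding hE

end Pool.Agent.Helper53.GP
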