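import Pool.Agent.Helper84.LD.Col

/-!
# The rotating direction field of a polycube (project GP, MP_409f7f_co)
-/

namespace Pool.Agent.Helper53.GP

open Pool.Agent.Helper17.UF Pool.Agent.Helper84.LD Relation

/-- The direction of the level `k`; it turns by a right angle from level to level. -/
def dk (k : ℤ) : Dir :=
  if k % 4 = 0 then Dir.px else if k % 4 = 1 then Dir.py else if k % 4 = 2 then Dir.nx
  else Dir.ny

/-- The level of a face: the height of a horizontal face, the even height of the layer for faces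
with normal `±y`, the odd height of the layer for faces with normal `±x`. -/
def lev : Face → ℤ
  | (v, Dir.pz) => v.2.2 + 1
  | (v, Dir.nz) => v.2.2
  | (v, Dir.px) => if v.2.2 % 2 = 1 then v.2.2 else v.2.2 + 1
  | (v, Dir.nx) => if v.2.2 % 2 = 1 then v.2.2 else v.2.2 + 1
  | (v, Dir.py) => if v.2.2 % 2 = 0 then v.2.2 else v.2.2 + 1
  | (v, Dir.ny) => if v.2.2 % 2 = 0 then v.2.2 else v.2.2 + 1

/-- The canonical east direction. -/
def eCan (A : Face) : Dir := (dk (lev A)).neg

/-- A wall: a vertical face. -/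
def Wall (A : Face) : Prop := A.2.axis ≠ 2

instance (A : Face) : Decidable (Wall A) := by unfold Wall; infer_instance

theorem mod4 (k : ℤ) : k % 4 = 0 ∨ k % 4 = 1 ∨ k % 4 = 2 ∨ k % 4 = 3 := by omega

theorem dk_0 {k : ℤ} (h : k % 4 = 0) : dk k = Dir.px := by simp [dk, h]
theorem dk_1 {k : ℤ} (h : k % 4 = 1) : dk k = Dir.py := by simp [dk, h]
theorem dk_2 {k : ℤ} (h : k % 4 = 2) : dk k = Dir.nx := by simp [dk, h]
theorem dk_3 {k : ℤ} (h : k % 4 = 3) : dk k = Dir.ny := by simp [dk, h]

theorem dk_axis (k : ℤ) : (dk k).axis = if k % 2 = 0 then 0 else 1 := by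
  rcases mod4 k with h | h | h | h
  · rw [dk_0 h, if_pos (by omega)]; rfl
  · rw [dk_1 h, if_neg (by omega)]; rfl
  · rw [dk_2 h, if_pos (by omega)]; rfl
  · rw [dk_3 h, if_neg (by omega)]; rfl

theorem dk_inj_mod {j k : ℤ} (h : dk j = dk k) : j % 4 = k % 4 := by
  rcases mod4 j with h1 | h1 | h1 | h1 <;> rcases mod4 k with h2 | h2 | h2 | h2 <;>
    first
    | (rw [h1, h2]; done)
    | (exfalso
       revert h
       first | rw [dk_0 h1] | rw [dk_1 h1] | rw [dk_2 h1] | rw [dk_3 h1]
       first | rw [dk_0 h2] | rw [dk_1 h2] | rw [dk_2 h2] | rw [dk_3 h2]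
       decide)

/-- The parity of the level of a wall. -/
theorem lev_wall_x {v : Cube} {d : Dir} (h : d.axis = 0) : lev (v, d) % 2 = 1 ∧
    (lev (v, d) = v.2.2 ∨ lev (v, d) = v.2.2 + 1) := by
  cases d <;> first | (exact absurd h (by decide)) | skip
  all_goals
    simp only [lev]
    split_ifs with h1
    · exact ⟨h1, Or.inl rfl⟩
    · exact ⟨by omega, Or.inr rfl⟩

theorem lev_wall_y {v : Cube} {d : Dir} (h : d.axis = 1) : lev (v, d) % 2 = 0 ∧
    (lev (v, d) = v.2.2 ∨ lev (v, d) = v.2.2 + 1) := by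
  cases d <;> first | (exact absurd h (by decide)) | skip
  all_goals
    simp only [lev]
    split_ifs with h1
    · exact ⟨h1, Or.inl rfl⟩
    · exact ⟨by omega, Or.inr rfl⟩

theorem lev_pz (v : Cube) : lev (v, Dir.pz) = v.2.2 + 1 := rfl
theorem lev_nz (v : Cube) : lev (v, Dir.nz) = v.2.2 := rfl

theorem axis_cases : ∀ d : Dir, d.axis = 0 ∨ d.axis = 1 ∨ d.axis = 2 := by decide

theorem neg_axis : ∀ d : Dir, d.neg.axis = d.axis := by decide

theorem perp_eCan (A : Face) : Dir.perp A.2 (eCan A) = true := by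
  obtain ⟨v, d⟩ := A
  unfold Dir.perp
  simp only [decide_eq_true_eq]
  rw [eCan, neg_axis, dk_axis]
  rcases axis_cases d with h | h | h
  · rw [h, if_neg (by have := (lev_wall_x (v := v) h).1; omega)]; decide
  · rw [h, if_pos (lev_wall_y (v := v) h).1]; decide
  · rw [h]; split_ifs <;> decide

theorem key1 : ∀ (d e e' : Dir) (h : Hd), Dir.perp d e = true → (h = Hd.N ∨ h = Hd.S) →
    Dir.perp (dirH true d e h).neg e' = true →
    (d.neg = dirH true (dirH true d e h).neg e' h.opp ↔ e' = e) := by decide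

theorem key2 : ∀ (d e e' : Dir) (h : Hd), Dir.perp d e = true → (h = Hd.N ∨ h = Hd.S) →
    Dir.perp d e' = true →
    ((dirH true d e h).neg = dirH true d e' h.opp ↔ e' = e) := by decide

theorem key3 : ∀ (d e e' : Dir) (h : Hd), Dir.perp d e = true → (h = Hd.N ∨ h = Hd.S) →
    Dir.perp (dirH true d e h) e' = true →
    (d = dirH true (dirH true d e h) e' h.opp ↔ e' = e) := by decide

/-- A north or south side is compatible iff the east directions agree. -/
theorem cmp_iff {P : Finset Cube} {A : Face} {h : Hd} (hh : h = Hd.N ∨ h = Hd.S) :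
    Cmp P true eCan A h ↔ eCan (nb P true eCan A h) = eCan A := by
  obtain ⟨v, d⟩ := A
  have hp := perp_eCan (v, d)
  have hq := perp_eCan (nb P true eCan (v, d) h)
  unfold Cmp
  simp only at hp
  have ed : dA true eCan (v, d) h = dirH true d (eCan (v, d)) h := rfl
  rcases nbr_cases P v d (dA true eCan (v, d) h) with ⟨-, e⟩ | ⟨-, -, e⟩ | ⟨-, -, e⟩
  · have e1 : nb P true eCan (v, d) h = (nbr P (v, d) (dA true eCan (v, d) h)).1 := rfl
    rw [e1, e] at hq ⊢
    simp only at hq ⊢
    exact key1 d (eCan (v, d)) _ h hp hh hq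
  · have e1 : nb P true eCan (v, d) h = (nbr P (v, d) (dA true eCan (v, d) h)).1 := rfl
    rw [e1, e] at hq ⊢
    simp only at hq ⊢
    exact key2 d (eCan (v, d)) _ h hp hh hq
  · have e1 : nb P true eCan (v, d) h = (nbr P (v, d) (dA true eCan (v, d) h)).1 := rfl
    rw [e1, e] at hq ⊢
    simp only at hq ⊢
    exact key3 d (eCan (v, d)) _ h hp hh hq

theorem eCan_congr {A B : Face} (h : lev A = lev B) : eCan A = eCan B := by
  unfold eCan; rw [h]

theorem eCan_ne {A B : Face} (h : lev A % 4 ≠ lev B % 4) : eCan A ≠ eCan B := by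
  intro he
  apply h
  apply dk_inj_mod
  unfold eCan at he
  have := congrArg Dir.neg he
  rwa [Dir.neg_neg, Dir.neg_neg] at this

theorem add_z (a b : Cube) : (a + b).2.2 = a.2.2 + b.2.2 := rfl
theorem pz_z : Dir.pz.vec.2.2 = 1 := rfl
theorem nz_z : Dir.nz.vec.2.2 = -1 := rfl

theorem vec_z_of_axis : ∀ t : Dir, t.axis ≠ 2 → t.vec.2.2 = 0 := by decide

theorem axis_dA_flat {v : Cube} {d : Dir} (hd : d.axis = 2) {h : Hd} (hh : h = Hd.N ∨ h = Hd.S) :
    (dirH true d (eCan (v, d)) h).axis = if lev (v, d) % 2 = 0 then 1 else 0 := by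
  have key : ∀ (d e : Dir) (h : Hd), d.axis = 2 → (h = Hd.N ∨ h = Hd.S) →
      ((e.axis = 0 → (dirH true d e h).axis = 1) ∧ (e.axis = 1 → (dirH true d e h).axis = 0)) := by
    decide
  have k := key d (eCan (v, d)) h hd hh
  have ha : (eCan (v, d)).axis = if lev (v, d) % 2 = 0 then 0 else 1 := by
    rw [eCan, neg_axis, dk_axis]
  split_ifs at ha ⊢ with h1
  · exact k.1 ha
  · exact k.2 ha

/-- Flat faces: north and south sides stay on the level. -/
theorem lev_nb_flat {P : Finset Cube} {A : Face} (hA : ¬ Wall A) {h : Hd}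
    (hh : h = Hd.N ∨ h = Hd.S) : lev (nb P true eCan A h) = lev A := by
  obtain ⟨v, d⟩ := A
  have hd : d.axis = 2 := by
    unfold Wall at hA
    simpa using hA
  have hax := axis_dA_flat (v := v) hd hh
  have ed : dA true eCan (v, d) h = dirH true d (eCan (v, d)) h := rfl
  set t := dirH true d (eCan (v, d)) h with ht
  have ht2 : t.axis ≠ 2 := by rw [hax]; split_ifs <;> decide
  have htz := vec_z_of_axis t ht2
  have htz' : t.neg.axis ≠ 2 := by rw [neg_axis]; exact ht2
  have e1 : nb P true eCan (v, d) h = (nbr P (v, d) t).1 := rfl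
  have hcase : ∀ (w : Cube) (u : Dir), u.axis = t.axis →
      (w.2.2 = lev (v, d) ∨ w.2.2 + 1 = lev (v, d)) → lev (w, u) = lev (v, d) := by
    intro w u hu hw
    rw [hax] at hu
    split_ifs at hu with hpar
    · have := lev_wall_y (v := w) hu
      rcases this.2 with h2 | h2 <;> rcases hw with h3 | h3 <;> omega
    · have := lev_wall_x (v := w) hu
      rcases this.2 with h2 | h2 <;> rcases hw with h3 | h3 <;> omega
  rcases nbr_cases P v d t with ⟨-, e⟩ | ⟨-, -, e⟩ | ⟨-, -, e⟩
  · rw [e1, e]
    simp only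
    refine hcase _ _ (neg_axis t) ?_
    cases d <;> first | (exact absurd hd (by decide)) | skip
    · left
      rw [lev_pz, add_z, add_z, htz, pz_z]
      ring
    · right
      rw [lev_nz, add_z, add_z, htz, nz_z]
      ring
  · rw [e1, e]
    simp only
    cases d <;> first | (exact absurd hd (by decide)) | skip
    · rw [lev_pz, lev_pz, add_z, htz]; ring
    · rw [lev_nz, lev_nz, add_z, htz]; ring
  · rw [e1, e]
    simp only
    refine hcase _ _ rfl ?_
    cases d <;> first | (exact absurd hd (by decide)) | skip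
    · right; rw [lev_pz]
    · left; rw [lev_nz]

theorem cmp_flat {P : Finset Cube} {A : Face} (hA : ¬ Wall A) {h : Hd}
    (hh : h = Hd.N ∨ h = Hd.S) : Cmp P true eCan A h :=
  (cmp_iff hh).2 (eCan_congr (lev_nb_flat hA hh))

/-- The vertical directions on a wall. -/
theorem dA_wall {A : Face} (hA : Wall A) {h : Hd} (hh : h = Hd.N ∨ h = Hd.S) :
    dA true eCan A h = Dir.pz ∨ dA true eCan A h = Dir.nz := by
  obtain ⟨v, d⟩ := A
  have key : ∀ (d e : Dir) (h : Hd), Dir.perp d e = true → d.axis ≠ 2 → e.axis ≠ 2 →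
      (h = Hd.N ∨ h = Hd.S) → dirH true d e h = Dir.pz ∨ dirH true d e h = Dir.nz := by decide
  refine key d (eCan (v, d)) h (perp_eCan (v, d)) hA ?_ hh
  rw [eCan, neg_axis, dk_axis]
  split_ifs <;> decide

/-- The height of the side of a wall in a vertical direction. -/
def ht (v : Cube) (t : Dir) : ℤ := v.2.2 + (pp t).2.2

theorem lev_nb_wall_away {P : Finset Cube} {v : Cube} {d : Dir} (hA : d.axis ≠ 2) {t : Dir}
    (htt : t = Dir.pz ∨ t = Dir.nz) (hne : ht v t ≠ lev (v, d)) :
    lev (nbr P (v, d) t).1 % 4 ≠ lev (v, d) % 4 := by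
  have hax : d.axis = 0 ∨ d.axis = 1 := by
    rcases axis_cases d with h | h | h
    · exact Or.inl h
    · exact Or.inr h
    · exact absurd h hA
  have hv : lev (v, d) = v.2.2 ∨ lev (v, d) = v.2.2 + 1 := by
    rcases hax with h | h
    · exact (lev_wall_x h).2
    · exact (lev_wall_y h).2
  have hpar : ∀ w : Cube, (lev (w, d) = w.2.2 ∨ lev (w, d) = w.2.2 + 1) ∧
      lev (w, d) % 2 = lev (v, d) % 2 := by
    intro w
    rcases hax with h | h
    · have a := lev_wall_x (v := w) h
      have b := lev_wall_x (v := v) h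
      exact ⟨a.2, by omega⟩
    · have a := lev_wall_y (v := w) h
      have b := lev_wall_y (v := v) h
      exact ⟨a.2, by omega⟩
  have hdz : d.vec.2.2 = 0 := vec_z_of_axis d hA
  rcases htt with rfl | rfl
  · -- upwards, the level is `v.2.2`
    have hl : lev (v, d) = v.2.2 := by
      rcases hv with h | h
      · exact h
      · exfalso; apply hne; rw [h]; simp [ht, pp]
    rcases nbr_cases P v d Dir.pz with ⟨-, e⟩ | ⟨-, -, e⟩ | ⟨-, -, e⟩
    · rw [e]
      simp only
      have : Dir.pz.neg = Dir.nz := rfl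
      rw [this, lev_nz, hl, add_z, add_z, hdz, pz_z]
      omega
    · rw [e]
      simp only
      have h3 := hpar (v + Dir.pz.vec)
      have hz : (v + Dir.pz.vec).2.2 = v.2.2 + 1 := by rw [add_z, pz_z]
      rcases h3.1 with h | h <;> rw [hz] at h <;> omega
    · rw [e]
      simp only
      rw [lev_pz, hl]
      omega
  · have hl : lev (v, d) = v.2.2 + 1 := by
      rcases hv with h | h
      · exfalso; apply hne; rw [h]; simp [ht, pp]
      · exact h
    rcases nbr_cases P v d Dir.nz with ⟨-, e⟩ | ⟨-, -, e⟩ | ⟨-, -, e⟩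
    · rw [e]
      simp only
      have : Dir.nz.neg = Dir.pz := rfl
      rw [this, lev_pz, hl, add_z, add_z, hdz, nz_z]
      omega
    · rw [e]
      simp only
      have h3 := hpar (v + Dir.nz.vec)
      have hz : (v + Dir.nz.vec).2.2 = v.2.2 - 1 := by rw [add_z, nz_z]; ring
      rcases h3.1 with h | h <;> rw [hz] at h <;> omega
    · rw [e]
      simp only
      rw [lev_nz, hl]
      omega

theorem lev_nb_wall_to {P : Finset Cube} {v : Cube} {d : Dir} (hA : d.axis ≠ 2) {t : Dir}
    (htt : t = Dir.pz ∨ t = Dir.nz) (hne : ht v t = lev (v, d)) :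
    lev (nbr P (v, d) t).1 = lev (v, d) := by
  have hax : d.axis = 0 ∨ d.axis = 1 := by
    rcases axis_cases d with h | h | h
    · exact Or.inl h
    · exact Or.inr h
    · exact absurd h hA
  have hpar : ∀ w : Cube, (lev (w, d) = w.2.2 ∨ lev (w, d) = w.2.2 + 1) ∧
      lev (w, d) % 2 = lev (v, d) % 2 := by
    intro w
    rcases hax with h | h
    · have a := lev_wall_x (v := w) h
      have b := lev_wall_x (v := v) h
      exact ⟨a.2, by omega⟩
    · have a := lev_wall_y (v := w) h
      have b := lev_wall_y (v := v) h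
      exact ⟨a.2, by omega⟩
  have hdz : d.vec.2.2 = 0 := vec_z_of_axis d hA
  rcases htt with rfl | rfl
  · have hl : lev (v, d) = v.2.2 + 1 := by rw [← hne]; simp [ht, pp]
    rcases nbr_cases P v d Dir.pz with ⟨-, e⟩ | ⟨-, -, e⟩ | ⟨-, -, e⟩
    · rw [e]
      simp only
      have : Dir.pz.neg = Dir.nz := rfl
      rw [this, lev_nz, hl, add_z, add_z, hdz, pz_z]
      ring
    · rw [e]
      simp only
      have h3 := hpar (v + Dir.pz.vec)
      have hz : (v + Dir.pz.vec).2.2 = v.2.2 + 1 := by rw [add_z, pz_z]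
      rcases h3.1 with h | h <;> rw [hz] at h <;> omega
    · rw [e]
      simp only
      rw [lev_pz, hl]
  · have hl : lev (v, d) = v.2.2 := by rw [← hne]; simp [ht, pp]
    rcases nbr_cases P v d Dir.nz with ⟨-, e⟩ | ⟨-, -, e⟩ | ⟨-, -, e⟩
    · rw [e]
      simp only
      have : Dir.nz.neg = Dir.pz := rfl
      rw [this, lev_pz, hl, add_z, add_z, hdz, nz_z]
      ring
    · rw [e]
      simp only
      have h3 := hpar (v + Dir.nz.vec)
      have hz : (v + Dir.nz.vec).2.2 = v.2.2 - 1 := by rw [add_z, nz_z]; ring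
      rcases h3.1 with h | h <;> rw [hz] at h <;> omega
    · rw [e]
      simp only
      rw [lev_nz, hl]

/-- A vertical side of a wall is compatible iff it is at the level of the wall. -/
theorem cmp_wall {P : Finset Cube} {A : Face} (hA : Wall A) {h : Hd}
    (hh : h = Hd.N ∨ h = Hd.S) :
    Cmp P true eCan A h ↔ ht A.1 (dA true eCan A h) = lev A := by
  obtain ⟨v, d⟩ := A
  rw [cmp_iff hh]
  constructor
  · intro hc
    by_contra hne
    exact eCan_ne (lev_nb_wall_away (P := P) hA (dA_wall hA hh) hne) hc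
  · intro hc
    exact eCan_congr (lev_nb_wall_to (P := P) hA (dA_wall hA hh) hc)

theorem dirH_SN : ∀ d e : Dir, dirH true d e Hd.S = (dirH true d e Hd.N).neg := by decide

/-- Exactly one of the two vertical sides of a wall is at its level. -/
theorem wall_one {A : Face} (hA : Wall A) :
    (ht A.1 (dA true eCan A Hd.N) = lev A ∧ ht A.1 (dA true eCan A Hd.S) ≠ lev A) ∨
    (ht A.1 (dA true eCan A Hd.N) ≠ lev A ∧ ht A.1 (dA true eCan A Hd.S) = lev A) := by
  obtain ⟨v, d⟩ := A
  have hv : lev (v, d) = v.2.2 ∨ lev (v, d) = v.2.2 + 1 := by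
    rcases axis_cases d with h | h | h
    · exact (lev_wall_x h).2
    · exact (lev_wall_y h).2
    · exact absurd h hA
  have hS : dA true eCan (v, d) Hd.S = (dA true eCan (v, d) Hd.N).neg := dirH_SN _ _
  rw [hS]
  rcases dA_wall hA (Or.inl rfl : Hd.N = Hd.N ∨ Hd.N = Hd.S) with h | h
  · rw [h]
    rcases hv with h2 | h2
    · right; rw [h2]; simp [ht, pp, Dir.neg]
    · left; rw [h2]; simp [ht, pp, Dir.neg]
  · rw [h]
    rcases hv with h2 | h2
    · left; rw [h2]; simp [ht, pp, Dir.neg]
    · right; rw [h2]; simp [ht, pp, Dir.neg]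

theorem key_away (d : Dir) (h : Hd) (hA : d.axis ≠ 2) (hh : h = Hd.N ∨ h = Hd.S) :
      ((dirH true d Dir.px.neg h = Dir.pz → d.axis = 1 → (d = Dir.py ↔ h = Hd.N)) ∧
      (dirH true d Dir.px.neg h = Dir.nz → d.axis = 1 → (d = Dir.ny ↔ h = Hd.N)) ∧
      (dirH true d Dir.py.neg h = Dir.pz → d.axis = 0 → (d = Dir.nx ↔ h = Hd.N)) ∧
      (dirH true d Dir.py.neg h = Dir.nz → d.axis = 0 → (d = Dir.px ↔ h = Hd.N)) ∧
      (dirH true d Dir.nx.neg h = Dir.pz → d.axis = 1 → (d = Dir.ny ↔ h = Hd.N)) ∧
      (dirH true d Dir.nx.neg h = Dir.nz → d.axis = 1 → (d = Dir.py ↔ h = Hd.N)) ∧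
      (dirH true d Dir.ny.neg h = Dir.pz → d.axis = 0 → (d = Dir.px ↔ h = Hd.N)) ∧
      (dirH true d Dir.ny.neg h = Dir.nz → d.axis = 0 → (d = Dir.nx ↔ h = Hd.N))) := by
  cases d <;> cases h <;> first
    | (exact absurd rfl hA)
    | (exact absurd hh (by decide))
    | (refine ⟨?_, ?_, ?_, ?_, ?_, ?_, ?_, ?_⟩ <;> decide)

/-- On a wall, the side away from the level is at the north iff the normal is the direction of
the height of that side. -/
theorem away_colour {A : Face} (hA : Wall A) {h : Hd} (hh : h = Hd.N ∨ h = Hd.S)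
    (hne : ht A.1 (dA true eCan A h) ≠ lev A) :
    A.2 = dk (ht A.1 (dA true eCan A h)) ↔ h = Hd.N := by
  obtain ⟨v, d⟩ := A
  have hv : lev (v, d) = v.2.2 ∨ lev (v, d) = v.2.2 + 1 := by
    rcases axis_cases d with h | h | h
    · exact (lev_wall_x h).2
    · exact (lev_wall_y h).2
    · exact absurd h hA
  have hpar : (d.axis = 0 → lev (v, d) % 2 = 1) ∧ (d.axis = 1 → lev (v, d) % 2 = 0) :=
    ⟨fun h => (lev_wall_x h).1, fun h => (lev_wall_y h).1⟩
  have hw := dA_wall hA hh
  have ed : dA true eCan (v, d) h = dirH true d (dk (lev (v, d))).neg h := rfl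
  -- the two directions of the level and of the height of the side
  obtain ⟨k1, k2, k3, k4, k5, k6, k7, k8⟩ := key_away d h hA hh
  have hax : d.axis = 0 ∨ d.axis = 1 := by
    rcases axis_cases d with h | h | h
    · exact Or.inl h
    · exact Or.inr h
    · exact absurd h hA
  set l := lev (v, d) with hl
  simp only at hne ⊢
  have hup : dA true eCan (v, d) h = Dir.pz → ht v (dA true eCan (v, d) h) = l + 1 := by
    intro h0
    rw [h0] at hne ⊢
    simp only [ht, pp] at hne ⊢
    rcases hv with h2 | h2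
    · omega
    · exact absurd h2.symm hne
  have hdn : dA true eCan (v, d) h = Dir.nz → ht v (dA true eCan (v, d) h) = l - 1 := by
    intro h0
    rw [h0] at hne ⊢
    simp only [ht, pp, add_zero] at hne ⊢
    rcases hv with h2 | h2
    · exact absurd h2.symm hne
    · omega
  rcases mod4 l with h4 | h4 | h4 | h4
  · have hd1 : d.axis = 1 := by
      rcases hax with h | h
      · have := hpar.1 h; omega
      · exact h
    rw [dk_0 h4] at ed
    rcases hw with h0 | h0
    · rw [hup h0, dk_1 (by omega)]; exact k1 (ed ▸ h0) hd1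
    · rw [hdn h0, dk_3 (by omega)]; exact k2 (ed ▸ h0) hd1
  · have hd1 : d.axis = 0 := by
      rcases hax with h | h
      · exact h
      · have := hpar.2 h; omega
    rw [dk_1 h4] at ed
    rcases hw with h0 | h0
    · rw [hup h0, dk_2 (by omega)]; exact k3 (ed ▸ h0) hd1
    · rw [hdn h0, dk_0 (by omega)]; exact k4 (ed ▸ h0) hd1
  · have hd1 : d.axis = 1 := by
      rcases hax with h | h
      · have := hpar.1 h; omega
      · exact h
    rw [dk_2 h4] at ed
    rcases hw with h0 | h0
    · rw [hup h0, dk_3 (by omega)]; exact k5 (ed ▸ h0) hd1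
    · rw [hdn h0, dk_1 (by omega)]; exact k6 (ed ▸ h0) hd1
  · have hd1 : d.axis = 0 := by
      rcases hax with h | h
      · exact h
      · have := hpar.2 h; omega
    rw [dk_3 h4] at ed
    rcases hw with h0 | h0
    · rw [hup h0, dk_0 (by omega)]; exact k7 (ed ▸ h0) hd1
    · rw [hdn h0, dk_2 (by omega)]; exact k8 (ed ▸ h0) hd1

/-- Compatible colourings: on a wall, the ends of the side away from the level are white (true)
iff the normal is the direction of the height of that side; on horizontal faces the colours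
increase towards the north along the lateral sides. -/
structure CanCol (P : Finset Cube) (c : Cube → Bool) : Prop where
  wall : ∀ A, IsFace P A → Wall A → ∀ t w : Dir, (t = Dir.pz ∨ t = Dir.nz) →
    Dir.perp A.2 w = true → w.axis ≠ 2 → ht A.1 t ≠ lev A →
    c (crn A t w) = decide (A.2 = dk (ht A.1 t))
  flat : ∀ A, IsFace P A → ¬ Wall A → ∀ h : Hd, (h = Hd.E ∨ h = Hd.W) →
    c (cr true eCan A Hd.S h) = true → c (cr true eCan A Hd.N h) = true

theorem lateral_axis {A : Face} {h : Hd} (hh : h = Hd.E ∨ h = Hd.W) :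
    Dir.perp A.2 (dA true eCan A h) = true ∧ (dA true eCan A h).axis ≠ 2 := by
  obtain ⟨v, d⟩ := A
  refine ⟨perp_dirH true _ _ (perp_eCan (v, d)) h, ?_⟩
  have key : ∀ (d e : Dir) (h : Hd), (h = Hd.E ∨ h = Hd.W) → (dirH true d e h).axis = e.axis := by
    decide
  unfold dA
  rw [key _ _ _ hh, eCan, neg_axis, dk_axis]
  split_ifs <;> decide

namespace CanCol

variable {P : Finset Cube} {c : Cube → Bool}

theorem cr_away (H : CanCol P c) {A : Face} (hA : IsFace P A) (hw : Wall A) {h k : Hd}
    (hh : h = Hd.N ∨ h = Hd.S) (hk : k = Hd.E ∨ k = Hd.W)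
    (hne : ht A.1 (dA true eCan A h) ≠ lev A) : c (cr true eCan A h k) = decide (h = Hd.N) := by
  have hl := lateral_axis (A := A) hk
  have h1 := H.wall A hA hw _ _ (dA_wall hw hh) hl.1 hl.2 hne
  unfold cr
  rw [h1]
  exact decide_eq_decide.2 (away_colour hw hh hne)

theorem mono (H : CanCol P c) {A : Face} (hA : IsFace P A) {k : Hd} (hk : k = Hd.E ∨ k = Hd.W)
    (h1 : c (cr true eCan A Hd.S k) = true) : c (cr true eCan A Hd.N k) = true := by
  by_cases hw : Wall A
  · rcases wall_one hw with ⟨-, h2⟩ | ⟨h2, -⟩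
    · have := H.cr_away hA hw (Or.inr rfl) hk h2
      rw [h1] at this
      exact absurd this (by decide)
    · have := H.cr_away hA hw (Or.inl rfl) hk h2
      rw [this]; decide
  · exact H.flat A hA hw k hk h1

theorem top (H : CanCol P c) {A : Face} (hA : IsFace P A) {k : Hd} (hk : k = Hd.E ∨ k = Hd.W)
    (h1 : ¬ Cmp P true eCan A Hd.N) : c (cr true eCan A Hd.N k) = true := by
  by_cases hw : Wall A
  · rw [cmp_wall hw (Or.inl rfl)] at h1
    have := H.cr_away hA hw (Or.inl rfl) hk h1
    rw [this]; decide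
  · exact absurd (cmp_flat hw (Or.inl rfl)) h1

theorem bot (H : CanCol P c) {A : Face} (hA : IsFace P A) {k : Hd} (hk : k = Hd.E ∨ k = Hd.W)
    (h1 : ¬ Cmp P true eCan A Hd.S) : c (cr true eCan A Hd.S k) = false := by
  by_cases hw : Wall A
  · rw [cmp_wall hw (Or.inr rfl)] at h1
    have := H.cr_away hA hw (Or.inr rfl) hk h1
    rw [this]; decide
  · exact absurd (cmp_flat hw (Or.inr rfl)) h1

end CanCol

/-- Going north from a flat face to a flat face is a translation. -/
theorem nb_flat_flat {P : Finset Cube} {A : Face} (hA : ¬ Wall A)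
    (hB : ¬ Wall (nb P true eCan A Hd.N)) :
    nb P true eCan A Hd.N = (A.1 + (dA true eCan A Hd.N).vec, A.2) ∧
    dA true eCan (nb P true eCan A Hd.N) Hd.N = dA true eCan A Hd.N := by
  obtain ⟨v, d⟩ := A
  have hd : d.axis = 2 := by
    unfold Wall at hA
    simpa using hA
  have hlev := lev_nb_flat (P := P) hA (Or.inl rfl : Hd.N = Hd.N ∨ Hd.N = Hd.S)
  have hax := axis_dA_flat (v := v) hd (Or.inl rfl : Hd.N = Hd.N ∨ Hd.N = Hd.S)
  have ed : dA true eCan (v, d) Hd.N = dirH true d (eCan (v, d)) Hd.N := rfl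
  set t := dA true eCan (v, d) Hd.N with ht
  have ht2 : t.axis ≠ 2 := by rw [ed, hax]; split_ifs <;> decide
  have e1 : nb P true eCan (v, d) Hd.N = (nbr P (v, d) t).1 := rfl
  rcases nbr_cases P v d t with ⟨-, e⟩ | ⟨-, -, e⟩ | ⟨-, -, e⟩
  · exfalso
    rw [e1, e] at hB
    apply hB
    unfold Wall
    simp only [neg_axis]
    exact ht2
  · have e2 : nb P true eCan (v, d) Hd.N = (v + t.vec, d) := by rw [e1, e]
    refine ⟨e2, ?_⟩
    rw [e2] at hlev ⊢
    have e3 : eCan (v + t.vec, d) = eCan (v, d) := eCan_congr hlev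
    unfold dA
    rw [e3]
    exact ed.symm
  · exfalso
    rw [e1, e] at hB
    exact hB ht2

theorem noRing (P : Finset Cube) {A : Face} (hA : IsFace P A) :
    ∃ k : ℕ, ¬ Cmp P true eCan ((fun B => nb P true eCan B Hd.N)^[k] A) Hd.N := by
  by_contra hcon
  push Not at hcon
  set f : Face → Face := fun B => nb P true eCan B Hd.N with hf
  have hface : ∀ k : ℕ, IsFace P (f^[k] A) := by
    intro k
    induction k with
    | zero => exact hA
    | succ n ih =>
      rw [Function.iterate_succ_apply']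
      exact isFace_nbr ih
  have hflat : ∀ k : ℕ, ¬ Wall (f^[k + 1] A) := by
    intro k hw
    have h1 := hcon k
    have h2 := (h1.back (hface k) (perp_eCan _)).1
    have h3 := hcon (k + 1)
    rw [Function.iterate_succ_apply'] at h3 hw
    have h4 := (cmp_wall hw (Or.inl rfl)).1 h3
    have h5 := (cmp_wall hw (Or.inr rfl)).1 h2
    rcases wall_one hw with ⟨-, h⟩ | ⟨h, -⟩
    · exact h h5
    · exact h h4
  set t := dA true eCan (f A) Hd.N with ht
  have hpos : ∀ k : ℕ, f^[k + 1] A = ((f A).1 + (k : ℤ) • t.vec, (f A).2) ∧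
      dA true eCan (f^[k + 1] A) Hd.N = t := by
    intro k
    induction k with
    | zero => exact ⟨by simp, rfl⟩
    | succ n ih =>
      have hw1 := hflat n
      have hw2 := hflat (n + 1)
      rw [Function.iterate_succ_apply'] at hw2
      have h := nb_flat_flat hw1 hw2
      rw [Function.iterate_succ_apply' f (n + 1)]
      refine ⟨?_, ?_⟩
      · change nb P true eCan (f^[n + 1] A) Hd.N = _
        rw [h.1, ih.2, ih.1]
        simp only [Prod.mk.injEq, and_true]
        push_cast
        rw [add_smul, one_smul]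
        abel
      · change dA true eCan (nb P true eCan (f^[n + 1] A) Hd.N) Hd.N = _
        rw [h.2, ih.2]
  have hmem : ∀ k : ℕ, (f A).1 + (k : ℤ) • t.vec ∈ P := by
    intro k
    have := (hface (k + 1)).1
    rw [(hpos k).1] at this
    exact this
  have hinj : Function.Injective (fun k : ℕ => (f A).1 + (k : ℤ) • t.vec) := by
    intro a b hab
    simp only [add_right_inj] at hab
    have h0 : ((a : ℤ) - b) • t.vec = 0 := by rw [sub_smul, hab, sub_self]
    have key : ∀ t : Dir, ∀ m : ℤ, m • t.vec = 0 → m = 0 := by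
      intro t m hm
      cases t <;> simpa [Dir.vec] using hm
    have := key t _ h0
    omega
  exact Set.infinite_of_injective_forall_mem hinj hmem (Finset.finite_toSet P)

/-- **The rotating field.** -/
theorem CanCol.isField {P : Finset Cube} {c : Cube → Bool} (H : CanCol P c) :
    IsField P true eCan c where
  perp := fun A _ => perp_eCan A
  monoE := fun A hA h => H.mono hA (Or.inl rfl) h
  monoW := fun A hA h => H.mono hA (Or.inr rfl) h
  topE := fun A hA h => H.top hA (Or.inl rfl) h
  topW := fun A hA h => H.top hA (Or.inr rfl) h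
  botE := fun A hA h => H.bot hA (Or.inl rfl) h
  botW := fun A hA h => H.bot hA (Or.inr rfl) h
  noRing := fun _ hA => noRing P hA

end Pool.Agent.Helper53.GP
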