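import Pool.Agent.Helper53.GP.TieDefs

/-!
# Local patterns of a polycube around a lattice point (project TIE, MP_409f7f_co)
-/

set_option linter.unusedTactic false
set_option linter.unreachableTactic false
set_option linter.unnecessarySeqFocus false

namespace Pool.Agent.Helper53.GP

open Pool.Agent.Helper17.UF Pool.Agent.Helper84.LD Pool.Agent.Helper16.LD Relation

/-- The four cubes of the slab `x` around the point `(y, z)`. -/
abbrev B4 := Bool × Bool × Bool × Bool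

/-- Membership as a Boolean. -/
def oc (P : Finset Cube) (u : Cube) : Bool := decide (u ∈ P)

theorem oc_eq {P : Finset Cube} {u : Cube} : oc P u = true ↔ u ∈ P := by
  unfold oc; exact decide_eq_true_iff

theorem oc_eq_false {P : Finset Cube} {u : Cube} : oc P u = false ↔ u ∉ P := by
  unfold oc; exact decide_eq_false_iff_not

/-- The pattern of the four cubes of the slab `x` around the point `(y, z)`. -/
def pat (P : Finset Cube) (x y z : ℤ) : B4 :=
  (oc P (x, y - 1, z - 1), oc P (x, y - 1, z), oc P (x, y, z - 1), oc P (x, y, z))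

/-- Difference indicator. -/
def nf (a b : Bool) : ℤ := if a = b then 0 else 1

/-- Number of boundary faces at a lattice point. -/
def deg8 (l r : B4) : ℤ :=
  nf l.1 r.1 + nf l.2.1 r.2.1 + nf l.2.2.1 r.2.2.1 + nf l.2.2.2 r.2.2.2 +
  nf l.1 l.2.1 + nf l.2.2.1 l.2.2.2 + nf l.1 l.2.2.1 + nf l.2.1 l.2.2.2 +
  nf r.1 r.2.1 + nf r.2.2.1 r.2.2.2 + nf r.1 r.2.2.1 + nf r.2.1 r.2.2.2

/-- The pattern is constant. -/
def cst (l : B4) : Bool := (l.1 == l.2.1) && (l.1 == l.2.2.1) && (l.1 == l.2.2.2)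

/-- Local contribution of a lattice point to `4 V - 4 F`. -/
def kap (l r : B4) : ℤ := (if cst l && cst r && (l.1 == r.1) then 0 else 4) - deg8 l r

/-- Two diagonal cubes. -/
def diag (l : B4) : Bool :=
  (l.1 && l.2.2.2 && !l.2.1 && !l.2.2.1) || (!l.1 && !l.2.2.2 && l.2.1 && l.2.2.1)

theorem kap_self : ∀ l : B4, diag l = false → kap l l = 0 := by decide

theorem univ_dir : (Finset.univ : Finset Dir) =
    {Dir.px, Dir.nx, Dir.py, Dir.ny, Dir.pz, Dir.nz} := by decide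

theorem sum_dir (f : Dir → ℤ) : ∑ d, f d =
    f Dir.px + f Dir.nx + f Dir.py + f Dir.ny + f Dir.pz + f Dir.nz := by
  rw [univ_dir]
  simp only [Finset.sum_insert, Finset.mem_insert, Finset.mem_singleton, reduceCtorEq, or_self,
    not_false_eq_true, Finset.sum_singleton]
  ring

/-- The offset of the corner of a face. -/
def ov (d t : Dir) : Cube := up d + up t + up (Dir.cross d t)

/-- Sides whose first corner is `v`. -/
def degS (P : Finset Cube) (v : Cube) : ℕ :=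
  ((sideF P).filter (fun s => cnr s.1 s.2 (Dir.cross s.1.2 s.2) = v)).card

theorem cnr_ov (u : Cube) (d t : Dir) : cnr (u, d) t (Dir.cross d t) = u + ov d t := rfl

theorem degS_eq (P : Finset Cube) (v : Cube) : degS P v =
    ((Finset.univ : Finset (Dir × Dir)).filter (fun p => Dir.perp p.1 p.2 = true ∧
      v - ov p.1 p.2 ∈ P ∧ v - ov p.1 p.2 + p.1.vec ∉ P)).card := by
  unfold degS
  symm
  refine Finset.card_bij (fun p _ => ((v - ov p.1 p.2, p.1), p.2)) ?_ ?_ ?_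
  · intro p hp
    rw [Finset.mem_filter] at hp ⊢
    obtain ⟨-, h1, h2, h3⟩ := hp
    refine ⟨mem_sideF.2 ⟨⟨h2, h3⟩, h1⟩, ?_⟩
    rw [cnr_ov]
    simp
  · intro p _ q _ h
    simp only [Prod.mk.injEq] at h
    exact Prod.ext h.1.2 h.2
  · rintro ⟨⟨u, d⟩, t⟩ hs
    rw [Finset.mem_filter, mem_sideF] at hs
    obtain ⟨⟨h1, h2⟩, h3⟩ := hs
    simp only at h2 h3
    rw [cnr_ov] at h3
    have h4 : v - ov d t = u := by rw [← h3]; abel
    refine ⟨(d, t), ?_, ?_⟩
    · rw [Finset.mem_filter]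
      refine ⟨Finset.mem_univ _, h2, ?_, ?_⟩
      · simp only [h4]; exact h1.1
      · simp only [h4]; exact h1.2
    · simp only [h4]

/-- The face with normal `d` and side `t` at a lattice point, as a Boolean. -/
def fb (P : Finset Cube) (v : Cube) (d t : Dir) : Bool :=
  Dir.perp d t && (oc P (v - ov d t) && !oc P (v - ov d t + d.vec))

/-- Indicator of a Boolean. -/
def bi : Bool → ℤ
  | true => 1
  | false => 0

theorem bi_eq (b : Bool) : (if b = true then (1 : ℤ) else 0) = bi b := by cases b <;> rfl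

theorem degS_sum (P : Finset Cube) (v : Cube) : (degS P v : ℤ) =
    ∑ d : Dir, ∑ t : Dir, bi (fb P v d t) := by
  rw [degS_eq, ← Fintype.sum_prod_type', Finset.card_filter]
  push_cast
  refine Finset.sum_congr rfl ?_
  intro p _
  rw [← bi_eq]
  have : (fb P v p.1 p.2 = true) ↔ (Dir.perp p.1 p.2 = true ∧
      v - ov p.1 p.2 ∈ P ∧ v - ov p.1 p.2 + p.1.vec ∉ P) := by
    unfold fb oc
    simp
  simp only [this]

theorem fb_aux (P : Finset Cube) (v : Cube) (d t : Dir) (u u' : Cube) (h : Dir.perp d t = true)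
    (h1 : v - ov d t = u) (h2 : v - ov d t + d.vec = u') :
    fb P v d t = (oc P u && !oc P u') := by
  unfold fb
  rw [h, h1, ← h2, h1, Bool.true_and]

theorem fb_px_px (P : Finset Cube) (x y z : ℤ) : fb P (x, y, z) Dir.px Dir.px = false := rfl

theorem fb_px_nx (P : Finset Cube) (x y z : ℤ) : fb P (x, y, z) Dir.px Dir.nx = false := rfl

theorem fb_px_py (P : Finset Cube) (x y z : ℤ) : fb P (x, y, z) Dir.px Dir.py =
    (oc P (x - 1, y - 1, z - 1) && !oc P (x, y - 1, z - 1)) :=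
  fb_aux P (x, y, z) _ _ _ _ rfl (by simp [ov, up, Dir.cross]) (by simp [ov, up, Dir.cross, Dir.vec] <;> ring)

theorem fb_px_ny (P : Finset Cube) (x y z : ℤ) : fb P (x, y, z) Dir.px Dir.ny =
    (oc P (x - 1, y, z) && !oc P (x, y, z)) :=
  fb_aux P (x, y, z) _ _ _ _ rfl (by simp [ov, up, Dir.cross]) (by simp [ov, up, Dir.cross, Dir.vec] <;> ring)

theorem fb_px_pz (P : Finset Cube) (x y z : ℤ) : fb P (x, y, z) Dir.px Dir.pz =
    (oc P (x - 1, y, z - 1) && !oc P (x, y, z - 1)) :=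
  fb_aux P (x, y, z) _ _ _ _ rfl (by simp [ov, up, Dir.cross]) (by simp [ov, up, Dir.cross, Dir.vec] <;> ring)

theorem fb_px_nz (P : Finset Cube) (x y z : ℤ) : fb P (x, y, z) Dir.px Dir.nz =
    (oc P (x - 1, y - 1, z) && !oc P (x, y - 1, z)) :=
  fb_aux P (x, y, z) _ _ _ _ rfl (by simp [ov, up, Dir.cross]) (by simp [ov, up, Dir.cross, Dir.vec] <;> ring)

theorem fb_nx_px (P : Finset Cube) (x y z : ℤ) : fb P (x, y, z) Dir.nx Dir.px = false := rfl

theorem fb_nx_nx (P : Finset Cube) (x y z : ℤ) : fb P (x, y, z) Dir.nx Dir.nx = false := rfl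

theorem fb_nx_py (P : Finset Cube) (x y z : ℤ) : fb P (x, y, z) Dir.nx Dir.py =
    (oc P (x, y - 1, z) && !oc P (x - 1, y - 1, z)) :=
  fb_aux P (x, y, z) _ _ _ _ rfl (by simp [ov, up, Dir.cross]) (by simp [ov, up, Dir.cross, Dir.vec] <;> ring)

theorem fb_nx_ny (P : Finset Cube) (x y z : ℤ) : fb P (x, y, z) Dir.nx Dir.ny =
    (oc P (x, y, z - 1) && !oc P (x - 1, y, z - 1)) :=
  fb_aux P (x, y, z) _ _ _ _ rfl (by simp [ov, up, Dir.cross]) (by simp [ov, up, Dir.cross, Dir.vec] <;> ring)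

theorem fb_nx_pz (P : Finset Cube) (x y z : ℤ) : fb P (x, y, z) Dir.nx Dir.pz =
    (oc P (x, y - 1, z - 1) && !oc P (x - 1, y - 1, z - 1)) :=
  fb_aux P (x, y, z) _ _ _ _ rfl (by simp [ov, up, Dir.cross]) (by simp [ov, up, Dir.cross, Dir.vec] <;> ring)

theorem fb_nx_nz (P : Finset Cube) (x y z : ℤ) : fb P (x, y, z) Dir.nx Dir.nz =
    (oc P (x, y, z) && !oc P (x - 1, y, z)) :=
  fb_aux P (x, y, z) _ _ _ _ rfl (by simp [ov, up, Dir.cross]) (by simp [ov, up, Dir.cross, Dir.vec] <;> ring)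

theorem fb_py_px (P : Finset Cube) (x y z : ℤ) : fb P (x, y, z) Dir.py Dir.px =
    (oc P (x - 1, y - 1, z) && !oc P (x - 1, y, z)) :=
  fb_aux P (x, y, z) _ _ _ _ rfl (by simp [ov, up, Dir.cross]) (by simp [ov, up, Dir.cross, Dir.vec] <;> ring)

theorem fb_py_nx (P : Finset Cube) (x y z : ℤ) : fb P (x, y, z) Dir.py Dir.nx =
    (oc P (x, y - 1, z - 1) && !oc P (x, y, z - 1)) :=
  fb_aux P (x, y, z) _ _ _ _ rfl (by simp [ov, up, Dir.cross]) (by simp [ov, up, Dir.cross, Dir.vec] <;> ring)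

theorem fb_py_py (P : Finset Cube) (x y z : ℤ) : fb P (x, y, z) Dir.py Dir.py = false := rfl

theorem fb_py_ny (P : Finset Cube) (x y z : ℤ) : fb P (x, y, z) Dir.py Dir.ny = false := rfl

theorem fb_py_pz (P : Finset Cube) (x y z : ℤ) : fb P (x, y, z) Dir.py Dir.pz =
    (oc P (x - 1, y - 1, z - 1) && !oc P (x - 1, y, z - 1)) :=
  fb_aux P (x, y, z) _ _ _ _ rfl (by simp [ov, up, Dir.cross]) (by simp [ov, up, Dir.cross, Dir.vec] <;> ring)

theorem fb_py_nz (P : Finset Cube) (x y z : ℤ) : fb P (x, y, z) Dir.py Dir.nz =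
    (oc P (x, y - 1, z) && !oc P (x, y, z)) :=
  fb_aux P (x, y, z) _ _ _ _ rfl (by simp [ov, up, Dir.cross]) (by simp [ov, up, Dir.cross, Dir.vec] <;> ring)

theorem fb_ny_px (P : Finset Cube) (x y z : ℤ) : fb P (x, y, z) Dir.ny Dir.px =
    (oc P (x - 1, y, z - 1) && !oc P (x - 1, y - 1, z - 1)) :=
  fb_aux P (x, y, z) _ _ _ _ rfl (by simp [ov, up, Dir.cross]) (by simp [ov, up, Dir.cross, Dir.vec] <;> ring)

theorem fb_ny_nx (P : Finset Cube) (x y z : ℤ) : fb P (x, y, z) Dir.ny Dir.nx =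
    (oc P (x, y, z) && !oc P (x, y - 1, z)) :=
  fb_aux P (x, y, z) _ _ _ _ rfl (by simp [ov, up, Dir.cross]) (by simp [ov, up, Dir.cross, Dir.vec] <;> ring)

theorem fb_ny_py (P : Finset Cube) (x y z : ℤ) : fb P (x, y, z) Dir.ny Dir.py = false := rfl

theorem fb_ny_ny (P : Finset Cube) (x y z : ℤ) : fb P (x, y, z) Dir.ny Dir.ny = false := rfl

theorem fb_ny_pz (P : Finset Cube) (x y z : ℤ) : fb P (x, y, z) Dir.ny Dir.pz =
    (oc P (x, y, z - 1) && !oc P (x, y - 1, z - 1)) :=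
  fb_aux P (x, y, z) _ _ _ _ rfl (by simp [ov, up, Dir.cross]) (by simp [ov, up, Dir.cross, Dir.vec] <;> ring)

theorem fb_ny_nz (P : Finset Cube) (x y z : ℤ) : fb P (x, y, z) Dir.ny Dir.nz =
    (oc P (x - 1, y, z) && !oc P (x - 1, y - 1, z)) :=
  fb_aux P (x, y, z) _ _ _ _ rfl (by simp [ov, up, Dir.cross]) (by simp [ov, up, Dir.cross, Dir.vec] <;> ring)

theorem fb_pz_px (P : Finset Cube) (x y z : ℤ) : fb P (x, y, z) Dir.pz Dir.px =
    (oc P (x - 1, y - 1, z - 1) && !oc P (x - 1, y - 1, z)) :=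
  fb_aux P (x, y, z) _ _ _ _ rfl (by simp [ov, up, Dir.cross]) (by simp [ov, up, Dir.cross, Dir.vec] <;> ring)

theorem fb_pz_nx (P : Finset Cube) (x y z : ℤ) : fb P (x, y, z) Dir.pz Dir.nx =
    (oc P (x, y, z - 1) && !oc P (x, y, z)) :=
  fb_aux P (x, y, z) _ _ _ _ rfl (by simp [ov, up, Dir.cross]) (by simp [ov, up, Dir.cross, Dir.vec] <;> ring)

theorem fb_pz_py (P : Finset Cube) (x y z : ℤ) : fb P (x, y, z) Dir.pz Dir.py =
    (oc P (x, y - 1, z - 1) && !oc P (x, y - 1, z)) :=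
  fb_aux P (x, y, z) _ _ _ _ rfl (by simp [ov, up, Dir.cross]) (by simp [ov, up, Dir.cross, Dir.vec] <;> ring)

theorem fb_pz_ny (P : Finset Cube) (x y z : ℤ) : fb P (x, y, z) Dir.pz Dir.ny =
    (oc P (x - 1, y, z - 1) && !oc P (x - 1, y, z)) :=
  fb_aux P (x, y, z) _ _ _ _ rfl (by simp [ov, up, Dir.cross]) (by simp [ov, up, Dir.cross, Dir.vec] <;> ring)

theorem fb_pz_pz (P : Finset Cube) (x y z : ℤ) : fb P (x, y, z) Dir.pz Dir.pz = false := rfl

theorem fb_pz_nz (P : Finset Cube) (x y z : ℤ) : fb P (x, y, z) Dir.pz Dir.nz = false := rfl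

theorem fb_nz_px (P : Finset Cube) (x y z : ℤ) : fb P (x, y, z) Dir.nz Dir.px =
    (oc P (x - 1, y, z) && !oc P (x - 1, y, z - 1)) :=
  fb_aux P (x, y, z) _ _ _ _ rfl (by simp [ov, up, Dir.cross]) (by simp [ov, up, Dir.cross, Dir.vec] <;> ring)

theorem fb_nz_nx (P : Finset Cube) (x y z : ℤ) : fb P (x, y, z) Dir.nz Dir.nx =
    (oc P (x, y - 1, z) && !oc P (x, y - 1, z - 1)) :=
  fb_aux P (x, y, z) _ _ _ _ rfl (by simp [ov, up, Dir.cross]) (by simp [ov, up, Dir.cross, Dir.vec] <;> ring)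

theorem fb_nz_py (P : Finset Cube) (x y z : ℤ) : fb P (x, y, z) Dir.nz Dir.py =
    (oc P (x - 1, y - 1, z) && !oc P (x - 1, y - 1, z - 1)) :=
  fb_aux P (x, y, z) _ _ _ _ rfl (by simp [ov, up, Dir.cross]) (by simp [ov, up, Dir.cross, Dir.vec] <;> ring)

theorem fb_nz_ny (P : Finset Cube) (x y z : ℤ) : fb P (x, y, z) Dir.nz Dir.ny =
    (oc P (x, y, z) && !oc P (x, y, z - 1)) :=
  fb_aux P (x, y, z) _ _ _ _ rfl (by simp [ov, up, Dir.cross]) (by simp [ov, up, Dir.cross, Dir.vec] <;> ring)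

theorem fb_nz_pz (P : Finset Cube) (x y z : ℤ) : fb P (x, y, z) Dir.nz Dir.pz = false := rfl

theorem fb_nz_nz (P : Finset Cube) (x y z : ℤ) : fb P (x, y, z) Dir.nz Dir.nz = false := rfl

theorem degS_deg8 (P : Finset Cube) (x y z : ℤ) :
    (degS P (x, y, z) : ℤ) = deg8 (pat P (x - 1) y z) (pat P x y z) := by
  rw [degS_sum]
  simp only [sum_dir, fb_px_px, fb_px_nx, fb_px_py, fb_px_ny, fb_px_pz, fb_px_nz, fb_nx_px, fb_nx_nx, fb_nx_py, fb_nx_ny, fb_nx_pz, fb_nx_nz, fb_py_px, fb_py_nx, fb_py_py, fb_py_ny, fb_py_pz, fb_py_nz, fb_ny_px, fb_ny_nx, fb_ny_py, fb_ny_ny, fb_ny_pz, fb_ny_nz, fb_pz_px, fb_pz_nx, fb_pz_py, fb_pz_ny, fb_pz_pz, fb_pz_nz, fb_nz_px, fb_nz_nx, fb_nz_py, fb_nz_ny, fb_nz_pz, fb_nz_nz, deg8, pat]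
  generalize oc P (x - 1, y - 1, z - 1) = a1
  generalize oc P (x - 1, y - 1, z) = a2
  generalize oc P (x - 1, y, z - 1) = a3
  generalize oc P (x - 1, y, z) = a4
  generalize oc P (x, y - 1, z - 1) = b1
  generalize oc P (x, y - 1, z) = b2
  generalize oc P (x, y, z - 1) = b3
  generalize oc P (x, y, z) = b4
  revert a1 a2 a3 a4 b1 b2 b3 b4
  decide

theorem mem_vertF_degS {P : Finset Cube} {v : Cube} : v ∈ vertF P ↔ degS P v ≠ 0 := by
  unfold vertF degS
  rw [Finset.mem_image, Finset.card_ne_zero]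
  constructor
  · rintro ⟨s, hs, h⟩
    exact ⟨s, Finset.mem_filter.2 ⟨hs, h⟩⟩
  · rintro ⟨s, hs⟩
    exact ⟨s, (Finset.mem_filter.1 hs).1, (Finset.mem_filter.1 hs).2⟩

/-- All eight cubes are equal. -/
def triv (l r : B4) : Bool := cst l && cst r && (l.1 == r.1)

theorem deg8_zero : ∀ l r : B4, deg8 l r = 0 ↔ triv l r = true := by decide

theorem mem_vertF_iff {P : Finset Cube} {x y z : ℤ} :
    (x, y, z) ∈ vertF P ↔ triv (pat P (x - 1) y z) (pat P x y z) = false := by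
  rw [mem_vertF_degS, ← Bool.not_eq_true, ← deg8_zero, ← degS_deg8, not_iff_not]
  exact_mod_cast Iff.rfl

/-- Local contribution at a lattice point. -/
def kv (P : Finset Cube) (v : Cube) : ℤ := kap (pat P (v.1 - 1) v.2.1 v.2.2) (pat P v.1 v.2.1 v.2.2)

theorem kv_eq (P : Finset Cube) (v : Cube) :
    kv P v = (if v ∈ vertF P then 4 else 0) - (degS P v : ℤ) := by
  obtain ⟨x, y, z⟩ := v
  rw [degS_deg8]
  unfold kv kap
  simp only
  have h := mem_vertF_iff (P := P) (x := x) (y := y) (z := z)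
  unfold triv at h
  by_cases hv : (x, y, z) ∈ vertF P
  · rw [if_pos hv, h.1 hv]
    simp
  · rw [if_neg hv, if_pos]
    rw [← Bool.not_eq_false]
    exact fun hc => hv (h.2 hc)

theorem sum_kv (P : Finset Cube) :
    ∑ v ∈ vertF P, kv P v = 4 * ((vertF P).card : ℤ) - 4 * ((faceF P).card : ℤ) := by
  have h1 : ∑ v ∈ vertF P, (degS P v : ℤ) = 4 * ((faceF P).card : ℤ) := by
    have := Finset.card_eq_sum_card_image
      (fun s : Face × Dir => cnr s.1 s.2 (Dir.cross s.1.2 s.2)) (sideF P)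
    have h2 := card_sideF P
    have h3 : ∑ v ∈ vertF P, degS P v = 4 * (faceF P).card := by
      rw [← h2, this]
      rfl
    exact_mod_cast h3
  have h4 : ∀ v ∈ vertF P, kv P v = 4 - (degS P v : ℤ) := by
    intro v hv
    rw [kv_eq, if_pos hv]
  rw [Finset.sum_congr rfl h4, Finset.sum_sub_distrib, h1, Finset.sum_const]
  simp
  ring

theorem kv_zero {P : Finset Cube} {v : Cube} (h : v ∉ vertF P) : kv P v = 0 := by
  rw [kv_eq, if_neg h]
  have : degS P v = 0 := by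
    by_contra hc
    exact h (mem_vertF_degS.2 hc)
  rw [this]
  simp

theorem pp_eq_up (t : Dir) : pp t = up t := by cases t <;> rfl

theorem onF_iff {P : Finset Cube} {d : Dir} {v : Cube} :
    OnF P d v ↔ ∃ t : Dir, fb P v d t = true := by
  have key : ∀ d t w : Dir, Dir.perp d t = true → Dir.perp d w = true → Dir.perp t w = true →
      w = Dir.cross d t ∨ t = Dir.cross d w := by decide
  have key2 : ∀ d t : Dir, Dir.perp d t = true → Dir.perp d (Dir.cross d t) = true ∧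
      Dir.perp t (Dir.cross d t) = true := by decide
  have hfb : ∀ (u : Cube) (d t : Dir), Dir.perp d t = true → IsFace P (u, d) →
      fb P (u + ov d t) d t = true := by
    intro u d t h1 h2
    unfold fb
    rw [h1, show u + ov d t - ov d t = u by abel, oc_eq.2 h2.1, oc_eq_false.2 h2.2]
    rfl
  constructor
  · rintro ⟨⟨u, d'⟩, t, w, hA, rfl, h1, h2, h3, rfl⟩
    rcases key _ _ _ h1 h2 h3 with h | h
    · refine ⟨t, ?_⟩
      have e : crn (u, d') t w = u + ov d' t := by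
        rw [h]
        unfold crn ov
        simp only [pp_eq_up]
        abel
      rw [e]
      exact hfb _ _ _ h1 hA
    · refine ⟨w, ?_⟩
      have e : crn (u, d') t w = u + ov d' w := by
        conv_lhs => rw [h]
        unfold crn ov
        simp only [pp_eq_up]
        abel
      rw [e]
      exact hfb _ _ _ h2 hA
  · rintro ⟨t, ht⟩
    unfold fb at ht
    rw [Bool.and_eq_true, Bool.and_eq_true, Bool.not_eq_true', oc_eq, oc_eq_false] at ht
    obtain ⟨h1, h2, h3⟩ := ht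
    obtain ⟨k1, k2⟩ := key2 d t h1
    refine ⟨(v - ov d t, d), t, Dir.cross d t, ⟨h2, h3⟩, rfl, h1, k1, k2, ?_⟩
    unfold crn ov
    simp only [pp_eq_up]
    abel

theorem exists_dir (f : Dir → Bool) : (∃ t, f t = true) ↔
    (f Dir.px || f Dir.nx || f Dir.py || f Dir.ny || f Dir.pz || f Dir.nz) = true := by
  simp only [Bool.or_eq_true]
  constructor
  · rintro ⟨t, ht⟩
    cases t <;> simp [ht]
  · rintro (((((h | h) | h) | h) | h) | h)
    exacts [⟨_, h⟩, ⟨_, h⟩, ⟨_, h⟩, ⟨_, h⟩, ⟨_, h⟩, ⟨_, h⟩]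

/-- Some cube of `l` is not in `r`. -/
def gt4 (l r : B4) : Bool :=
  (l.1 && !r.1) || (l.2.1 && !r.2.1) || (l.2.2.1 && !r.2.2.1) || (l.2.2.2 && !r.2.2.2)

/-- A face with normal `py` in the slab. -/
def py4 (l : B4) : Bool := (l.1 && !l.2.2.1) || (l.2.1 && !l.2.2.2)

/-- A face with normal `ny` in the slab. -/
def ny4 (l : B4) : Bool := (l.2.2.1 && !l.1) || (l.2.2.2 && !l.2.1)

/-- A face with normal `pz` in the slab. -/
def pz4 (l : B4) : Bool := (l.1 && !l.2.1) || (l.2.2.1 && !l.2.2.2)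

/-- A face with normal `nz` in the slab. -/
def nz4 (l : B4) : Bool := (l.2.1 && !l.1) || (l.2.2.2 && !l.2.2.1)

theorem onF_px {P : Finset Cube} {x y z : ℤ} :
    OnF P Dir.px (x, y, z) ↔ gt4 (pat P (x - 1) y z) (pat P x y z) = true := by
  rw [onF_iff, exists_dir]
  simp only [fb_px_px, fb_px_nx, fb_px_py, fb_px_ny, fb_px_pz, fb_px_nz, gt4, pat,
    Bool.false_or, Bool.or_eq_true]
  tauto

theorem onF_nx {P : Finset Cube} {x y z : ℤ} :
    OnF P Dir.nx (x, y, z) ↔ gt4 (pat P x y z) (pat P (x - 1) y z) = true := by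
  rw [onF_iff, exists_dir]
  simp only [fb_nx_px, fb_nx_nx, fb_nx_py, fb_nx_ny, fb_nx_pz, fb_nx_nz, gt4, pat,
    Bool.false_or, Bool.or_eq_true]
  tauto

theorem onF_py {P : Finset Cube} {x y z : ℤ} :
    OnF P Dir.py (x, y, z) ↔ (py4 (pat P (x - 1) y z) || py4 (pat P x y z)) = true := by
  rw [onF_iff, exists_dir]
  simp only [fb_py_px, fb_py_nx, fb_py_py, fb_py_ny, fb_py_pz, fb_py_nz, py4, pat,
    Bool.false_or, Bool.or_false, Bool.or_eq_true]
  tauto

theorem onF_ny {P : Finset Cube} {x y z : ℤ} :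
    OnF P Dir.ny (x, y, z) ↔ (ny4 (pat P (x - 1) y z) || ny4 (pat P x y z)) = true := by
  rw [onF_iff, exists_dir]
  simp only [fb_ny_px, fb_ny_nx, fb_ny_py, fb_ny_ny, fb_ny_pz, fb_ny_nz, ny4, pat,
    Bool.false_or, Bool.or_false, Bool.or_eq_true]
  tauto

theorem onF_pz {P : Finset Cube} {x y z : ℤ} :
    OnF P Dir.pz (x, y, z) ↔ (pz4 (pat P (x - 1) y z) || pz4 (pat P x y z)) = true := by
  rw [onF_iff, exists_dir]
  simp only [fb_pz_px, fb_pz_nx, fb_pz_py, fb_pz_ny, fb_pz_pz, fb_pz_nz, pz4, pat,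
    Bool.false_or, Bool.or_false, Bool.or_eq_true]
  tauto

theorem onF_nz {P : Finset Cube} {x y z : ℤ} :
    OnF P Dir.nz (x, y, z) ↔ (nz4 (pat P (x - 1) y z) || nz4 (pat P x y z)) = true := by
  rw [onF_iff, exists_dir]
  simp only [fb_nz_px, fb_nz_nx, fb_nz_py, fb_nz_ny, fb_nz_pz, fb_nz_nz, nz4, pat,
    Bool.false_or, Bool.or_false, Bool.or_eq_true]
  tauto

end Pool.Agent.Helper53.GP
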