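import Pool.Agent.Helper14.SURF.Defs
import Pool.Agent.Helper53.GP.Oct

/-!
# The cubes around a vertex of a column (project SURF, MP_409f7f_co)
-/

namespace Pool.Agent.Helper53.GP

open Pool.Agent.Helper17.UF Pool.Agent.Helper84.LD Pool.Agent.Helper16.LD
  Pool.Agent.Helper24.GEO Pool.Agent.Helper14.SURF Relation

/-- The direction of number `d` (up, forward, down, backward). -/
def dF (Y : Dir) (d : Fin 4) : Dir :=
  match d with
  | 0 => Dir.pz
  | 1 => Y
  | 2 => Dir.nz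
  | 3 => Y.neg

/-- The cube at the lattice point `u` in three perpendicular directions. -/
def ocu (u : Cube) (t1 t2 t3 : Dir) : Cube := u - (pp t1.neg + pp t2.neg + pp t3.neg)

theorem ocu_comm12 (u : Cube) (a b c : Dir) : ocu u a b c = ocu u b a c := by
  unfold ocu; abel

theorem ocu_comm23 (u : Cube) (a b c : Dir) : ocu u a b c = ocu u a c b := by
  unfold ocu; abel

theorem ocu_rot (u : Cube) (a b c : Dir) : ocu u a b c = ocu u b c a := by
  unfold ocu; abel

/-- Crossing a plane. -/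
theorem ocu_neg (u : Cube) (a b t : Dir) : ocu u a b t = ocu u a b t.neg + t.vec := by
  have h := pp_neg t
  unfold ocu
  rw [Dir.neg_neg, ← h]
  abel

theorem ocu_add (u : Cube) (a b t : Dir) : ocu u a b t + t.neg.vec = ocu u a b t.neg := by
  rw [ocu_neg u a b t, Dir.vec_neg]
  abel

/-- The point `u + X` seen from the other side. -/
theorem ocu_shift (u : Cube) (X a b : Dir) : ocu (u + X.vec) X.neg a b = ocu u X a b := by
  have h := pp_neg X
  unfold ocu
  rw [Dir.neg_neg, ← h]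
  abel

theorem stp_eq (d : Fin 4) (u : Cube) : stp d u = u + (dF (dk (u.2.2 + 1)) d).vec := by
  have hd : d = 0 ∨ d = 1 ∨ d = 2 ∨ d = 3 := by omega
  obtain ⟨x, y, z⟩ := u
  rcases hd with rfl | rfl | rfl | rfl
  · simp [stp, Helper24.GEO.up, dF, Dir.vec]
  · simp [stp, nx, dF]
  · simp [stp, dn, dF, Dir.vec, sub_eq_add_neg]
  · simp [stp, pv, dF, Dir.vec_neg, sub_eq_add_neg]

/-- Frames: `X` and `Y` horizontal with `X × Y` up. -/
def Frm (X Y : Dir) : Prop := Dir.cross X Y = Dir.pz ∧ X.axis ≠ 2 ∧ Y.axis ≠ 2 ∧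
  Dir.perp X Y = true

instance (X Y : Dir) : Decidable (Frm X Y) := by unfold Frm; infer_instance

theorem frm_dk (k : ℤ) : Frm (dk k) (dk (k + 1)) := by
  rcases mod4 k with h | h | h | h
  · rw [dk_0 h, dk_1 (by omega)]; decide
  · rw [dk_1 h, dk_2 (by omega)]; decide
  · rw [dk_2 h, dk_3 (by omega)]; decide
  · rw [dk_3 h, dk_0 (by omega)]; decide

theorem frm_cross : ∀ X Y : Dir, Frm X Y → ∀ d : Fin 4,
    Dir.cross X.neg (dF Y d) = dF Y (d + 1) ∧ Dir.cross X.neg (dF Y d).neg = dF Y (d + 3) ∧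
    (dF Y d).neg = dF Y (d + 2) ∧ Dir.perp X (dF Y d) = true ∧ Dir.perp X.neg (dF Y d) = true ∧
    Dir.perp (dF Y d) (dF Y (d + 1)) = true := by
  unfold Frm dF
  decide

/-- Directions perpendicular to `dF Y d`. -/
theorem frm_perp : ∀ X Y : Dir, Frm X Y → ∀ (d : Fin 4) (n : Dir), Dir.perp n (dF Y d) = true →
    n = X ∨ n = X.neg ∨ n = dF Y (d + 1) ∨ n = dF Y (d + 3) := by
  unfold Frm dF
  decide

theorem cross_cross : ∀ n e : Dir, Dir.perp n e = true → Dir.cross e (Dir.cross n e) = n := by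
  decide

/-! ### Points of a level -/

theorem ptk_z (k x y z : ℤ) : (ptk k x y z).2.2 = z := by
  unfold ptk; split_ifs <;> rfl

theorem ptk_up (k x y z : ℤ) : ptk k x y (z + 1) = ptk k x y z + Dir.pz.vec := by
  unfold ptk; split_ifs <;> simp [Dir.vec]

theorem ptk_dn (k x y z : ℤ) : ptk k x y (z - 1) = ptk k x y z + Dir.nz.vec := by
  unfold ptk; split_ifs <;> simp [Dir.vec, sub_eq_add_neg]

theorem ptk_fw (k x y z : ℤ) : ptk k x (y + 1) z = ptk k x y z + (dk (k + 1)).vec := by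
  rcases mod4 k with h | h | h | h
  · rw [dk_1 (by omega)]
    simp [ptk, h, Dir.vec]
  · rw [dk_2 (by omega)]
    simp [ptk, h, Dir.vec]
    ring
  · rw [dk_3 (by omega)]
    simp [ptk, h, Dir.vec]
    ring
  · rw [dk_0 (by omega)]
    simp [ptk, h, Dir.vec]

theorem ptk_bw (k x y z : ℤ) : ptk k x (y - 1) z = ptk k x y z + (dk (k + 1)).neg.vec := by
  have h := ptk_fw k x (y - 1) z
  rw [sub_add_cancel] at h
  rw [h, Dir.vec_neg]
  abel

theorem ptk_rt (k x y z : ℤ) : ptk k (x + 1) y z = ptk k x y z + (dk k).vec := by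
  rcases mod4 k with h | h | h | h
  · rw [dk_0 h]
    simp [ptk, h, Dir.vec]
  · rw [dk_1 h]
    simp [ptk, h, Dir.vec]
  · rw [dk_2 h]
    simp [ptk, h, Dir.vec]
    ring
  · rw [dk_3 h]
    simp [ptk, h, Dir.vec]
    ring

section strip

variable (S : Strip)

theorem vx_m (s : ℤ) {i : ℕ} (h1 : 1 ≤ i) (h2 : i < S.n) :
    S.vx s i = ptk S.k (S.c + s) (S.y0 + S.sg * ((i : ℤ) - 1)) S.k := by
  unfold Strip.vx
  rw [if_neg (by omega), if_pos h2]

theorem vx_z (s : ℤ) {i : ℕ} (h1 : 1 ≤ i) (h2 : i < S.n) : (S.vx s i).2.2 = S.k := by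
  rw [vx_m S s h1 h2, ptk_z]

theorem vx_rt {i : ℕ} : S.vx 1 i = S.vx 0 i + (dk S.k).vec := by
  unfold Strip.vx
  split_ifs
  · rw [add_zero, ptk_rt]
  · rw [add_zero, ptk_rt]
  · rw [add_zero, ptk_rt]

theorem sg_mul : S.y0 + S.sg * ((S.n : ℤ) - 2) = S.y1 := by
  unfold Strip.n Strip.sg
  rw [Nat.cast_add]
  split_ifs with h
  · have : ((S.y1 - S.y0).natAbs : ℤ) = S.y1 - S.y0 := by omega
    rw [this]
    push_cast
    ring
  · have : ((S.y1 - S.y0).natAbs : ℤ) = S.y0 - S.y1 := by omega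
    rw [this]
    push_cast
    ring

theorem vx_next (s : ℤ) {i : ℕ} (h1 : 1 ≤ i) (h2 : i < S.n) :
    S.vx s (i + 1) = S.vx s i + (dF (dk (S.k + 1)) (S.dN i)).vec := by
  rw [vx_m S s h1 h2]
  by_cases h3 : i + 1 < S.n
  · rw [vx_m S s (by omega) h3]
    unfold Strip.dN
    rw [if_neg (by omega)]
    push_cast
    unfold Strip.sg
    split_ifs with h
    · rw [show S.y0 + 1 * ((i : ℤ) + 1 - 1) = S.y0 + 1 * ((i : ℤ) - 1) + 1 by ring, ptk_fw]
      rfl
    · rw [show S.y0 + -1 * ((i : ℤ) + 1 - 1) = S.y0 + -1 * ((i : ℤ) - 1) - 1 by ring, ptk_bw]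
      rfl
  · have h4 : i + 1 = S.n := by omega
    have h5 : S.y0 + S.sg * ((i : ℤ) - 1) = S.y1 := by
      rw [← sg_mul S, ← h4]
      push_cast
      ring
    rw [h5]
    unfold Strip.vx Strip.dN
    rw [if_neg (by omega), if_neg (by omega), if_pos h4]
    unfold Strip.far
    split_ifs with h
    · exact ptk_up _ _ _ _
    · exact ptk_dn _ _ _ _

theorem vx_prev (s : ℤ) {i : ℕ} (h1 : 1 ≤ i) (h2 : i < S.n) :
    S.vx s (i - 1) = S.vx s i + (dF (dk (S.k + 1)) (S.dS i)).vec := by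
  rw [vx_m S s h1 h2]
  by_cases h3 : i = 1
  · subst h3
    unfold Strip.vx Strip.dS
    rw [if_pos (by omega), if_pos rfl]
    unfold Strip.far
    push_cast
    rw [mul_zero, add_zero]
    split_ifs with h
    · exact ptk_up _ _ _ _
    · exact ptk_dn _ _ _ _
  · rw [vx_m S s (by omega) (by omega)]
    unfold Strip.dS
    rw [if_neg h3]
    have hc : ((i - 1 : ℕ) : ℤ) = (i : ℤ) - 1 := by omega
    rw [hc]
    unfold Strip.sg
    split_ifs with h
    · rw [show S.y0 + 1 * ((i : ℤ) - 1 - 1) = S.y0 + 1 * ((i : ℤ) - 1) - 1 by ring, ptk_bw]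
      rfl
    · rw [show S.y0 + -1 * ((i : ℤ) - 1 - 1) = S.y0 + -1 * ((i : ℤ) - 1) + 1 by ring, ptk_fw]
      rfl

end strip

/-! ### The sectors around the edge between two faces of a column -/

/-- Membership of the cube in the sector `j` on the side `W`. -/
def mS (P : Finset Cube) (u : Cube) (W Y : Dir) (j : Fin 4) : Bool :=
  oc P (ocu u W (dF Y j) (dF Y (j + 1)))

/-- The finite check, as a Boolean. -/
def fchk (m : Fin 4 → Bool) (a b d : Fin 4) : Bool :=
  !(m a && !m (a + 3) && m (b + 3) && !m b && !(m 0 && m 2 && !m 1 && !m 3) &&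
    !(m 1 && m 3 && !m 2 && !m 0) && !decide (d = a) && !decide (d = b)) ||
  ((decide (cyc4 a d b) || decide (cyc4 b d a)) &&
    (!decide (cyc4 a d b) || (m d && m (d + 3))) && (!decide (cyc4 b d a) || (!m d && !m (d + 3))))

theorem fchk_true : ∀ m0 m1 m2 m3 : Bool, ∀ a b d : Fin 4,
    fchk ![m0, m1, m2, m3] a b d = true := by
  decide

theorem fin_check' (m : Fin 4 → Bool) (a b d : Fin 4) (h1 : m a = true) (h2 : m (a + 3) = false)
    (h3 : m (b + 3) = true) (h4 : m b = false)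
    (h5 : ¬ (m 0 = true ∧ m 2 = true ∧ m 1 = false ∧ m 3 = false))
    (h6 : ¬ (m 1 = true ∧ m 3 = true ∧ m 2 = false ∧ m 0 = false)) (hda : d ≠ a) (hdb : d ≠ b) :
    (cyc4 a d b ∨ cyc4 b d a) ∧ (cyc4 a d b → (m d = true ∧ m (d + 3) = true)) ∧
    (cyc4 b d a → (m d = false ∧ m (d + 3) = false)) := by
  have hm : m = ![m 0, m 1, m 2, m 3] := by
    funext i
    have hd : i = 0 ∨ i = 1 ∨ i = 2 ∨ i = 3 := by omega
    rcases hd with rfl | rfl | rfl | rfl <;> rfl
  have := fchk_true (m 0) (m 1) (m 2) (m 3) a b d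
  rw [← hm] at this
  unfold fchk at this
  rw [h1, h2, h3, h4] at this
  have h5' : (m 0 && m 2 && !m 1 && !m 3) = false := by
    rw [← Bool.not_eq_true]
    intro h
    simp only [Bool.and_eq_true, Bool.not_eq_true'] at h
    exact h5 ⟨h.1.1.1, h.1.1.2, h.1.2, h.2⟩
  have h6' : (m 1 && m 3 && !m 2 && !m 0) = false := by
    rw [← Bool.not_eq_true]
    intro h
    simp only [Bool.and_eq_true, Bool.not_eq_true'] at h
    exact h6 ⟨h.1.1.1, h.1.1.2, h.1.2, h.2⟩
  rw [h5', h6', decide_eq_false hda, decide_eq_false hdb] at this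
  simp only [Bool.not_false, Bool.and_true, Bool.not_true, Bool.false_or, Bool.and_eq_true,
    Bool.or_eq_true, decide_eq_true_eq, Bool.not_eq_true', decide_eq_false_iff_not] at this
  obtain ⟨⟨k1, k2⟩, k3⟩ := this
  exact ⟨k1, fun h => k2.resolve_left (fun hc => hc h), fun h => k3.resolve_left (fun hc => hc h)⟩

/-- No two diagonal cubes in the sectors. -/
theorem mS_man {P : Finset Cube} (hM : Man P) {u : Cube} {W X Y : Dir} (hF : Frm X Y)
    (j : Fin 4) :
    ¬ (mS P u W Y j = true ∧ mS P u W Y (j + 2) = true ∧ mS P u W Y (j + 1) = false ∧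
      mS P u W Y (j + 3) = false) := by
  rintro ⟨h1, h2, h3, h4⟩
  unfold mS at h1 h2 h3 h4
  rw [oc_eq] at h1 h2
  rw [oc_eq_false] at h3 h4
  obtain ⟨-, -, n0, -, -, p0⟩ := frm_cross X Y hF j
  obtain ⟨-, -, n1, -, -, -⟩ := frm_cross X Y hF (j + 1)
  have a1 : (j + 1 + 1 : Fin 4) = j + 2 := by omega
  have a2 : (j + 1 + 2 : Fin 4) = j + 3 := by omega
  have a3 : (j + 2 + 1 : Fin 4) = j + 3 := by omega
  have a4 : (j + 3 + 1 : Fin 4) = j := by omega
  rw [a2] at n1
  rw [a1] at h3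
  rw [a3] at h2
  rw [a4] at h4
  have e1 : ocu u W (dF Y j) (dF Y (j + 1)) + (dF Y (j + 1)).neg.vec =
      ocu u W (dF Y (j + 3)) (dF Y j) := by
    rw [ocu_add, n1, ocu_comm23]
  have e2 : ocu u W (dF Y j) (dF Y (j + 1)) + (dF Y j).neg.vec =
      ocu u W (dF Y (j + 1)) (dF Y (j + 2)) := by
    rw [ocu_comm23, ocu_add, n0]
  have e3 : ocu u W (dF Y j) (dF Y (j + 1)) + (dF Y (j + 1)).neg.vec + (dF Y j).neg.vec =
      ocu u W (dF Y (j + 2)) (dF Y (j + 3)) := by
    rw [ocu_add, n1, ocu_comm23, ocu_add, n0, ocu_comm23]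
  have hp : Dir.perp (dF Y (j + 1)).neg (dF Y j).neg = true := by
    have : ∀ a b : Dir, Dir.perp a b = true → Dir.perp b.neg a.neg = true := by decide
    exact this _ _ p0
  have := hM _ h1 _ _ hp (by rw [e1]; exact h4) (by rw [e2]; exact h3)
  rw [e3] at this
  exact this h2

/-- An edge of the surface has a face. -/
theorem edge_face {P : Finset Cube} {u : Cube} {t : Dir} (h : s(u, u + t.vec) ∈ edgeF P) :
    ∃ n τ : Dir, Dir.perp n τ = true ∧ Dir.perp n t = true ∧ Dir.perp τ t = true ∧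
      ocu u n.neg τ t ∈ P ∧ ocu u n τ t ∉ P := by
  obtain ⟨⟨A, τ⟩, hs, he⟩ := Finset.mem_image.1 h
  obtain ⟨hA, hp⟩ := mem_sideF.1 hs
  obtain ⟨v, n⟩ := A
  obtain ⟨h1, h2⟩ := hA
  simp only at h1 h2 hp he
  have key : ∀ n τ : Dir, Dir.perp n τ = true → Dir.perp n τ.neg = true ∧
      Dir.perp n (Dir.cross n τ) = true ∧ Dir.perp n (Dir.cross n τ).neg = true ∧
      Dir.perp τ.neg (Dir.cross n τ) = true ∧ Dir.perp τ.neg (Dir.cross n τ).neg = true := by
    decide
  obtain ⟨q1, q2, q3, q4, q5⟩ := key n τ hp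
  have hup : ∀ κ : Dir, Helper16.LD.up κ.neg + κ.vec = Helper16.LD.up κ := by decide
  have hinj : ∀ a b : Dir, a.vec = b.vec → a = b := by decide
  unfold eg at he
  simp only at he
  rw [Sym2.eq_iff] at he
  simp only [cnr] at he
  have fin : ∀ κ : Dir, t = κ → v + (Helper16.LD.up n + Helper16.LD.up τ + Helper16.LD.up κ.neg) = u →
      Dir.perp n κ = true → Dir.perp τ.neg κ = true → ∃ n τ : Dir, Dir.perp n τ = true ∧
      Dir.perp n t = true ∧ Dir.perp τ t = true ∧ ocu u n.neg τ t ∈ P ∧ ocu u n τ t ∉ P := by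
    intro κ hκ hu p1 p2
    subst hκ
    refine ⟨n, τ.neg, q1, p1, p2, ?_, ?_⟩
    · have : ocu u n.neg τ.neg t = v := by
        unfold ocu
        rw [← hu]
        simp only [pp_eq_up, Dir.neg_neg]
        abel
      rw [this]; exact h1
    · have : ocu u n τ.neg t = v + n.vec := by
        rw [ocu_rot, ocu_neg, ← ocu_rot]
        unfold ocu
        rw [← hu]
        simp only [pp_eq_up, Dir.neg_neg]
        abel
      rw [this]; exact h2
  rcases he with ⟨e1, e2⟩ | ⟨e1, e2⟩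
  · refine fin (Dir.cross n τ).neg (hinj _ _ ?_) ?_ q3 q5
    · have h3 := hup (Dir.cross n τ)
      rw [← e1, ← h3] at e2
      rw [Dir.vec_neg, eq_neg_iff_add_eq_zero]
      have h6 := congrArg (fun z => z - (v + (Helper16.LD.up n + Helper16.LD.up τ +
        Helper16.LD.up (Dir.cross n τ).neg))) e2
      simp only [sub_self] at h6
      rw [h6]
      abel
    · rw [Dir.neg_neg]; exact e1
  · refine fin (Dir.cross n τ) (hinj _ _ ?_) e2 q2 q4
    have h3 := hup (Dir.cross n τ)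
    rw [← e2, ← h3] at e1
    have h4 : v + (Helper16.LD.up n + Helper16.LD.up τ + (Helper16.LD.up (Dir.cross n τ).neg +
        (Dir.cross n τ).vec)) = v + (Helper16.LD.up n + Helper16.LD.up τ +
        Helper16.LD.up (Dir.cross n τ).neg) + (Dir.cross n τ).vec := by abel
    rw [h4] at e1
    exact (add_left_cancel e1).symm

end Pool.Agent.Helper53.GP
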