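import Pool.Agent.Helper53.GP.TieCol

/-!
# An explicit condition for the existence of a compatible colouring (project GP, MP_409f7f_co)

A run is a straight lattice segment at some height `k`, perpendicular to `dk k`, all of whose unit
edges are lateral sides of horizontal squares of that height; it is traversed towards the north,
that is, in the direction `-dk (k + 1)` along squares facing up and in the direction `dk (k + 1)` along
squares facing down.  If no run leads from a point on a vertical square with outward normal `dk k`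
to a point on a vertical square with outward normal `-dk k`, then there is a compatible
colouring.
-/

namespace Pool.Agent.Helper53.GP

open Pool.Agent.Helper17.UF Pool.Agent.Helper84.LD Pool.Agent.Helper16.LD Relation

/-- One step of a run: from the southern to the northern end of a lateral side of a horizontal
square. -/
def Lat (P : Finset Cube) (u v : Cube) : Prop :=
  ∃ (A : Face) (h : Hd), IsFace P A ∧ ¬ Wall A ∧ (h = Hd.E ∨ h = Hd.W) ∧
    cr true eCan A Hd.S h = u ∧ cr true eCan A Hd.N h = v

/-- No run leads from a wall facing `dk k` to a wall facing `-dk k`. -/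
def NoRun (P : Finset Cube) : Prop :=
  ∀ u v, OnF P (dk u.2.2) u → ReflTransGen (Lat P) u v → OnF P (dk v.2.2).neg v → False

open Classical in
/-- The colouring: white above walls facing `dk k`. -/
noncomputable def cRun (P : Finset Cube) (v : Cube) : Bool :=
  decide (∃ u, OnF P (dk u.2.2) u ∧ ReflTransGen (Lat P) u v)

theorem cRun_true {P : Finset Cube} {v : Cube} :
    cRun P v = true ↔ ∃ u, OnF P (dk u.2.2) u ∧ ReflTransGen (Lat P) u v := by
  classical
  unfold cRun
  exact decide_eq_true_iff

/-- A wall is perpendicular to the direction of the height of the side away from its level. -/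
theorem wall_away_dk {v : Cube} {d t : Dir} (hd : d.axis ≠ 2) (htt : t = Dir.pz ∨ t = Dir.nz)
    (hne : GP.ht v t ≠ lev (v, d)) : d = dk (GP.ht v t) ∨ d = (dk (GP.ht v t)).neg := by
  have hht : GP.ht v t = v.2.2 ∨ GP.ht v t = v.2.2 + 1 := by
    unfold GP.ht
    rcases htt with rfl | rfl
    · right; rfl
    · left; show v.2.2 + 0 = v.2.2; ring
  have hk : ∀ d e : Dir, d.axis = e.axis → d = e ∨ d = e.neg := by decide
  apply hk
  rw [dk_axis]
  rcases axis_cases d with h | h | h
  · have hl := lev_wall_x (v := v) h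
    rw [h, if_pos]
    rcases hht with h' | h' <;> rcases hl.2 with h'' | h'' <;> omega
  · have hl := lev_wall_y (v := v) h
    rw [h, if_neg]
    rcases hht with h' | h' <;> rcases hl.2 with h'' | h'' <;> omega
  · exact absurd h hd

/-- A polycube without bad runs has a compatible colouring. -/
theorem canCol_cRun {P : Finset Cube} (hP : NoRun P) : CanCol P (cRun P) := by
  constructor
  · intro A hA hw t w htt hpw hwz hne
    obtain ⟨v, d⟩ := A
    simp only at hpw hne ⊢
    have hw' : d.axis ≠ 2 := hw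
    have hpt : Dir.perp d t = true := by
      have : ∀ d t : Dir, d.axis ≠ 2 → (t = Dir.pz ∨ t = Dir.nz) → Dir.perp d t = true := by decide
      exact this d t hw' htt
    have htw : Dir.perp t w = true := by
      have : ∀ t w : Dir, w.axis ≠ 2 → (t = Dir.pz ∨ t = Dir.nz) → Dir.perp t w = true := by decide
      exact this t w hwz htt
    have hon : OnF P d (crn (v, d) t w) := ⟨(v, d), t, w, hA, rfl, hpt, hpw, htw, rfl⟩
    have hz : (crn (v, d) t w).2.2 = GP.ht v t := by
      rw [crn_z]
      unfold GP.ht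
      have k : ∀ d : Dir, d.axis ≠ 2 → (pp d).2.2 = 0 := by decide
      rw [k d hw', k w hwz]
      simp only
      ring
    have hnn : ∀ d : Dir, d.neg ≠ d := by decide
    rcases wall_away_dk hw' htt hne with h | h
    · rw [decide_eq_true h, cRun_true]
      refine ⟨crn (v, d) t w, ?_, ReflTransGen.refl⟩
      rw [hz, ← h]
      exact hon
    · have h1 : decide (d = dk (GP.ht v t)) = false := by
        rw [decide_eq_false_iff_not, h]
        exact hnn _
      rw [h1, ← Bool.not_eq_true, cRun_true]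
      rintro ⟨u, hu, huv⟩
      refine hP u _ hu huv ?_
      rw [hz, ← h]
      exact hon
  · intro A hA hw h hh hc
    rw [cRun_true] at hc ⊢
    obtain ⟨u, hu, huv⟩ := hc
    exact ⟨u, hu, huv.tail ⟨A, h, hA, hw, hh, rfl, rfl⟩⟩

/-- A step of a run stays on a line of its height. -/
theorem Lat.coord {P : Finset Cube} {u v : Cube} (h : Lat P u v) : v.2.2 = u.2.2 ∧
    (u.2.2 % 2 = 0 → v.1 = u.1) ∧ (u.2.2 % 2 = 1 → v.2.1 = u.2.1) := by
  obtain ⟨⟨w, d⟩, h, -, hw, hh, rfl, rfl⟩ := h
  have hd : d.axis = 2 := by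
    by_contra hc
    exact hw hc
  have hlev : (cr true eCan (w, d) Hd.S h).2.2 = lev (w, d) := by
    have key : ∀ (d e : Dir), d.axis = 2 → e.axis ≠ 2 → ∀ h : Hd, (h = Hd.E ∨ h = Hd.W) →
        (pp (dirH true d e Hd.S)).2.2 = 0 ∧ (pp (dirH true d e h)).2.2 = 0 := by decide
    have hax : (eCan (w, d)).axis ≠ 2 := by
      rw [eCan, neg_axis, dk_axis]
      split_ifs <;> decide
    obtain ⟨k1, k2⟩ := key d _ hd hax h hh
    unfold cr dA
    rw [crn_z, k1, k2]
    have hdd : ∀ d : Dir, d.axis = 2 → d = Dir.pz ∨ d = Dir.nz := by decide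
    rcases hdd d hd with rfl | rfl
    · rw [lev_pz]
      simp only [pp]
      ring
    · rw [lev_nz]
      simp only [pp]
      ring
  rw [hlev]
  refine ⟨?_, fun hk => ?_, fun hk => ?_⟩
  · have key : ∀ (d e : Dir), d.axis = 2 → e.axis ≠ 2 → ∀ h : Hd, (h = Hd.E ∨ h = Hd.W) →
        (pp (dirH true d e Hd.N)).2.2 = 0 ∧ (pp (dirH true d e Hd.S)).2.2 = 0 := by decide
    have hax : (eCan (w, d)).axis ≠ 2 := by
      rw [eCan, neg_axis, dk_axis]
      split_ifs <;> decide
    obtain ⟨k1, k2⟩ := key d _ hd hax h hh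
    rw [← hlev]
    unfold cr dA
    rw [crn_z, crn_z, k1, k2]
  · have key : ∀ (d e : Dir), d.axis = 2 → e.axis = 0 → ∀ h : Hd, (h = Hd.E ∨ h = Hd.W) →
        (pp (dirH true d e Hd.N)).1 = 0 ∧ (pp (dirH true d e Hd.S)).1 = 0 := by decide
    have hax : (eCan (w, d)).axis = 0 := by
      rw [eCan, neg_axis, dk_axis, if_pos hk]
    obtain ⟨k1, k2⟩ := key d _ hd hax h hh
    unfold cr dA
    rw [crn_x, crn_x, k1, k2]
  · have key : ∀ (d e : Dir), d.axis = 2 → e.axis = 1 → ∀ h : Hd, (h = Hd.E ∨ h = Hd.W) →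
        (pp (dirH true d e Hd.N)).2.1 = 0 ∧ (pp (dirH true d e Hd.S)).2.1 = 0 := by decide
    have hax : (eCan (w, d)).axis = 1 := by
      rw [eCan, neg_axis, dk_axis, if_neg (by omega)]
    obtain ⟨k1, k2⟩ := key d _ hd hax h hh
    unfold cr dA
    rw [crn_y, crn_y, k1, k2]

theorem lat_coord {P : Finset Cube} {u v : Cube} (h : ReflTransGen (Lat P) u v) :
    v.2.2 = u.2.2 ∧ (u.2.2 % 2 = 0 → v.1 = u.1) ∧ (u.2.2 % 2 = 1 → v.2.1 = u.2.1) := by
  induction h with
  | refl => exact ⟨rfl, fun _ => rfl, fun _ => rfl⟩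
  | tail _ h2 ih =>
    obtain ⟨a1, a2, a3⟩ := ih
    obtain ⟨b1, b2, b3⟩ := h2.coord
    rw [a1] at b1 b2 b3
    exact ⟨b1, fun h => (b2 h).trans (a2 h), fun h => (b3 h).trans (a3 h)⟩

theorem onF_sx {P : Finset Cube} {sx sy : ℤ → Bool} (H : GenPos P sx sy) {v : Cube} {d : Dir}
    (hd : d.axis = 0) (hv : OnF P d v) : sx v.1 = decide (d = Dir.px) := by
  obtain ⟨⟨u, d'⟩, t, w, hA, h1, h2, h3, -, rfl⟩ := hv
  simp only at h1
  subst h1
  have h := H.x _ hA hd
  simp only at h
  rw [← h]
  unfold planeX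
  have k : ∀ d t : Dir, d.axis = 0 → Dir.perp d t = true → (pp t).1 = 0 := by decide
  rw [crn_x, k _ t hd h2, k _ w hd h3, add_zero, add_zero]

theorem onF_sy {P : Finset Cube} {sx sy : ℤ → Bool} (H : GenPos P sx sy) {v : Cube} {d : Dir}
    (hd : d.axis = 1) (hv : OnF P d v) : sy v.2.1 = decide (d = Dir.py) := by
  obtain ⟨⟨u, d'⟩, t, w, hA, h1, h2, h3, -, rfl⟩ := hv
  simp only at h1
  subst h1
  have h := H.y _ hA hd
  simp only at h
  rw [← h]
  unfold planeY
  have k : ∀ d t : Dir, d.axis = 1 → Dir.perp d t = true → (pp t).2.1 = 0 := by decide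
  rw [crn_y, k _ t hd h2, k _ w hd h3, add_zero, add_zero]

/-- A polycube in general position has no bad runs. -/
theorem noRun_of_genPos {P : Finset Cube} {sx sy : ℤ → Bool} (H : GenPos P sx sy) : NoRun P := by
  intro u v hu huv hv
  obtain ⟨a1, a2, a3⟩ := lat_coord huv
  rw [a1] at hv
  rcases mod4 u.2.2 with h | h | h | h
  · rw [dk_0 h] at hu hv
    have e1 := onF_sx H rfl hu
    have e2 := onF_sx H rfl hv
    rw [a2 (by omega), e1] at e2
    exact absurd e2 (by decide)
  · rw [dk_1 h] at hu hv
    have e1 := onF_sy H rfl hu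
    have e2 := onF_sy H rfl hv
    rw [a3 (by omega), e1] at e2
    exact absurd e2 (by decide)
  · rw [dk_2 h] at hu hv
    have e1 := onF_sx H rfl hu
    have e2 := onF_sx H rfl hv
    rw [a2 (by omega), e1] at e2
    exact absurd e2 (by decide)
  · rw [dk_3 h] at hu hv
    have e1 := onF_sy H rfl hu
    have e2 := onF_sy H rfl hv
    rw [a3 (by omega), e1] at e2
    exact absurd e2 (by decide)

end Pool.Agent.Helper53.GP
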