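import Pool.Agent.Helper28.XS.Order
import Pool.Agent.Helper53.GP.BadZ

/-!
# The order conditions when the screws with vertical middle axis have one handedness
(project TIE, MP_409f7f_co)

Variant of `Helper28/XS/Order.lean`.
-/

set_option autoImplicit false

namespace Pool.Agent.Helper53.GP

open Pool.Agent.Helper17.UF Pool.Agent.Helper84.LD Pool.Agent.Helper16.LD
  Pool.Agent.Helper28.XS Relation

variable {P : Finset Cube}

/-- **One step up, both faces flat.** -/
theorem step1z (hE : EdgeOK P) (hF : FlatEven P) (hbad : ¬ BadZ P) {X : Face} (hX : IsFace P X)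
    {h k : Hd} (hhk : (h = Hd.N ∧ k = Hd.E) ∨ (h = Hd.S ∧ k = Hd.W)) (c1 : Cmp P true eCan X k)
    (c2 : Cmp P true eCan X h) (c3 : Cmp P true eCan (nb P true eCan X k) h)
    (f1 : ¬ Wall (nb P true eCan X h))
    (f2 : ¬ Wall (nb P true eCan (nb P true eCan X k) h))
    (hcol : Wall X → ¬ OnF P (dA true eCan X k) (cr true eCan X h k)) :
    Cmp P true eCan (nb P true eCan X h) k ∧
      nb P true eCan (nb P true eCan X h) k = nb P true eCan (nb P true eCan X k) h := by
  have hh : h = Hd.N ∨ h = Hd.S := by
    rcases hhk with h | h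
    · exact Or.inl h.1
    · exact Or.inr h.1
  have hk : k = Hd.E ∨ k = Hd.W := by
    rcases hhk with h | h
    · exact Or.inl h.2
    · exact Or.inr h.2
  obtain ⟨hY, haX⟩ := lat_same hF hX hh hk c1 c2 c3 f2
  have hYf : IsFace P (nb P true eCan X k) := isFace_nbr hX
  have hX1 : IsFace P (nb P true eCan X h) := isFace_nbr hX
  have hY1 : IsFace P (nb P true eCan (nb P true eCan X k) h) := isFace_nbr hYf
  have hlat := lateral_axis (A := X) hk
  have hkopp : k.opp = Hd.E ∨ k.opp = Hd.W := by
    rcases hk with rfl | rfl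
    · exact Or.inr rfl
    · exact Or.inl rfl
  have hhopp : h.opp = Hd.N ∨ h.opp = Hd.S := by
    rcases hh with rfl | rfl
    · exact Or.inr rfl
    · exact Or.inl rfl
  have heX1 : eCan (nb P true eCan X h) = eCan X := (cmp_iff hh).1 c2
  -- it suffices that the two faces are translates
  have main : ∀ v d, X = (v, d) →
      nb P true eCan (nb P true eCan X k) h =
        ((nb P true eCan X h).1 + (dA true eCan X k).vec, (nb P true eCan X h).2) := by
    rintro v d rfl
    have hcross : Dir.cross (dA true eCan (v, d) k) (dA true eCan (v, d) h) = d := by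
      have key : ∀ d e : Dir, Dir.perp d e = true →
          Dir.cross (dirH true d e Hd.E) (dirH true d e Hd.N) = d ∧
          Dir.cross (dirH true d e Hd.W) (dirH true d e Hd.S) = d := by decide
      obtain ⟨q1, q2⟩ := key d (eCan (v, d)) (perp_eCan (v, d))
      rcases hhk with ⟨rfl, rfl⟩ | ⟨rfl, rfl⟩
      · exact q1
      · exact q2
    have hpt : Dir.perp d (dA true eCan (v, d) k) = true := hlat.1
    have hps : Dir.perp d (dA true eCan (v, d) h) = true :=
      perp_dirH true _ _ (perp_eCan (v, d)) h
    have hts : Dir.perp (dA true eCan (v, d) k) (dA true eCan (v, d) h) = true := by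
      have key : ∀ (d e : Dir) (h k : Hd), Dir.perp d e = true → (h = Hd.N ∨ h = Hd.S) →
          (k = Hd.E ∨ k = Hd.W) → Dir.perp (dirH true d e k) (dirH true d e h) = true := by decide
      exact key _ _ _ _ (perp_eCan (v, d)) hh hk
    set t := dA true eCan (v, d) k with ht
    set s := dA true eCan (v, d) h with hs
    have htz : t.vec.2.2 = 0 := vec_z_of_axis _ hlat.2
    have heY : eCan (v + t.vec, d) = eCan (v, d) := eCan_translate (by rw [add_z, htz, add_zero])
    simp only at hY
    have hsY : dA true eCan (v + t.vec, d) h = s := dA_congr heY h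
    rw [hY] at f2 ⊢
    rw [hY] at hYf
    by_cases hw : Wall (v, d)
    · have hwY : Wall (v + t.vec, d) := hw
      rcases wall_vert hw hs.symm f1 with ⟨e1, m1⟩ | ⟨e1, m1, m2⟩ <;>
        rcases wall_vert hwY hsY f2 with ⟨e2, n1⟩ | ⟨e2, n1, n2⟩
      · rw [e1, e2]
        simp only [Prod.mk.injEq, and_true]
        abel
      · exfalso
        refine hcol hw ?_
        have hvs : v + s.vec ∈ P := by
          by_contra hc
          have := hE v hX.1 d s hps hX.2 hc
          rw [show v + d.vec + s.vec = v + s.vec + d.vec by abel] at this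
          exact this m1
        have kp : ∀ d t s : Dir, Dir.perp d t = true → Dir.perp d s = true →
            Dir.perp t s = true → Dir.perp t s.neg = true ∧ Dir.perp t d = true ∧
            Dir.perp s.neg d = true := by decide
        obtain ⟨r1, r2, r3⟩ := kp d t s hpt hps hts
        refine ⟨(v + s.vec, t), s.neg, d, ⟨hvs, ?_⟩, rfl, r1, r2, r3, ?_⟩
        · simp only
          rw [show v + s.vec + t.vec = v + t.vec + s.vec by abel]
          exact n2
        · have h1 := pp_neg s
          change crn (v + s.vec, t) s.neg d = crn (v, d) s t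
          unfold crn
          simp only
          rw [← h1]
          abel
      · exfalso
        have hax1 : d.axis = 1 := haX hw
        have hvY := hYf
        have hvts : v + t.vec + s.vec ∈ P := by
          by_contra hc
          have := hE (v + t.vec) hvY.1 d s hps hvY.2 hc
          rw [show v + t.vec + d.vec + s.vec = v + t.vec + s.vec + d.vec by abel] at this
          exact this n1
        have hs2 : s.axis = 2 := by
          rcases dA_wall hw hh with h1 | h1
          · rw [hs, h1]; rfl
          · rw [hs, h1]; rfl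
        have ht0 : t.axis = 0 := by
          have kq : ∀ d t : Dir, d.axis = 1 → Dir.perp d t = true → t.axis ≠ 2 → t.axis = 0 := by
            decide
          exact kq d t hax1 hpt hlat.2
        refine hbad ⟨v, t, s, ht0, hs2, hX.1, hvY.1, hvts, ?_, m2, ?_, ?_, ?_⟩
        · rw [hcross]; exact n1
        · rw [hcross]; exact hX.2
        · rw [hcross]; exact m1
        · rw [hcross]; exact hvY.2
      · rw [e1, e2]
    · have hwY : ¬ Wall (v + t.vec, d) := hw
      rw [(flat_vert hw hh hs.symm f1).1, (flat_vert hwY hh hsY f2).1]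
      simp only [Prod.mk.injEq, and_true]
      abel
  obtain ⟨v, d⟩ := X
  have hmain := main v d rfl
  rw [hmain] at hY1 ⊢
  have htz : (dA true eCan (v, d) k).vec.2.2 = 0 := vec_z_of_axis _ hlat.2
  refine lat_of_translate ?_ hY1 (eCan_translate (by rw [add_z, htz, add_zero]))
  exact dA_lat_congr heX1 hk


variable {c : Cube → Bool}

/-- The first face: the colour of its north-east corner. -/
theorem hstart1 (hcE : ∀ v : Cube, v.2.2 % 2 = 0 → c v = true → ¬ OnF P (dk v.2.2).neg v)
    (_hF : FlatEven P) {A : Face} (_hA : IsFace P A) (hAo : FOut true eCan c A) :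
    Wall A → Cmp P true eCan A Hd.N → lev A % 2 = 0 →
      ¬ OnF P (dA true eCan A Hd.E) (cr true eCan A Hd.N Hd.E) := by
  intro hw hc hl
  have hz : (cr true eCan A Hd.N Hd.E).2.2 = lev A := by
    rw [cr_z hw (Or.inl rfl)]
    exact (cmp_wall hw (Or.inl rfl)).1 hc
  have h1 := hcE (cr true eCan A Hd.N Hd.E) (by rw [hz]; exact hl) hAo.2
  rw [hz] at h1
  exact h1

theorem hstart2 (H : IsBField P true eCan c)
    (hcW : ∀ v : Cube, v.2.2 % 2 = 0 → c v = false → ¬ OnF P (dk v.2.2) v)
    (_hF : FlatEven P) {B : Face} (hB : IsFace P B) (hBo : FOut true eCan c B) :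
    Wall (nb P true eCan B Hd.E) → Cmp P true eCan (nb P true eCan B Hd.E) Hd.S →
      lev (nb P true eCan B Hd.E) % 2 = 0 →
      ¬ OnF P (dA true eCan (nb P true eCan B Hd.E) Hd.W)
        (cr true eCan (nb P true eCan B Hd.E) Hd.S Hd.W) := by
  intro hw hc hl
  have hin := H.xs_fOut_fIn hB hBo
  have hz : (cr true eCan (nb P true eCan B Hd.E) Hd.S Hd.W).2.2 = lev (nb P true eCan B Hd.E) := by
    rw [cr_z hw (Or.inr rfl)]
    exact (cmp_wall hw (Or.inr rfl)).1 hc
  have h1 := hcW (cr true eCan (nb P true eCan B Hd.E) Hd.S Hd.W) (by rw [hz]; exact hl) hin.1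
  rw [hz] at h1
  have e : dA true eCan (nb P true eCan B Hd.E) Hd.W = dk (lev (nb P true eCan B Hd.E)) := by
    change (eCan (nb P true eCan B Hd.E)).neg = _
    unfold eCan
    rw [Dir.neg_neg]
  rw [e]
  exact h1

theorem ord1z_aux (H : IsBField P true eCan c) (hE : EdgeOK P) (hF : FlatEven P)
    (hbad : ¬ BadZ P) (hbo : ∀ A, IsFace P A → BackOut true eCan c A → ¬ Wall A)
    (hbi : ∀ A, IsFace P A → BackIn true eCan c A → ¬ Wall A) {B F : Face} (hB : IsFace P B)
    (hBo : BackOut true eCan c B) {Y : Face}
    (hY : ReflTransGen (Up P true eCan (UB P true eCan c)) Y B) :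
    Y ≠ B → ∀ X, IsFace P X → Cmp P true eCan X Hd.E → nb P true eCan X Hd.E = Y →
      (Wall X → Cmp P true eCan X Hd.N → lev X % 2 = 0 →
        ¬ OnF P (dA true eCan X Hd.E) (cr true eCan X Hd.N Hd.E)) →
      ReflTransGen (Up P true eCan (UB P true eCan c)) X F →
      (hgt P true eCan X : ℤ) - hgt P true eCan F < hgt P true eCan Y - hgt P true eCan B := by
  induction hY using ReflTransGen.head_induction_on with
  | refl => exact fun h => absurd rfl h
  | @head Y Y1 h1 h2 ih =>
    intro hne X hX c1 hXY hcol hXF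
    have hlt := hgt_lt H (ReflTransGen.head h1 h2) hne
    rcases ReflTransGen.cases_head hXF with rfl | ⟨X1, g1, g2⟩
    · linarith
    · obtain ⟨hXU, rfl⟩ := g1
      obtain ⟨hYU, rfl⟩ := h1
      have sX := H.xs_hgt_step hX hXU.2.1
      have sY := H.xs_hgt_step hYU.1 hYU.2.1
      by_cases hB1 : nb P true eCan Y Hd.N = B
      · exfalso
        have hbin := H.xs_bOut_bIn hB hBo
        have key := step2 hE hF hX (Or.inl rfl : Hd.N = Hd.N ∨ Hd.N = Hd.S) (Or.inl rfl) c1
          hXU.2.1 (by rw [hXY]; exact hYU.2.1) (by rw [hXY, hB1]; exact hbo B hB hBo)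
          (by rw [hXY, hB1]; exact hbi _ (isFace_nbr hB) hbin)
        rw [hXY, hB1] at key
        exact hXU.2.2.2 (by rw [key]; exact hbin)
      · have hY1 : IsFace P (nb P true eCan Y Hd.N) := isFace_nbr hYU.1
        have hX1 : IsFace P (nb P true eCan X Hd.N) := isFace_nbr hX
        rcases ReflTransGen.cases_head h2 with h3 | ⟨Y2, h3, h4⟩
        · exact absurd h3 hB1
        · have fY : ¬ Wall (nb P true eCan Y Hd.N) :=
            not_wall_of_both h3.1.2.1 (Cmp.back hYU.1 (perp_eCan _) hYU.2.1).1
          rcases ReflTransGen.cases_head g2 with rfl | ⟨X2, g3, g4⟩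
          · have hlt1 := hgt_lt H h2 hB1
            rw [sX, sY]
            push_cast
            linarith
          · have fX : ¬ Wall (nb P true eCan X Hd.N) :=
              not_wall_of_both g3.1.2.1 (Cmp.back hX (perp_eCan _) hXU.2.1).1
            have key := step1z hE hF hbad hX (Or.inl ⟨rfl, rfl⟩) c1
              hXU.2.1 (by rw [hXY]; exact hYU.2.1) fX (by rw [hXY]; exact fY)
              (fun hw => hcol hw hXU.2.1 (by
                rw [← lev_nb_of_cmp hw (Or.inl rfl) hXU.2.1]
                exact hF _ hX1 fX))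
            rw [hXY] at key
            have := ih hB1 _ hX1 key.1 key.2 (fun hw => absurd hw fX) g2
            rw [sX, sY]
            push_cast
            linarith

/-- **The first order condition.** -/
theorem ord1z (H : IsBField P true eCan c) (hE : EdgeOK P) (hF : FlatEven P)
    (hbad : ¬ BadZ P) (hbo : ∀ A, IsFace P A → BackOut true eCan c A → ¬ Wall A)
    (hbi : ∀ A, IsFace P A → BackIn true eCan c A → ¬ Wall A)
    (hcE : ∀ v : Cube, v.2.2 % 2 = 0 → c v = true → ¬ OnF P (dk v.2.2).neg v) :
    ∀ A B F, IsFace P A → IsFace P B → FOut true eCan c A → BackOut true eCan c B →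
      EqvGen (Up P true eCan (UB P true eCan c)) (nb P true eCan A Hd.E) B →
      EqvGen (Up P true eCan (UB P true eCan c)) F A →
      (hgt P true eCan A : ℤ) - hgt P true eCan F <
        hgt P true eCan (nb P true eCan A Hd.E) - hgt P true eCan B := by
  intro A B F hA hB hAo hBo hAB hFA
  have hc1 := H.xs_fOut_cmp hA hAo
  have hin := H.xs_fOut_fIn hA hAo
  have hne : nb P true eCan A Hd.E ≠ B := by
    intro h
    rw [h] at hin
    have h1 := hin.1
    rw [hBo.1] at h1
    exact absurd h1 (by decide)
  have hpath : ReflTransGen (Up P true eCan (UB P true eCan c)) (nb P true eCan A Hd.E) B := by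
    rcases H.xs_comparable hAB with h | h
    · exact h
    · rw [IsBField.xs_top_of_bOut hBo h]
  rcases H.xs_comparable hFA with h | h
  · have e1 := H.xs_ht_up h
    have e2 := hgt_lt H hpath hne
    linarith
  · exact ord1z_aux H hE hF hbad hbo hbi hB hBo hpath hne A hA hc1 rfl (hstart1 hcE hF hA hAo) h

theorem ord2z_aux (H : IsBField P true eCan c) (hE : EdgeOK P) (hF : FlatEven P)
    (hbad : ¬ BadZ P) (hbo : ∀ A, IsFace P A → BackOut true eCan c A → ¬ Wall A)
    (hbi : ∀ A, IsFace P A → BackIn true eCan c A → ¬ Wall A) {B G : Face} (hB : IsFace P B)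
    (hBi : BackIn true eCan c B) (hBo : BackOut true eCan c (nb P true eCan B Hd.E)) {Y : Face}
    (hY : ReflTransGen (Up P true eCan (UB P true eCan c)) B Y) :
    B ≠ Y → ∀ X, IsFace P X → Cmp P true eCan X Hd.W → nb P true eCan X Hd.W = Y →
      (Wall X → Cmp P true eCan X Hd.S → lev X % 2 = 0 →
        ¬ OnF P (dA true eCan X Hd.W) (cr true eCan X Hd.S Hd.W)) →
      ReflTransGen (Up P true eCan (UB P true eCan c)) G X →
      (hgt P true eCan G : ℤ) - hgt P true eCan X < hgt P true eCan B - hgt P true eCan Y := by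
  induction hY with
  | refl => exact fun h => absurd rfl h
  | @tail Y' Y h1 h2 ih =>
    intro hne X hX c1 hXY hcol hGX
    have hlt := hgt_lt H (ReflTransGen.tail h1 h2) hne
    rcases ReflTransGen.cases_tail hGX with rfl | ⟨X', g1, g2⟩
    · linarith
    · obtain ⟨hXU, hXe⟩ := g2
      obtain ⟨hYU, hYe⟩ := h2
      have sX := H.xs_hgt_step hXU.1 hXU.2.1
      have sY := H.xs_hgt_step hYU.1 hYU.2.1
      have bX := Cmp.back hXU.1 (perp_eCan _) hXU.2.1
      have bY := Cmp.back hYU.1 (perp_eCan _) hYU.2.1
      change Cmp P true eCan (nb P true eCan X' Hd.N) Hd.S ∧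
        nb P true eCan (nb P true eCan X' Hd.N) Hd.S = X' at bX
      change Cmp P true eCan (nb P true eCan Y' Hd.N) Hd.S ∧
        nb P true eCan (nb P true eCan Y' Hd.N) Hd.S = Y' at bY
      rw [hXe] at bX sX
      rw [hYe] at bY sY
      by_cases hB1 : B = Y'
      · exfalso
        subst hB1
        have key := step2 hE hF hX (Or.inr rfl : Hd.S = Hd.N ∨ Hd.S = Hd.S) (Or.inr rfl) c1
          bX.1 (by rw [hXY]; exact bY.1) (by rw [hXY, bY.2]; exact hbi B hB hBi)
          (by rw [hXY, bY.2]; exact hbo _ (isFace_nbr hB) hBo)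
        rw [hXY, bY.2, bX.2] at key
        exact hXU.2.2.1 (by rw [key]; exact hBo)
      · rcases ReflTransGen.cases_tail h1 with h3 | ⟨Y2, h3, h4⟩
        · exact absurd h3.symm hB1
        · have fY : ¬ Wall Y' := by
            obtain ⟨h5, h6⟩ := h4
            have := (Cmp.back h5.1 (perp_eCan _) h5.2.1).1
            rw [h6] at this
            exact not_wall_of_both hYU.2.1 this
          rcases ReflTransGen.cases_tail g1 with rfl | ⟨X2, g3, g4⟩
          · have hlt1 := hgt_lt H h1 hB1
            rw [sX]
            rw [sY] at hlt1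
            push_cast at hlt1 ⊢
            linarith
          · have fX : ¬ Wall X' := by
              obtain ⟨h5, h6⟩ := g4
              have := (Cmp.back h5.1 (perp_eCan _) h5.2.1).1
              rw [h6] at this
              exact not_wall_of_both hXU.2.1 this
            have key := step1z hE hF hbad hX (Or.inr ⟨rfl, rfl⟩) c1
              bX.1 (by rw [hXY]; exact bY.1) (by rw [bX.2]; exact fX)
              (by rw [hXY, bY.2]; exact fY)
              (fun hw => hcol hw bX.1 (by
                rw [← lev_nb_of_cmp hw (Or.inr rfl) bX.1, bX.2]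
                exact hF _ hXU.1 fX))
            rw [hXY, bY.2, bX.2] at key
            have := ih hB1 _ hXU.1 key.1 key.2 (fun hw => absurd hw fX) g1
            rw [sX] at this
            rw [sY] at this
            push_cast at this
            linarith

/-- **The second order condition.** -/
theorem ord2z (H : IsBField P true eCan c) (hE : EdgeOK P) (hF : FlatEven P)
    (hbad : ¬ BadZ P) (hbo : ∀ A, IsFace P A → BackOut true eCan c A → ¬ Wall A)
    (hbi : ∀ A, IsFace P A → BackIn true eCan c A → ¬ Wall A)
    (hcW : ∀ v : Cube, v.2.2 % 2 = 0 → c v = false → ¬ OnF P (dk v.2.2) v) :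
    ∀ A B G, IsFace P A → IsFace P B → BackOut true eCan c A → FOut true eCan c B →
      EqvGen (Up P true eCan (UB P true eCan c)) (nb P true eCan A Hd.W) B →
      EqvGen (Up P true eCan (UB P true eCan c)) G (nb P true eCan B Hd.E) →
      (hgt P true eCan G : ℤ) - hgt P true eCan (nb P true eCan B Hd.E) <
        hgt P true eCan (nb P true eCan A Hd.W) - hgt P true eCan B := by
  intro A B G hA hB hAo hBo hAB hGB
  have hcA := H.xs_bOut_cmp hA hAo
  have hin := H.xs_bOut_bIn hA hAo
  have hcB := H.xs_fOut_cmp hB hBo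
  have hne : nb P true eCan A Hd.W ≠ B := by
    intro h
    rw [h] at hin
    have h1 := hin.1
    rw [hBo.1] at h1
    exact absurd h1 (by decide)
  have hpath : ReflTransGen (Up P true eCan (UB P true eCan c)) (nb P true eCan A Hd.W) B := by
    rcases H.xs_comparable hAB with h | h
    · exact h
    · rw [IsBField.xs_bot_of_bIn hin h]
  have bA := Cmp.back hA (perp_eCan _) hcA
  have bB := Cmp.back hB (perp_eCan _) hcB
  change Cmp P true eCan (nb P true eCan A Hd.W) Hd.E ∧
    nb P true eCan (nb P true eCan A Hd.W) Hd.E = A at bA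
  change Cmp P true eCan (nb P true eCan B Hd.E) Hd.W ∧
    nb P true eCan (nb P true eCan B Hd.E) Hd.W = B at bB
  rcases H.xs_comparable hGB with h | h
  · have hA' : IsFace P (nb P true eCan A Hd.W) := isFace_nbr hA
    exact ord2z_aux H hE hF hbad hbo hbi hA' hin (by rw [bA.2]; exact hAo) hpath hne _
      (isFace_nbr hB) bB.1 bB.2 (hstart2 H hcW hF hB hBo) h
  · have e1 := H.xs_ht_up h
    have e2 := hgt_lt H hpath hne
    linarith

end Pool.Agent.Helper53.GP
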