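import Pool.Agent.Helper53.GP.Field

/-!
# The sign colouring of a polycube in general position (project GP, MP_409f7f_co)

If no plane `x = const` and no plane `y = const` contains boundary squares with opposite outer
normals, then the colouring `cCan` (sign of the plane of the parity of the height) is compatible
with the rotating field.
-/

namespace Pool.Agent.Helper53.GP

open Pool.Agent.Helper17.UF Pool.Agent.Helper84.LD Relation

/-- The first coordinate of the plane of a face with normal `±x`. -/
def planeX (A : Face) : ℤ := A.1.1 + (pp A.2).1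

/-- The second coordinate of the plane of a face with normal `±y`. -/
def planeY (A : Face) : ℤ := A.1.2.1 + (pp A.2).2.1

/-- General position in two directions: all boundary squares in a plane `x = c` have the outer
normal given by the sign `sx c`, all boundary squares in a plane `y = c` the one given by
`sy c` (`true` is positive). -/
structure GenPos (P : Finset Cube) (sx sy : ℤ → Bool) : Prop where
  x : ∀ A, IsFace P A → A.2.axis = 0 → sx (planeX A) = decide (A.2 = Dir.px)
  y : ∀ A, IsFace P A → A.2.axis = 1 → sy (planeY A) = decide (A.2 = Dir.py)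

/-- The sign colouring of the lattice points. -/
def cCan (sx sy : ℤ → Bool) (p : Cube) : Bool :=
  if p.2.2 % 4 = 0 then sx p.1 else if p.2.2 % 4 = 1 then sy p.2.1
  else if p.2.2 % 4 = 2 then !sx p.1 else !sy p.2.1

theorem pp_x : ∀ t : Dir, t.axis ≠ 0 → (pp t).1 = 0 := by decide
theorem pp_y : ∀ t : Dir, t.axis ≠ 1 → (pp t).2.1 = 0 := by decide
theorem pp_z : ∀ t : Dir, t.axis ≠ 2 → (pp t).2.2 = 0 := by decide

theorem crn_x (A : Face) (t w : Dir) : (crn A t w).1 = A.1.1 + (pp A.2).1 + (pp t).1 + (pp w).1 :=
  rfl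
theorem crn_y (A : Face) (t w : Dir) :
    (crn A t w).2.1 = A.1.2.1 + (pp A.2).2.1 + (pp t).2.1 + (pp w).2.1 := rfl
theorem crn_z (A : Face) (t w : Dir) :
    (crn A t w).2.2 = A.1.2.2 + (pp A.2).2.2 + (pp t).2.2 + (pp w).2.2 := rfl

theorem ht_cases {v : Cube} {t : Dir} (h : t = Dir.pz ∨ t = Dir.nz) :
    ht v t = v.2.2 ∨ ht v t = v.2.2 + 1 := by
  rcases h with rfl | rfl
  · right; rfl
  · left; exact add_zero _

/-- The colours at the side of a wall away from its level. -/
theorem GenPos.wall {P : Finset Cube} {sx sy : ℤ → Bool} (H : GenPos P sx sy) {A : Face}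
    (hA : IsFace P A) (hw : Wall A) {t w : Dir} (ht1 : t = Dir.pz ∨ t = Dir.nz)
    (hp : Dir.perp A.2 w = true) (hw2 : w.axis ≠ 2) (hne : ht A.1 t ≠ lev A) :
    cCan sx sy (crn A t w) = decide (A.2 = dk (ht A.1 t)) := by
  obtain ⟨v, d⟩ := A
  simp only at hp hne ⊢
  have hd2 : d.axis ≠ 2 := hw
  have ht2 : t.axis = 2 := by rcases ht1 with rfl | rfl <;> rfl
  have hz : (crn (v, d) t w).2.2 = ht v t := by
    rw [crn_z]
    simp only [pp_z d hd2, pp_z w hw2, ht]
    ring
  have hc := ht_cases (v := v) ht1
  have hperp : d.axis ≠ w.axis := by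
    unfold Dir.perp at hp
    simpa using hp
  rcases axis_cases d with h | h | h
  · have hl := lev_wall_x (v := v) h
    have hw1 : w.axis = 1 := by
      rcases axis_cases w with h1 | h1 | h1
      · exact absurd (h.trans h1.symm) hperp
      · exact h1
      · exact absurd h1 hw2
    have hx : (crn (v, d) t w).1 = planeX (v, d) := by
      rw [crn_x]
      simp only [pp_x t (by rw [ht2]; decide), pp_x w (by rw [hw1]; decide), planeX]
      ring
    have hs := H.x (v, d) hA h
    simp only at hs
    have hpar : ht v t % 2 = 0 := by rcases hc with h1 | h1 <;> rcases hl.2 with h2 | h2 <;> omega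
    unfold cCan
    rw [hz, hx, hs]
    have h4 : ht v t % 4 = 0 ∨ ht v t % 4 = 2 := by omega
    rcases h4 with h4 | h4
    · rw [if_pos h4, dk_0 h4]
    · rw [if_neg (by omega), if_neg (by omega), if_pos h4, dk_2 h4]
      have key : ∀ d : Dir, d.axis = 0 → (!decide (d = Dir.px)) = decide (d = Dir.nx) := by decide
      exact key d h
  · have hl := lev_wall_y (v := v) h
    have hw1 : w.axis = 0 := by
      rcases axis_cases w with h1 | h1 | h1
      · exact h1
      · exact absurd (h.trans h1.symm) hperp
      · exact absurd h1 hw2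
    have hx : (crn (v, d) t w).2.1 = planeY (v, d) := by
      rw [crn_y]
      simp only [pp_y t (by rw [ht2]; decide), pp_y w (by rw [hw1]; decide), planeY]
      ring
    have hs := H.y (v, d) hA h
    simp only at hs
    have hpar : ht v t % 2 = 1 := by rcases hc with h1 | h1 <;> rcases hl.2 with h2 | h2 <;> omega
    unfold cCan
    rw [hz, hx, hs]
    have h4 : ht v t % 4 = 1 ∨ ht v t % 4 = 3 := by omega
    rcases h4 with h4 | h4
    · rw [if_neg (by omega), if_pos h4, dk_1 h4]
    · rw [if_neg (by omega), if_neg (by omega), if_neg (by omega), dk_3 h4]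
      have key : ∀ d : Dir, d.axis = 1 → (!decide (d = Dir.py)) = decide (d = Dir.ny) := by decide
      exact key d h
  · exact absurd h hd2

/-- On a horizontal face the colours are constant along the lateral sides. -/
theorem cCan_flat {sx sy : ℤ → Bool} {A : Face} (hA : ¬ Wall A) {h : Hd}
    (hh : h = Hd.E ∨ h = Hd.W) :
    cCan sx sy (cr true eCan A Hd.S h) = cCan sx sy (cr true eCan A Hd.N h) := by
  obtain ⟨v, d⟩ := A
  have hd : d.axis = 2 := by
    unfold Wall at hA
    simpa using hA
  have hN := axis_dA_flat (v := v) hd (Or.inl rfl : Hd.N = Hd.N ∨ Hd.N = Hd.S)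
  have hS := axis_dA_flat (v := v) hd (Or.inr rfl : Hd.S = Hd.N ∨ Hd.S = Hd.S)
  have hl := lateral_axis (A := (v, d)) hh
  have hE : (dA true eCan (v, d) h).axis = if lev (v, d) % 2 = 0 then 0 else 1 := by
    have key : ∀ (d e : Dir) (h : Hd), (h = Hd.E ∨ h = Hd.W) → (dirH true d e h).axis = e.axis := by
      decide
    unfold dA
    rw [key _ _ _ hh, eCan, neg_axis, dk_axis]
  have hz : ∀ k : Hd, k = Hd.N ∨ k = Hd.S → (cr true eCan (v, d) k h).2.2 = lev (v, d) := by
    intro k hk
    have hk2 : (dA true eCan (v, d) k).axis ≠ 2 := by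
      have := axis_dA_flat (v := v) hd hk
      unfold dA
      rw [this]
      split_ifs <;> decide
    unfold cr
    rw [crn_z, pp_z _ hk2, pp_z _ hl.2]
    cases d <;> first | (exact absurd hd (by decide)) | skip
    · rw [lev_pz]; simp [pp]
    · rw [lev_nz]; simp [pp]
  have hdx : (pp d).1 = 0 := pp_x d (by rw [hd]; decide)
  have hdy : (pp d).2.1 = 0 := pp_y d (by rw [hd]; decide)
  have hcol : ∀ p q : Cube, p.2.2 = q.2.2 → (p.2.2 % 2 = 0 → p.1 = q.1) →
      (p.2.2 % 2 = 1 → p.2.1 = q.2.1) → cCan sx sy p = cCan sx sy q := by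
    intro p q h1 h2 h3
    unfold cCan
    rw [← h1]
    rcases mod4 p.2.2 with h4 | h4 | h4 | h4
    · rw [if_pos h4, if_pos h4, h2 (by omega)]
    · rw [if_neg (by omega), if_pos h4, if_neg (by omega), if_pos h4, h3 (by omega)]
    · rw [if_neg (by omega), if_neg (by omega), if_pos h4, if_neg (by omega), if_neg (by omega),
        if_pos h4, h2 (by omega)]
    · rw [if_neg (by omega), if_neg (by omega), if_neg (by omega), if_neg (by omega),
        if_neg (by omega), if_neg (by omega), h3 (by omega)]
  refine hcol _ _ ?_ ?_ ?_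
  · rw [hz _ (Or.inr rfl), hz _ (Or.inl rfl)]
  · intro h0
    rw [hz _ (Or.inr rfl)] at h0
    unfold cr
    rw [crn_x, crn_x]
    have a1 : (pp (dA true eCan (v, d) Hd.N)).1 = 0 := by
      apply pp_x
      unfold dA
      rw [hN, if_pos h0]; decide
    have a2 : (pp (dA true eCan (v, d) Hd.S)).1 = 0 := by
      apply pp_x
      unfold dA
      rw [hS, if_pos h0]; decide
    rw [a1, a2]
  · intro h0
    rw [hz _ (Or.inr rfl)] at h0
    unfold cr
    rw [crn_y, crn_y]
    have a1 : (pp (dA true eCan (v, d) Hd.N)).2.1 = 0 := by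
      apply pp_y
      unfold dA
      rw [hN, if_neg (by omega)]; decide
    have a2 : (pp (dA true eCan (v, d) Hd.S)).2.1 = 0 := by
      apply pp_y
      unfold dA
      rw [hS, if_neg (by omega)]; decide
    rw [a1, a2]

theorem GenPos.canCol {P : Finset Cube} {sx sy : ℤ → Bool} (H : GenPos P sx sy) :
    CanCol P (cCan sx sy) where
  wall := fun _ hA hw _ _ h1 h2 h3 h4 => H.wall hA hw h1 h2 h3 h4
  flat := fun _ _ hw _ hh h1 => (cCan_flat hw hh) ▸ h1

/-- **The canonical field of a polycube in general position.** -/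
theorem GenPos.isField {P : Finset Cube} {sx sy : ℤ → Bool} (H : GenPos P sx sy) :
    IsField P true eCan (cCan sx sy) :=
  H.canCol.isField

end Pool.Agent.Helper53.GP
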