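import Pool.Agent.Helper24.GEO.Main
import Pool.Agent.Helper28.XS.Axes
import Pool.Agent.Helper84.LD.Stretch2
import Pool.Agent.Helper53.GP.TieMain

/-!
# Stretched polycubes have edge unfoldings (project TIE, MP_409f7f_co)
-/

set_option autoImplicit false

namespace Pool.Agent.Helper53.GP

open Pool.Agent.Helper17.UF Pool.Agent.Helper84.LD Pool.Agent.Helper16.LD
  Pool.Agent.Helper28.XS Relation

/-- The connectivity theorem holds. -/
theorem connThm : ConnThm := fun _ _ hE hs he hc =>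
  Pool.Agent.Helper24.GEO.CanCol_conn hE hs he hc

/-- The block structure of the stretch. -/
noncomputable def stp421 : Fin 3 → Str.Stp := fun a =>
  if a = 0 then Str.Stp.div 4 (by norm_num) else if a = 1 then Str.Stp.div 1 (by norm_num)
  else Str.Stp.div 2 (by norm_num)

theorem fl_421 (v : Cube) : Str.fl stp421 v = (v.1 / 4, v.2.1, v.2.2 / 2) := by
  show (v.1 / 4, v.2.1 / 1, v.2.2 / 2) = _
  rw [Int.ediv_one]

theorem eq_str {Q P : Finset Cube}
    (hP : ∀ x y z : ℤ, (x, y, z) ∈ P ↔ (x / 4, y, z / 2) ∈ Q) : P = Str.str stp421 Q := by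
  ext v
  rw [Str.mem_str, fl_421]
  exact hP v.1 v.2.1 v.2.2

theorem blk_of {Q P : Finset Cube}
    (hP : ∀ x y z : ℤ, (x, y, z) ∈ P ↔ (x / 4, y, z / 2) ∈ Q) : Blk P := by
  intro v
  obtain ⟨x, y, z⟩ := v
  rw [hP, hP, show 4 * (x / 4) / 4 = x / 4 by omega]

theorem flatEven_of {Q P : Finset Cube}
    (hP : ∀ x y z : ℤ, (x, y, z) ∈ P ↔ (x / 4, y, z / 2) ∈ Q) : FlatEven P := by
  rintro ⟨⟨x, y, z⟩, d⟩ ⟨h1, h2⟩ hw
  simp only at h1 h2
  have hd : d = Dir.pz ∨ d = Dir.nz := by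
    have key : ∀ d : Dir, ¬ d.axis ≠ 2 → d = Dir.pz ∨ d = Dir.nz := by decide
    exact key d hw
  rw [hP] at h1
  rcases hd with rfl | rfl
  · rw [lev_pz]
    by_contra hc
    apply h2
    show (x + 0, y + 0, z + 1) ∈ P
    rw [add_zero, add_zero, hP]
    rw [show (z + 1) / 2 = z / 2 by simp only at hc; omega]
    exact h1
  · rw [lev_nz]
    by_contra hc
    apply h2
    show (x + 0, y + 0, z + -1) ∈ P
    rw [add_zero, add_zero, hP]
    rw [show (z + -1) / 2 = z / 2 by simp only at hc; omega]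
    exact h1

/-- The main case: no screw of the handedness `true`. -/
theorem stretch_main {Q P : Finset Cube}
    (hP : ∀ x y z : ℤ, (x, y, z) ∈ P ↔ (x / 4, y, z / 2) ∈ Q) (h1 : EdgeOK Q) (h2 : SurfConn Q)
    (h3 : (vertF Q).card + (faceF Q).card = (edgeF Q).card + 2) (h4 : NoOpp Q Dir.px)
    (h5 : ¬ BadZ Q) : HasEdgeUnfolding P := by
  have e := eq_str hP
  have k1 : EdgeOK P := by rw [e]; exact Str.man_str h1
  have k2 : SurfConn P := by rw [e]; exact Str.surfConn_str h2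
  have k3 : (vertF P).card + (faceF P).card = (edgeF P).card + 2 := by
    rw [e]; exact Str.euler2_str h1 h3
  have k4 : NoOpp P Dir.px := by rw [e]; exact Str.noOpp_str h4
  have k5 : ¬ BadZ P := by rw [e]; exact fun h => h5 (Str.badZ_str h)
  exact tie_unfolding connThm k1 k2 k3 (blk_of hP) (flatEven_of hP) k4 k5

theorem badZ_scr {P : Finset Cube} (h : BadZ P) : Scr P 2 true := by
  obtain ⟨c, s1, s2, h1, h2, h3⟩ := h
  have key : ∀ a b : Dir, a.axis = 0 → b.axis = 2 → Dir.perp a b = true := by decide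
  exact ⟨c, s1, s2, _, h2, key _ _ h1 h2, by simp only [if_true], h3⟩

/-- The stretch of a central reflection. -/
theorem im_421 {Q P : Finset Cube}
    (hP : ∀ x y z : ℤ, (x, y, z) ∈ P ↔ (x / 4, y, z / 2) ∈ Q) :
    ∀ x y z : ℤ, (x, y, z) ∈ cInv.im P ↔ (x / 4, y, z / 2) ∈ cInv.im Q := by
  intro x y z
  have e1 : ∀ (R : Finset Cube) (a b c : ℤ), (a, b, c) ∈ cInv.im R ↔ (-1 - a, -1 - b, -1 - c) ∈ R := by
    intro R a b c
    rw [← cInv.mem_im (P := R) (v := (-1 - a, -1 - b, -1 - c))]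
    have : cInv.g (-1 - a, -1 - b, -1 - c) = (a, b, c) := by
      show (-1 - (-1 - a), -1 - (-1 - b), -1 - (-1 - c)) = (a, b, c)
      simp
    rw [this]
  rw [e1, e1, hP, show (-1 - x) / 4 = -1 - x / 4 by omega, show (-1 - z) / 2 = -1 - z / 2 by omega]

/-- **Stretched polycubes.** -/
theorem stretch_unfolding {Q P : Finset Cube}
    (hP : ∀ x y z : ℤ, (x, y, z) ∈ P ↔ (x / 4, y, z / 2) ∈ Q) (h1 : EdgeOK Q) (h2 : SurfConn Q)
    (h3 : (vertF Q).card + (faceF Q).card = (edgeF Q).card + 2) (h4 : NoOpp Q Dir.px)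
    (h5 : ¬ Scr Q 2 true ∨ ¬ Scr Q 2 false) : HasEdgeUnfolding P := by
  rcases h5 with h5 | h5
  · exact stretch_main hP h1 h2 h3 h4 (fun h => h5 (badZ_scr h))
  · apply cInv.unfolding_im
    refine stretch_main (im_421 hP) (cInv.man_im h1) (cInv.surfConn_im h2) (cInv.euler_im h1 h3)
      ?_ ?_
    · have h6 : NoOpp Q Dir.nx := fun v a b => h4 v b a
      have := cInv.noOpp_im h6
      exact this
    · intro hc
      have h7 := cInv.scr_im (badZ_scr hc)
      rw [cInv.im_im] at h7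
      exact h5 h7

end Pool.Agent.Helper53.GP
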