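import Pool.Agent.Helper17.UF.Statement

/-!
# Edge unfoldings and the symmetries of the cubic lattice (project GP, MP_409f7f_co)
-/

namespace Pool.Agent.Helper53.GP

open Pool.Agent.Helper17.UF Relation

/-- A symmetry of the cubic lattice: its action on cubes (lower corners), on directions and on
Euclidean space. -/
structure LSym where
  g : Cube ≃ Cube
  d : Dir ≃ Dir
  G : E3 ≃ᵢ E3
  hg : ∀ v t, g (v + t.vec) = g v + (d t).vec
  hperp : ∀ a b, Dir.perp (d a) (d b) = Dir.perp a b
  hG : ∀ v, G '' unitCube v = unitCube (g v)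

namespace LSym

variable (s : LSym)

/-- The action on faces. -/
def f (A : Face) : Face := (s.g A.1, s.d A.2)

/-- The inverse action on faces. -/
def fi (A : Face) : Face := (s.g.symm A.1, s.d.symm A.2)

theorem f_fi (A : Face) : s.f (s.fi A) = A := by simp [f, fi]
theorem fi_f (A : Face) : s.fi (s.f A) = A := by simp [f, fi]

theorem square_f (A : Face) : s.G '' square A = square (s.f A) := by
  unfold square f
  rw [Set.image_inter s.G.injective, s.hG, s.hG, s.hg]

theorem side_f (A : Face) (t : Dir) : s.G '' sideOf A t = sideOf (s.f A) (s.d t) := by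
  unfold sideOf
  rw [Set.image_inter s.G.injective, s.square_f, s.square_f]
  rfl

theorem isFace_f (P : Finset Cube) (A : Face) :
    IsFace (P.map s.g.toEmbedding) (s.f A) ↔ IsFace P A := by
  unfold IsFace f
  simp only [Finset.mem_map_equiv, Equiv.symm_apply_apply]
  rw [← s.hg, Equiv.symm_apply_apply]

theorem isFace_fi {P : Finset Cube} {A : Face} (h : IsFace (P.map s.g.toEmbedding) A) :
    IsFace P (s.fi A) := by
  rw [← s.isFace_f, s.f_fi]; exact h

theorem isEdge_f {P : Finset Cube} {e : Set E3} (h : IsEdge P e) :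
    IsEdge (P.map s.g.toEmbedding) (s.G '' e) := by
  obtain ⟨A, t, hA, hp, rfl⟩ := h
  exact ⟨s.f A, s.d t, (s.isFace_f P A).2 hA, by rw [← hp]; exact s.hperp A.2 t, s.side_f A t⟩

theorem isEdge_fi {P : Finset Cube} {e : Set E3} (h : IsEdge (P.map s.g.toEmbedding) e) :
    IsEdge P (s.G.symm '' e) := by
  obtain ⟨A, t, hA, hp, rfl⟩ := h
  refine ⟨s.fi A, s.d.symm t, s.isFace_fi hA, ?_, ?_⟩
  · rw [← s.hperp]
    simpa [fi] using hp
  · have h1 : s.G '' sideOf (s.fi A) (s.d.symm t) = sideOf A t := by
      rw [s.side_f, s.f_fi, Equiv.apply_symm_apply]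
    rw [← h1, ← Set.image_comp]
    have : (s.G.symm : E3 → E3) ∘ (s.G : E3 → E3) = id := by
      funext x; simp
    rw [this, Set.image_id]

theorem image_symm_subset {e : Set E3} {A : Face} (h : e ⊆ square A) :
    s.G.symm '' e ⊆ square (s.fi A) := by
  have h1 : s.G '' square (s.fi A) = square A := by rw [s.square_f, s.f_fi]
  rintro _ ⟨x, hx, rfl⟩
  have h2 := h hx
  rw [← h1] at h2
  obtain ⟨y, hy, rfl⟩ := h2
  simpa using hy

theorem image_symm_square (A : Face) : s.G.symm '' square A = square (s.fi A) := by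
  have h1 : s.G '' square (s.fi A) = square A := by rw [s.square_f, s.f_fi]
  rw [← h1, ← Set.image_comp]
  have : (s.G.symm : E3 → E3) ∘ (s.G : E3 → E3) = id := by
    funext x; simp
  rw [this, Set.image_id]

/-- **Edge unfoldings are transported by lattice symmetries.** -/
theorem hasEdgeUnfolding {P : Finset Cube} (h : HasEdgeUnfolding P) :
    HasEdgeUnfolding (P.map s.g.toEmbedding) := by
  obtain ⟨T, φ, h1, h2, h3, h4, h5⟩ := h
  refine ⟨(fun e => s.G '' e) '' T, fun A x => φ (s.fi A) (s.G.symm x), ?_, ?_, ?_, ?_, ?_⟩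
  · rintro _ ⟨e, he, rfl⟩
    exact s.isEdge_f (h1 e he)
  · intro A hA x hx y hy
    have hx' : s.G.symm x ∈ square (s.fi A) := by
      rw [← s.image_symm_square]; exact ⟨x, hx, rfl⟩
    have hy' : s.G.symm y ∈ square (s.fi A) := by
      rw [← s.image_symm_square]; exact ⟨y, hy, rfl⟩
    rw [h2 (s.fi A) (s.isFace_fi hA) _ hx' _ hy']
    exact s.G.symm.isometry.dist_eq x y
  · intro A B hA hB e he hne heA heB x hx
    refine h3 _ _ (s.isFace_fi hA) (s.isFace_fi hB) (s.G.symm '' e) (s.isEdge_fi he) ?_
      (s.image_symm_subset heA) (s.image_symm_subset heB) _ ⟨x, hx, rfl⟩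
    intro hc
    apply hne
    refine ⟨_, hc, ?_⟩
    simp only
    rw [← Set.image_comp]
    have : (s.G : E3 → E3) ∘ (s.G.symm : E3 → E3) = id := by
      funext x; simp
    rw [this, Set.image_id]
  · intro A B hA hB hne
    have hne' : s.fi A ≠ s.fi B := by
      intro hc
      apply hne
      rw [← s.f_fi A, hc, s.f_fi]
    have := h4 _ _ (s.isFace_fi hA) (s.isFace_fi hB) hne'
    rw [← s.image_symm_square, ← s.image_symm_square, ← Set.image_comp, ← Set.image_comp] at this
    exact this
  · intro A B hA hB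
    have := h5 _ _ (s.isFace_fi hA) (s.isFace_fi hB)
    have key : ReflTransGen (fun C D => IsFace (P.map s.g.toEmbedding) C ∧
        IsFace (P.map s.g.toEmbedding) D ∧ ∃ e, IsEdge (P.map s.g.toEmbedding) e ∧
          e ∉ (fun e => s.G '' e) '' T ∧ e ⊆ square C ∧ e ⊆ square D)
        (s.f (s.fi A)) (s.f (s.fi B)) := by
      refine this.lift s.f ?_
      rintro C D ⟨hC, hD, e, he, hne, heC, heD⟩
      refine ⟨(s.isFace_f P C).2 hC, (s.isFace_f P D).2 hD, s.G '' e, s.isEdge_f he, ?_, ?_, ?_⟩
      · rintro ⟨e', he', hee⟩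
        have : e' = e := Set.image_injective.2 s.G.injective hee
        exact hne (this ▸ he')
      · rw [← s.square_f]; exact Set.image_mono heC
      · rw [← s.square_f]; exact Set.image_mono heD
    rwa [s.f_fi, s.f_fi] at key

end LSym

/-! ### The exchange of two coordinates -/

/-- Permutation of the coordinates of space. -/
noncomputable def permIso (e : Equiv.Perm (Fin 3)) : E3 ≃ᵢ E3 :=
  (LinearIsometryEquiv.piLpCongrLeft 2 ℝ ℝ e).toIsometryEquiv

theorem permIso_apply (e : Equiv.Perm (Fin 3)) (x : E3) (i : Fin 3) :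
    permIso e x i = x (e.symm i) := by
  simp [permIso, LinearIsometryEquiv.piLpCongrLeft_apply, Equiv.piCongrLeft'_apply]

/-- The exchange of the first and the third coordinate. -/
noncomputable def symXZ : LSym where
  g := ⟨fun v => (v.2.2, v.2.1, v.1), fun v => (v.2.2, v.2.1, v.1), fun _ => rfl, fun _ => rfl⟩
  d := ⟨fun t => match t with
      | Dir.px => Dir.pz | Dir.nx => Dir.nz | Dir.py => Dir.py | Dir.ny => Dir.ny
      | Dir.pz => Dir.px | Dir.nz => Dir.nx,
    fun t => match t with
      | Dir.px => Dir.pz | Dir.nx => Dir.nz | Dir.py => Dir.py | Dir.ny => Dir.ny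
      | Dir.pz => Dir.px | Dir.nz => Dir.nx,
    fun t => by cases t <;> rfl, fun t => by cases t <;> rfl⟩
  G := permIso (Equiv.swap 0 2)
  hg := by
    intro v t
    cases t <;> rfl
  hperp := by
    intro a b
    cases a <;> cases b <;> rfl
  hG := by
    intro v
    ext x
    have h0 : ∀ y : E3, permIso (Equiv.swap 0 2) y 0 = y 2 := by
      intro y; rw [permIso_apply]; rfl
    have h1 : ∀ y : E3, permIso (Equiv.swap 0 2) y 1 = y 1 := by
      intro y; rw [permIso_apply]; rfl
    have h2 : ∀ y : E3, permIso (Equiv.swap 0 2) y 2 = y 0 := by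
      intro y; rw [permIso_apply]; rfl
    constructor
    · rintro ⟨y, hy, rfl⟩
      simp only [unitCube, Set.mem_setOf_eq, Equiv.coe_fn_mk] at hy ⊢
      rw [h0, h1, h2]
      exact ⟨hy.2.2, hy.2.1, hy.1⟩
    · intro hx
      refine ⟨permIso (Equiv.swap 0 2) x, ?_, ?_⟩
      · simp only [unitCube, Set.mem_setOf_eq, Equiv.coe_fn_mk] at hx ⊢
        rw [h0, h1, h2]
        exact ⟨hx.2.2, hx.2.1, hx.1⟩
      · ext i
        fin_cases i
        · simp only [Fin.zero_eta]
          rw [h0, h2]
        · simp only [Fin.mk_one]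
          rw [h1, h1]
        · simp only [Fin.reduceFinMk]
          rw [h2, h0]

/-- The exchange of the second and the third coordinate. -/
noncomputable def symYZ : LSym where
  g := ⟨fun v => (v.1, v.2.2, v.2.1), fun v => (v.1, v.2.2, v.2.1), fun _ => rfl, fun _ => rfl⟩
  d := ⟨fun t => match t with
      | Dir.px => Dir.px | Dir.nx => Dir.nx | Dir.py => Dir.pz | Dir.ny => Dir.nz
      | Dir.pz => Dir.py | Dir.nz => Dir.ny,
    fun t => match t with
      | Dir.px => Dir.px | Dir.nx => Dir.nx | Dir.py => Dir.pz | Dir.ny => Dir.nz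
      | Dir.pz => Dir.py | Dir.nz => Dir.ny,
    fun t => by cases t <;> rfl, fun t => by cases t <;> rfl⟩
  G := permIso (Equiv.swap 1 2)
  hg := by
    intro v t
    cases t <;> rfl
  hperp := by
    intro a b
    cases a <;> cases b <;> rfl
  hG := by
    intro v
    ext x
    have h0 : ∀ y : E3, permIso (Equiv.swap 1 2) y 0 = y 0 := by
      intro y; rw [permIso_apply]; rfl
    have h1 : ∀ y : E3, permIso (Equiv.swap 1 2) y 1 = y 2 := by
      intro y; rw [permIso_apply]; rfl
    have h2 : ∀ y : E3, permIso (Equiv.swap 1 2) y 2 = y 1 := by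
      intro y; rw [permIso_apply]; rfl
    constructor
    · rintro ⟨y, hy, rfl⟩
      simp only [unitCube, Set.mem_setOf_eq, Equiv.coe_fn_mk] at hy ⊢
      rw [h0, h1, h2]
      exact ⟨hy.1, hy.2.2, hy.2.1⟩
    · intro hx
      refine ⟨permIso (Equiv.swap 1 2) x, ?_, ?_⟩
      · simp only [unitCube, Set.mem_setOf_eq, Equiv.coe_fn_mk] at hx ⊢
        rw [h0, h1, h2]
        exact ⟨hx.1, hx.2.2, hx.2.1⟩
      · ext i
        fin_cases i
        · simp only [Fin.zero_eta]
          rw [h0, h0]
        · simp only [Fin.mk_one]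
          rw [h1, h2]
        · simp only [Fin.reduceFinMk]
          rw [h2, h1]

theorem HasEdgeUnfolding.of_map (s : LSym) (hs : ∀ v, s.g (s.g v) = v) {P : Finset Cube}
    (h : HasEdgeUnfolding (P.map s.g.toEmbedding)) : HasEdgeUnfolding P := by
  have h1 := s.hasEdgeUnfolding h
  have h2 : (P.map s.g.toEmbedding).map s.g.toEmbedding = P := by
    rw [Finset.map_map]
    have : s.g.toEmbedding.trans s.g.toEmbedding = Function.Embedding.refl _ := by
      ext1 v
      exact hs v
    rw [this, Finset.map_refl]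
  rwa [h2] at h1

end Pool.Agent.Helper53.GP
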