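import Pool.Agent.Helper53.GP.Oct

/-!
# The thick model: topology (project TIE, MP_409f7f_co)

`thick P` is the union of `P` and its translate by one in the direction `x`.
-/

namespace Pool.Agent.Helper53.GP

open Pool.Agent.Helper17.UF Pool.Agent.Helper84.LD Pool.Agent.Helper16.LD Relation

/-- The union of `P` and its translate by `(1, 0, 0)`. -/
def thick (P : Finset Cube) : Finset Cube := P ∪ P.image (fun v => (v.1 + 1, v.2))

theorem mem_thick {P : Finset Cube} {v : Cube} : v ∈ thick P ↔ v ∈ P ∨ (v.1 - 1, v.2) ∈ P := by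
  unfold thick
  rw [Finset.mem_union, Finset.mem_image]
  constructor
  · rintro (h | ⟨u, hu, rfl⟩)
    · exact Or.inl h
    · right
      rw [show (u.1 + 1, u.2).1 - 1 = u.1 by simp]
      exact hu
  · rintro (h | h)
    · exact Or.inl h
    · exact Or.inr ⟨_, h, by simp⟩

/-- Union of two patterns. -/
def or4 (l r : B4) : B4 := (l.1 || r.1, l.2.1 || r.2.1, l.2.2.1 || r.2.2.1, l.2.2.2 || r.2.2.2)

theorem oc_thick (P : Finset Cube) (x y z : ℤ) :
    oc (thick P) (x, y, z) = (oc P (x - 1, y, z) || oc P (x, y, z)) := by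
  rw [Bool.eq_iff_iff, Bool.or_eq_true, oc_eq, oc_eq, oc_eq, mem_thick]
  exact or_comm

theorem pat_thick (P : Finset Cube) (x y z : ℤ) :
    pat (thick P) x y z = or4 (pat P (x - 1) y z) (pat P x y z) := by
  unfold pat or4
  simp only [oc_thick]

theorem Blk.oc {P : Finset Cube} (hB : Blk P) {x x' y z : ℤ} (h : x / 4 = x' / 4) :
    oc P (x, y, z) = oc P (x', y, z) := by
  rw [Bool.eq_iff_iff, oc_eq, oc_eq, hB (x, y, z), hB (x', y, z)]
  simp only [h]

theorem Blk.pat {P : Finset Cube} (hB : Blk P) {x x' y z : ℤ} (h : x / 4 = x' / 4) :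
    pat P x y z = pat P x' y z := by
  unfold GP.pat
  simp only [hB.oc h]

/-- `l ≤ r`. -/
def le4 (l r : B4) : Bool := !gt4 l r

theorem NoOpp.le {P : Finset Cube} (hN : NoOpp P Dir.px) (x y z : ℤ) :
    le4 (pat P (x - 1) y z) (pat P x y z) = true ∨ le4 (pat P x y z) (pat P (x - 1) y z) = true := by
  by_contra hc
  rw [not_or] at hc
  unfold le4 at hc
  simp only [Bool.not_eq_true, Bool.not_eq_false'] at hc
  exact hN (x, y, z) (onF_px.2 hc.1) (onF_nx.2 hc.2)

theorem or4_of_le : ∀ l r : B4, le4 l r = true → or4 l r = r := by decide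

theorem or4_of_le' : ∀ l r : B4, le4 r l = true → or4 l r = l := by decide

theorem or4_self : ∀ l : B4, or4 l l = l := by decide

theorem Man.diag {P : Finset Cube} (hM : Man P) (x y z : ℤ) : diag (pat P x y z) = false := by
  rw [← Bool.not_eq_true]
  intro h
  unfold GP.diag GP.pat at h
  simp only [Bool.or_eq_true, Bool.and_eq_true, Bool.not_eq_true', oc_eq, oc_eq_false] at h
  rcases h with ⟨⟨⟨h1, h2⟩, h3⟩, h4⟩ | ⟨⟨⟨h1, h2⟩, h3⟩, h4⟩
  · have := hM _ h1 Dir.py Dir.pz (by decide)
    simp only [Dir.vec, Prod.mk_add_mk, add_zero, sub_add_cancel] at this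
    exact this h4 h3 h2
  · have := hM _ h3 Dir.py Dir.nz (by decide)
    simp only [Dir.vec, Prod.mk_add_mk, add_zero, sub_add_cancel] at this
    exact this h2 h1 h4

/-- The type of a lattice point of a plane `x = 4 a`: the thick polycube has moved the wall. -/
def mv (P : Finset Cube) (x y z : ℤ) : Bool := gt4 (pat P (x - 1) y z) (pat P x y z)

/-- The exchange of the points of the planes `4 a` and `4 a + 1` on moved walls. -/
def tw (P : Finset Cube) (v : Cube) : Cube :=
  if v.1 % 4 = 0 ∧ mv P v.1 v.2.1 v.2.2 = true then (v.1 + 1, v.2)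
  else if v.1 % 4 = 1 ∧ mv P (v.1 - 1) v.2.1 v.2.2 = true then (v.1 - 1, v.2) else v

theorem tw_0 {P : Finset Cube} {x : ℤ} {w : ℤ × ℤ} (hx : x % 4 = 0) (h : mv P x w.1 w.2 = true) :
    tw P (x, w) = (x + 1, w) := by
  unfold tw
  rw [if_pos ⟨hx, h⟩]

theorem tw_1 {P : Finset Cube} {x : ℤ} {w : ℤ × ℤ} (hx : x % 4 = 1)
    (h : mv P (x - 1) w.1 w.2 = true) : tw P (x, w) = (x - 1, w) := by
  unfold tw
  rw [if_neg (fun hc => by have := hc.1; simp only at this; omega), if_pos ⟨hx, h⟩]

theorem tw_id {P : Finset Cube} {x : ℤ} {w : ℤ × ℤ} (h0 : ¬ (x % 4 = 0 ∧ mv P x w.1 w.2 = true))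
    (h1 : ¬ (x % 4 = 1 ∧ mv P (x - 1) w.1 w.2 = true)) : tw P (x, w) = (x, w) := by
  unfold tw
  rw [if_neg h0, if_neg h1]

theorem tw_tw (P : Finset Cube) (v : Cube) : tw P (tw P v) = v := by
  obtain ⟨x, w⟩ := v
  by_cases h0 : x % 4 = 0 ∧ mv P x w.1 w.2 = true
  · rw [tw_0 h0.1 h0.2, tw_1 (by omega) (by rw [add_sub_cancel_right]; exact h0.2),
      add_sub_cancel_right]
  · by_cases h1 : x % 4 = 1 ∧ mv P (x - 1) w.1 w.2 = true
    · rw [tw_1 h1.1 h1.2, tw_0 (by omega) h1.2, sub_add_cancel]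
    · rw [tw_id h0 h1, tw_id h0 h1]

theorem kv_mk (P : Finset Cube) (x y z : ℤ) :
    kv P (x, y, z) = kap (pat P (x - 1) y z) (pat P x y z) := rfl

theorem kv_thick {P : Finset Cube} (hM : Man P) (hB : Blk P) (hN : NoOpp P Dir.px) (v : Cube) :
    kv (thick P) (tw P v) = kv P v := by
  obtain ⟨x, y, z⟩ := v
  by_cases h0 : x % 4 = 0 ∧ mv P x y z = true
  · rw [tw_0 (w := (y, z)) h0.1 h0.2, kv_mk, kv_mk, pat_thick, pat_thick,
      show x + 1 - 1 = x by ring, hB.pat (show (x + 1) / 4 = x / 4 by omega), or4_self]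
    rcases hN.le x y z with h | h
    · exfalso
      have := h0.2
      unfold mv at this
      unfold le4 at h
      rw [this] at h
      exact absurd h (by decide)
    · rw [or4_of_le' _ _ h]
  · by_cases h1 : x % 4 = 1 ∧ mv P (x - 1) y z = true
    · rw [tw_1 (w := (y, z)) h1.1 h1.2, kv_mk, kv_mk, pat_thick, pat_thick,
        hB.pat (show x / 4 = (x - 1) / 4 by omega), kap_self _ (Man.diag hM _ _ _),
        hB.pat (show (x - 1 - 1 - 1) / 4 = (x - 1 - 1) / 4 by omega), or4_self]
      rcases hN.le (x - 1) y z with h | h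
      · exfalso
        have := h1.2
        unfold mv at this
        unfold le4 at h
        rw [this] at h
        exact absurd h (by decide)
      · rw [or4_of_le' _ _ h, kap_self _ (Man.diag hM _ _ _)]
    · rw [tw_id (w := (y, z)) h0 h1, kv_mk, kv_mk, pat_thick, pat_thick]
      by_cases hx0 : x % 4 = 0
      · have h : le4 (pat P (x - 1) y z) (pat P x y z) = true := by
          unfold le4
          rw [Bool.not_eq_true', ← Bool.not_eq_true]
          exact fun hc => h0 ⟨hx0, hc⟩
        rw [or4_of_le _ _ h, hB.pat (show (x - 1 - 1) / 4 = (x - 1) / 4 by omega), or4_self]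
      · by_cases hx1 : x % 4 = 1
        · have h : le4 (pat P (x - 1 - 1) y z) (pat P (x - 1) y z) = true := by
            unfold le4
            rw [Bool.not_eq_true', ← Bool.not_eq_true]
            exact fun hc => h1 ⟨hx1, hc⟩
          rw [or4_of_le _ _ h, hB.pat (show x / 4 = (x - 1) / 4 by omega), or4_self]
        · rw [hB.pat (show x / 4 = (x - 1) / 4 by omega),
            hB.pat (show (x - 1 - 1) / 4 = (x - 1) / 4 by omega), or4_self]

/-- The thick polycube has the same Euler characteristic. -/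
theorem euler_thick {P : Finset Cube} (hM : Man P) (hB : Blk P) (hN : NoOpp P Dir.px) :
    ((vertF (thick P)).card : ℤ) - ((faceF (thick P)).card : ℤ) =
      ((vertF P).card : ℤ) - ((faceF P).card : ℤ) := by
  classical
  have hinj : Function.Injective (tw P) := fun a b h => by rw [← tw_tw P a, h, tw_tw]
  let S : Finset Cube := vertF P ∪ (vertF (thick P)).image (tw P)
  have h1 : ∑ v ∈ S, kv P v = ∑ v ∈ vertF P, kv P v := by
    symm
    exact Finset.sum_subset Finset.subset_union_left (fun v _ hv => kv_zero hv)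
  have h2 : ∑ v ∈ S, kv P v = ∑ v ∈ vertF (thick P), kv (thick P) v := by
    have e1 : ∑ v ∈ S, kv P v = ∑ v ∈ S.image (tw P), kv (thick P) v := by
      rw [Finset.sum_image (fun a _ b _ h => hinj h)]
      exact Finset.sum_congr rfl (fun v _ => (kv_thick hM hB hN v).symm)
    rw [e1]
    symm
    refine Finset.sum_subset ?_ (fun v _ hv => kv_zero hv)
    intro v hv
    rw [Finset.mem_image]
    exact ⟨tw P v, Finset.mem_union_right _ (Finset.mem_image_of_mem _ hv), tw_tw P v⟩
  have h3 := sum_kv P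
  have h4 := sum_kv (thick P)
  rw [← h1, h2, h4] at h3
  linarith

end Pool.Agent.Helper53.GP
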