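import Pool.Agent.Helper53.GP.ThickTop

/-!
# The thick model: the surface is connected (project TIE, MP_409f7f_co)
-/

namespace Pool.Agent.Helper53.GP

open Pool.Agent.Helper17.UF Pool.Agent.Helper84.LD Pool.Agent.Helper16.LD Relation

/-- Two faces of the surface are joined. -/
def FC (T : Finset Cube) (A B : Face) : Prop :=
  ReflTransGen (fun C D => ∃ t, Dir.perp C.2 t = true ∧ D = (nbr T C t).1) A B

theorem FC.trans {T : Finset Cube} {A B C : Face} (h : FC T A B) (h' : FC T B C) : FC T A C :=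
  ReflTransGen.trans h h'

theorem FC.symm {T : Finset Cube} {A B : Face} (hA : IsFace T A) (h : FC T A B) : FC T B A := by
  induction h with
  | refl => exact ReflTransGen.refl
  | @tail b c hb hbc ih =>
    obtain ⟨t, ht, rfl⟩ := hbc
    have hb' : IsFace T b := face_of_reach hA hb
    refine ReflTransGen.head ⟨(nbr T b t).2, perp_nbr' ht, ?_⟩ ih
    rw [Helper16.LD.nbr_nbr hb']

theorem fc_convex {T : Finset Cube} {v : Cube} {d t : Dir} (h : Dir.perp d t = true)
    (h1 : v + t.vec + d.vec ∉ T) (h2 : v + t.vec ∉ T) : FC T (v, d) (v, t) := by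
  refine ReflTransGen.single ⟨t, h, ?_⟩
  unfold nbr
  rw [if_neg h1, if_neg h2]

theorem fc_flat {T : Finset Cube} {v : Cube} {d t : Dir} (h : Dir.perp d t = true)
    (h1 : v + t.vec + d.vec ∉ T) (h2 : v + t.vec ∈ T) : FC T (v, d) (v + t.vec, d) := by
  refine ReflTransGen.single ⟨t, h, ?_⟩
  unfold nbr
  rw [if_neg h1, if_pos h2]

theorem fc_reflex {T : Finset Cube} {v : Cube} {d t : Dir} (h : Dir.perp d t = true)
    (h1 : v + t.vec + d.vec ∈ T) : FC T (v, d) (v + t.vec + d.vec, t.neg) := by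
  refine ReflTransGen.single ⟨t, h, ?_⟩
  unfold nbr
  rw [if_pos h1]

/-- The shift of the cubes of the slabs `4 a`. -/
def sh (v : Cube) : Cube := if v.1 % 4 = 0 then v + ex else v

theorem sh_0 {v : Cube} (h : v.1 % 4 = 0) : sh v = v + ex := if_pos h

theorem sh_1 {v : Cube} (h : v.1 % 4 ≠ 0) : sh v = v := if_neg h

theorem fst_ex (v : Cube) : (v + ex).1 = v.1 + 1 := rfl

theorem sh_T {P : Finset Cube} (hB : Blk P) (v : Cube) : sh v ∈ thick P ↔ v ∈ P := by
  by_cases h : v.1 % 4 = 0
  · rw [sh_0 h, hB.memT (by rw [fst_ex]; omega), hB.add (by omega)]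
  · rw [sh_1 h, hB.memT h]

theorem sh_add (v : Cube) {t : Cube} (h : t.1 = 0) : sh (v + t) = sh v + t := by
  by_cases h0 : v.1 % 4 = 0
  · rw [sh_0 h0, sh_0 (by rw [Prod.fst_add, h]; omega)]; abel
  · rw [sh_1 h0, sh_1 (by rw [Prod.fst_add, h]; omega)]

/-- The face of the thick polycube that corresponds to a face. -/
def ph (A : Face) : Face :=
  if A.2 = Dir.px then (A.1 + ex, Dir.px) else if A.2 = Dir.nx then A else (sh A.1, A.2)

theorem ph_px (v : Cube) : ph (v, Dir.px) = (v + ex, Dir.px) := if_pos rfl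

theorem ph_nx (v : Cube) : ph (v, Dir.nx) = (v, Dir.nx) := rfl

theorem ph_side {v : Cube} {d : Dir} (h : d.axis ≠ 0) : ph (v, d) = (sh v, d) := by
  unfold ph
  rw [if_neg, if_neg]
  · intro hc; simp only at hc; rw [hc] at h; exact h rfl
  · intro hc; simp only at hc; rw [hc] at h; exact h rfl

section

variable {P : Finset Cube} (hB : Blk P)

include hB

theorem px_mod {v : Cube} (h1 : v ∈ P) (h2 : v + ex ∉ P) : v.1 % 4 = 3 := by
  by_contra hc
  exact h2 ((hB.add hc).2 h1)

theorem nx_mod {v : Cube} (h1 : v ∈ P) (h2 : v - ex ∉ P) : v.1 % 4 = 0 := by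
  by_contra hc
  exact h2 ((hB.sub hc).2 h1)

/-- Two steps east of a missing cube of a slab `4 a - 1`. -/
theorem two_ex {v : Cube} (hx : v.1 % 4 = 3) (h : v + ex ∉ P) : v + ex + ex ∉ thick P := by
  rw [hB.memT (by rw [fst_ex, fst_ex]; omega), hB.add (by rw [fst_ex]; omega)]
  exact h

theorem isFace_ph {A : Face} (hA : IsFace P A) : IsFace (thick P) (ph A) := by
  obtain ⟨v, d⟩ := A
  obtain ⟨h1, h2⟩ := hA
  simp only at h1 h2
  by_cases hd : d.axis = 0
  · rcases axis_0 d hd with rfl | rfl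
    · rw [ph_px]
      refine ⟨mem_T.2 (Or.inr (by rwa [add_sub_cancel_right])), ?_⟩
      exact two_ex hB (px_mod hB h1 h2) h2
    · rw [ph_nx]
      refine ⟨sub_T h1, ?_⟩
      simp only
      rw [nx_ex, ← sub_eq_add_neg] at h2 ⊢
      have hx := nx_mod hB h1 h2
      rw [hB.memT (by rw [Prod.fst_sub, ex_fst]; omega)]
      exact h2
  · rw [ph_side hd]
    refine ⟨(sh_T hB v).2 h1, ?_⟩
    simp only
    rw [← sh_add v (fst_vec d hd), sh_T hB]
    exact h2

/-- From a wall with normal `px` to its neighbours. -/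
theorem step_px {v : Cube} (h1 : v ∈ P) (h2 : v + ex ∉ P) {t : Dir} (ht : t.axis ≠ 0) :
    FC (thick P) (ph (v, Dir.px)) (ph (nbr P (v, Dir.px) t).1) := by
  have hx := px_mod hB h1 h2
  have t0 := fst_vec t ht
  have perpt : ∀ t : Dir, t.axis ≠ 0 → Dir.perp Dir.px t = true ∧ Dir.perp t Dir.nx = true ∧
      t.neg.axis ≠ 0 := by decide
  obtain ⟨q1, q2, q3⟩ := perpt t ht
  have e1 : v + ex + t.vec + Dir.px.vec = v + t.vec + Dir.px.vec + ex := by
    rw [show Dir.px.vec = ex from rfl]; abel
  rcases nbr_cases P v Dir.px t with ⟨a, e⟩ | ⟨a, b, e⟩ | ⟨a, b, e⟩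
  · rw [e]
    have ha : (v + t.vec + Dir.px.vec).1 % 4 = 0 := by
      rw [Prod.fst_add, Prod.fst_add, t0]
      simp only [Dir.vec]; omega
    simp only
    rw [ph_px, ph_side q3, sh_0 ha, ← e1]
    refine fc_reflex q1 ?_
    rw [e1]
    exact (hB.memT (by rw [fst_ex]; omega)).2 ((hB.add (by omega)).2 a)
  · rw [e]
    simp only
    rw [ph_px, ph_px, show v + t.vec + ex = v + ex + t.vec by abel]
    refine fc_flat q1 ?_ ?_
    · rw [e1]
      have := two_ex hB (v := v + t.vec) (by rw [Prod.fst_add, t0]; omega) a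
      exact this
    · rw [show v + ex + t.vec = v + t.vec + ex by abel, mem_T, add_sub_cancel_right]
      exact Or.inr b
  · rw [e]
    simp only
    rw [ph_px, ph_side ht, sh_1 (by omega)]
    have h3 : v + ex + t.vec ∉ thick P := by
      rw [show v + ex + t.vec = v + t.vec + ex by abel, mem_T, add_sub_cancel_right, not_or]
      exact ⟨a, b⟩
    refine (fc_convex (t := t) q1 ?_ h3).trans ?_
    · rw [e1]
      exact two_ex hB (v := v + t.vec) (by rw [Prod.fst_add, t0]; omega) a
    · have h4 := fc_flat (T := thick P) (v := v + ex) (d := t) (t := Dir.nx) q2 ?_ ?_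
      · rw [nx_ex, add_neg_cancel_right] at h4
        exact h4
      · rw [nx_ex, add_neg_cancel_right, hB.memT (by rw [Prod.fst_add, t0]; omega)]
        exact b
      · rw [nx_ex, add_neg_cancel_right]
        exact sub_T h1

/-- From a wall with normal `nx` to its neighbours. -/
theorem step_nx {v : Cube} (h1 : v ∈ P) (h2 : v - ex ∉ P) {t : Dir} (ht : t.axis ≠ 0) :
    FC (thick P) (ph (v, Dir.nx)) (ph (nbr P (v, Dir.nx) t).1) := by
  have hx := nx_mod hB h1 h2
  have t0 := fst_vec t ht
  have perpt : ∀ t : Dir, t.axis ≠ 0 → Dir.perp Dir.nx t = true ∧ Dir.perp t Dir.px = true ∧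
      t.neg.axis ≠ 0 := by decide
  obtain ⟨q1, q2, q3⟩ := perpt t ht
  have e1 : v + t.vec + Dir.nx.vec = v + t.vec - ex := by rw [nx_ex, sub_eq_add_neg]
  have m1 : (v + t.vec - ex).1 % 4 = 3 := by
    rw [Prod.fst_sub, Prod.fst_add, t0, ex_fst]; omega
  rcases nbr_cases P v Dir.nx t with ⟨a, e⟩ | ⟨a, b, e⟩ | ⟨a, b, e⟩
  · rw [e]
    simp only
    rw [e1] at a ⊢
    rw [ph_nx, ph_side q3, sh_1 (by omega)]
    have := fc_reflex (T := thick P) (v := v) (d := Dir.nx) (t := t) q1 (by rw [e1]; exact sub_T a)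
    rw [e1] at this
    exact this
  · rw [e]
    simp only
    rw [e1] at a
    rw [ph_nx, ph_nx]
    refine fc_flat q1 ?_ (sub_T b)
    rw [e1, hB.memT (by omega)]
    exact a
  · rw [e]
    simp only
    rw [e1] at a
    rw [ph_nx, ph_side ht, sh_0 hx]
    have h3 : v + t.vec ∉ thick P := by
      rw [mem_T, not_or]
      exact ⟨b, a⟩
    refine (fc_convex (t := t) q1 ?_ h3).trans ?_
    · rw [e1, hB.memT (by omega)]
      exact a
    · refine fc_flat (T := thick P) (v := v) (d := t) (t := Dir.px) q2 ?_ ?_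
      · rw [show v + Dir.px.vec + t.vec = v + t.vec + ex by
          rw [show Dir.px.vec = ex from rfl]; abel,
          hB.memT (by rw [fst_ex, Prod.fst_add, t0]; omega),
          hB.add (by rw [Prod.fst_add, t0]; omega)]
        exact b
      · rw [show Dir.px.vec = ex from rfl, mem_T, add_sub_cancel_right]
        exact Or.inr h1

/-- Eastward along a side face. -/
theorem step_side_px {v : Cube} {d : Dir} (hd : d.axis ≠ 0) (h1 : v ∈ P) (h2 : v + d.vec ∉ P) :
    FC (thick P) (ph (v, d)) (ph (nbr P (v, d) Dir.px).1) := by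
  have d0 := fst_vec d hd
  have perpt : ∀ t : Dir, t.axis ≠ 0 → Dir.perp t Dir.px = true := by decide
  have q := perpt d hd
  have epx : Dir.px.vec = ex := rfl
  rcases nbr_cases P v d Dir.px with ⟨a, e⟩ | ⟨a, b, e⟩ | ⟨a, b, e⟩
  · rw [e]
    simp only
    rw [epx] at a ⊢
    have hx : v.1 % 4 = 3 := by
      by_contra hc
      have e2 : v + ex + d.vec = v + d.vec + ex := by abel
      rw [e2, hB.add (by rw [Prod.fst_add, d0]; omega)] at a
      exact h2 a
    rw [ph_side hd, sh_1 (by omega), show Dir.px.neg = Dir.nx from rfl, ph_nx]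
    exact fc_reflex (T := thick P) (v := v) (d := d) (t := Dir.px) q (sub_T a)
  · rw [e]
    simp only
    rw [epx] at a b ⊢
    rw [ph_side hd, ph_side hd]
    by_cases hx0 : v.1 % 4 = 0
    · rw [sh_0 hx0, sh_1 (by rw [fst_ex]; omega)]
      exact ReflTransGen.refl
    · have h3 : v + ex + d.vec ∉ thick P := by
        rw [mem_T, not_or]
        refine ⟨a, ?_⟩
        rw [show v + ex + d.vec - ex = v + d.vec by abel]
        exact h2
      have s1 : FC (thick P) (v, d) (v + ex, d) :=
        fc_flat (T := thick P) (t := Dir.px) q h3 (sub_T b)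
      rw [sh_1 hx0]
      by_cases hx3 : v.1 % 4 = 3
      · rw [sh_0 (by rw [fst_ex]; omega)]
        refine s1.trans (fc_flat (T := thick P) (t := Dir.px) q ?_ ?_)
        · rw [epx, show v + ex + ex + d.vec = v + ex + d.vec + ex by abel,
            hB.memT (by rw [fst_ex, Prod.fst_add, fst_ex, d0]; omega),
            hB.add (by rw [Prod.fst_add, fst_ex, d0]; omega)]
          exact a
        · rw [epx, hB.memT (by rw [fst_ex, fst_ex]; omega), hB.add (by rw [fst_ex]; omega)]
          exact b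
      · rw [sh_1 (by rw [fst_ex]; omega)]
        exact s1
  · rw [e]
    simp only
    rw [epx] at a b
    have hx := px_mod hB h1 b
    rw [ph_side hd, sh_1 (by omega), ph_px]
    have h3 : v + ex + d.vec ∉ thick P := by
      rw [mem_T, not_or]
      refine ⟨a, ?_⟩
      rw [show v + ex + d.vec - ex = v + d.vec by abel]
      exact h2
    refine (fc_flat (T := thick P) (t := Dir.px) q h3 ?_).trans ?_
    · rw [epx, mem_T, add_sub_cancel_right]
      exact Or.inr h1
    · refine fc_convex (T := thick P) (t := Dir.px) q ?_ ?_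
      · rw [epx, show v + ex + ex + d.vec = v + ex + d.vec + ex by abel,
          hB.memT (by rw [fst_ex, Prod.fst_add, fst_ex, d0]; omega),
          hB.add (by rw [Prod.fst_add, fst_ex, d0]; omega)]
        exact a
      · rw [epx]
        exact two_ex hB hx b

/-- Inside a slab. -/
theorem step_side {v : Cube} {d t : Dir} (hd : d.axis ≠ 0) (ht : t.axis ≠ 0)
    (h : Dir.perp d t = true) : FC (thick P) (ph (v, d)) (ph (nbr P (v, d) t).1) := by
  have d0 := fst_vec d hd
  have t0 := fst_vec t ht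
  have hn : ∀ t : Dir, t.axis ≠ 0 → t.neg.axis ≠ 0 := by decide
  have k1 : sh v + t.vec + d.vec ∈ thick P ↔ v + t.vec + d.vec ∈ P := by
    rw [← sh_add v t0, ← sh_add _ d0, sh_T hB]
  have k2 : sh v + t.vec ∈ thick P ↔ v + t.vec ∈ P := by
    rw [← sh_add v t0, sh_T hB]
  rcases nbr_cases P v d t with ⟨a, e⟩ | ⟨a, b, e⟩ | ⟨a, b, e⟩
  · rw [e]
    simp only
    rw [ph_side hd, ph_side (hn t ht), sh_add _ d0, sh_add _ t0]
    exact fc_reflex h (k1.2 a)
  · rw [e]
    simp only
    rw [ph_side hd, ph_side hd, sh_add _ t0]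
    exact fc_flat h (fun hc => a (k1.1 hc)) (k2.2 b)
  · rw [e]
    simp only
    rw [ph_side hd, ph_side ht]
    exact fc_convex h (fun hc => a (k1.1 hc)) (fun hc => b (k2.1 hc))

theorem step_all {A : Face} (hA : IsFace P A) {t : Dir} (h : Dir.perp A.2 t = true) :
    FC (thick P) (ph A) (ph (nbr P A t).1) := by
  obtain ⟨v, d⟩ := A
  have hA' := hA
  obtain ⟨h1, h2⟩ := hA
  simp only at h1 h2 h
  have hp : ∀ d t : Dir, Dir.perp d t = true → (d = Dir.px ∧ t.axis ≠ 0) ∨
      (d = Dir.nx ∧ t.axis ≠ 0) ∨ (d.axis ≠ 0 ∧ t = Dir.px) ∨ (d.axis ≠ 0 ∧ t = Dir.nx) ∨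
      (d.axis ≠ 0 ∧ t.axis ≠ 0) := by decide
  rcases hp d t h with ⟨rfl, ht⟩ | ⟨rfl, ht⟩ | ⟨hd, rfl⟩ | ⟨hd, rfl⟩ | ⟨hd, ht⟩
  · exact step_px hB h1 h2 ht
  · rw [nx_ex, ← sub_eq_add_neg] at h2
    exact step_nx hB h1 h2 ht
  · exact step_side_px hB hd h1 h2
  · -- backwards from the neighbour
    have hb := Helper16.LD.nbr_nbr (t := Dir.nx) hA'
    have hf := face_nbr (t := Dir.nx) hA'
    have hn : ∀ d : Dir, d.axis ≠ 0 → d.neg.axis ≠ 0 := by decide
    rcases nbr_cases P v d Dir.nx with ⟨a, e⟩ | ⟨a, b, e⟩ | ⟨a, b, e⟩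
    · rw [e] at hb hf ⊢
      simp only at hb hf ⊢
      rw [show Dir.nx.neg = Dir.px from rfl] at hb hf ⊢
      have := step_px hB hf.1 hf.2 (hn d hd)
      rw [hb] at this
      exact this.symm (isFace_ph hB hf)
    · rw [e] at hb hf ⊢
      simp only at hb hf ⊢
      rw [show Dir.nx.neg = Dir.px from rfl] at hb
      have := step_side_px hB hd hf.1 hf.2
      rw [hb] at this
      exact this.symm (isFace_ph hB hf)
    · rw [e] at hb hf ⊢
      simp only at hb hf ⊢
      have h3 := hf.2
      simp only at h3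
      rw [nx_ex, ← sub_eq_add_neg] at h3
      have := step_nx hB hf.1 h3 hd
      rw [hb] at this
      exact this.symm (isFace_ph hB hf)
  · exact step_side hB hd ht h

theorem ph_conn {A B : Face} (hA : IsFace P A) (h : FC P A B) :
    FC (thick P) (ph A) (ph B) := by
  induction h with
  | refl => exact ReflTransGen.refl
  | @tail b c hb hbc ih =>
    obtain ⟨t, ht, rfl⟩ := hbc
    exact ih.trans (step_all hB (face_of_reach hA hb) ht)

theorem exists_ph {B : Face} (hBf : IsFace (thick P) B) :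
    ∃ A, IsFace P A ∧ FC (thick P) B (ph A) := by
  obtain ⟨v, d⟩ := B
  obtain ⟨h1, h2⟩ := hBf
  simp only at h1 h2
  by_cases hd : d.axis = 0
  · rcases axis_0 d hd with rfl | rfl
    · rw [show Dir.px.vec = ex from rfl, mem_T, not_or, add_sub_cancel_right] at h2
      have h3 : v - ex ∈ P := by
        rcases mem_T.1 h1 with h | h
        · exact absurd h h2.2
        · exact h
      refine ⟨(v - ex, Dir.px), ⟨h3, ?_⟩, ?_⟩
      · simp only
        rw [show Dir.px.vec = ex from rfl, sub_add_cancel]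
        exact h2.2
      · rw [ph_px, sub_add_cancel]
        exact ReflTransGen.refl
    · rw [nx_ex, ← sub_eq_add_neg, mem_T, not_or] at h2
      have h3 : v ∈ P := by
        rcases mem_T.1 h1 with h | h
        · exact h
        · exact absurd h h2.1
      refine ⟨(v, Dir.nx), ⟨h3, ?_⟩, ?_⟩
      · simp only
        rw [nx_ex, ← sub_eq_add_neg]
        exact h2.1
      · rw [ph_nx]
        exact ReflTransGen.refl
  · have d0 := fst_vec d hd
    have perpt : ∀ t : Dir, t.axis ≠ 0 → Dir.perp t Dir.px = true ∧ Dir.perp t Dir.nx = true := by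
      decide
    obtain ⟨q1, q2⟩ := perpt d hd
    have h2' := h2
    rw [mem_T, not_or] at h2
    by_cases hx : v.1 % 4 = 0
    · by_cases hv : v ∈ P
      · refine ⟨(v, d), ⟨hv, h2.1⟩, ?_⟩
        rw [ph_side hd, sh_0 hx]
        refine fc_flat (T := thick P) (t := Dir.px) q1 ?_ ?_
        · rw [show v + Dir.px.vec + d.vec = v + d.vec + ex by
            rw [show Dir.px.vec = ex from rfl]; abel,
            hB.memT (by rw [fst_ex, Prod.fst_add, d0]; omega),
            hB.add (by rw [Prod.fst_add, d0]; omega)]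
          exact h2.1
        · rw [show Dir.px.vec = ex from rfl, mem_T, add_sub_cancel_right]
          exact Or.inr hv
      · have h3 : v - ex ∈ P := by
          rcases mem_T.1 h1 with h | h
          · exact absurd h hv
          · exact h
        have e3 : v - ex + d.vec = v + d.vec - ex := by abel
        have h4 : v - ex + d.vec ∉ P := by rw [e3]; exact h2.2
        refine ⟨(v - ex, d), ⟨h3, h4⟩, ?_⟩
        rw [ph_side hd, sh_1 (by rw [Prod.fst_sub, ex_fst]; omega)]
        have := fc_flat (T := thick P) (v := v) (d := d) (t := Dir.nx) q2 ?_ ?_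
        · rw [nx_ex, ← sub_eq_add_neg] at this
          exact this
        · rw [nx_ex, ← sub_eq_add_neg, hB.memT (by
            rw [Prod.fst_add, Prod.fst_sub, ex_fst, d0]; omega)]
          exact h4
        · rw [nx_ex, ← sub_eq_add_neg]
          exact sub_T h3
    · rw [hB.memT hx] at h1
      refine ⟨(v, d), ⟨h1, h2.1⟩, ?_⟩
      rw [ph_side hd, sh_1 hx]
      exact ReflTransGen.refl

/-- The surface of the thick polycube is connected. -/
theorem surfConn_thick (hS : SurfConn P) : SurfConn (thick P) := by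
  intro A B hA hB'
  obtain ⟨A', hA', h1⟩ := exists_ph hB hA
  obtain ⟨B', hB'', h2⟩ := exists_ph hB hB'
  exact (h1.trans (ph_conn hB hA' (hS A' B' hA' hB''))).trans (h2.symm hB')

end

end Pool.Agent.Helper53.GP
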