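import Pool.Agent.Helper53.GP.Thick

/-!
# The thick model: edge-manifold and connected (project TIE, MP_409f7f_co)
-/

namespace Pool.Agent.Helper53.GP

open Pool.Agent.Helper17.UF Pool.Agent.Helper84.LD Pool.Agent.Helper16.LD Relation

/-- The unit vector in the direction `x`. -/
def ex : Cube := Dir.px.vec

theorem ex_fst : ex.1 = 1 := rfl

theorem nx_ex : Dir.nx.vec = -ex := rfl

theorem mem_T {P : Finset Cube} {v : Cube} : v ∈ thick P ↔ v ∈ P ∨ v - ex ∈ P := by
  rw [mem_thick]
  have : v - ex = (v.1 - 1, v.2) := by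
    unfold ex Dir.vec
    ext <;> simp
  rw [this]

theorem sub_T {P : Finset Cube} {v : Cube} (h : v ∈ P) : v ∈ thick P := mem_T.2 (Or.inl h)

theorem Blk.iff {P : Finset Cube} (hB : Blk P) {u v : Cube} (h1 : u.1 / 4 = v.1 / 4)
    (h2 : u.2 = v.2) : u ∈ P ↔ v ∈ P := by
  rw [hB u, hB v, h1, h2]

theorem Blk.sub {P : Finset Cube} (hB : Blk P) {u : Cube} (h : u.1 % 4 ≠ 0) :
    u - ex ∈ P ↔ u ∈ P := by
  refine hB.iff ?_ ?_
  · rw [Prod.fst_sub, ex_fst]; omega
  · rw [Prod.snd_sub]; simp [ex, Dir.vec]

theorem Blk.add {P : Finset Cube} (hB : Blk P) {u : Cube} (h : u.1 % 4 ≠ 3) :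
    u + ex ∈ P ↔ u ∈ P := by
  refine hB.iff ?_ ?_
  · rw [Prod.fst_add, ex_fst]; omega
  · rw [Prod.snd_add]; simp [ex, Dir.vec]

theorem Blk.memT {P : Finset Cube} (hB : Blk P) {u : Cube} (h : u.1 % 4 ≠ 0) :
    u ∈ thick P ↔ u ∈ P := by
  rw [mem_T, hB.sub h, or_self]

theorem fst_vec : ∀ t : Dir, t.axis ≠ 0 → t.vec.1 = 0 := by decide

theorem axis_0 : ∀ t : Dir, t.axis = 0 → t = Dir.px ∨ t = Dir.nx := by decide

/-- The thick polycube is edge-manifold. -/
theorem man_thick {P : Finset Cube} (hM : Man P) (hB : Blk P) (hN : NoOpp P Dir.px) :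
    Man (thick P) := by
  have keyP : ∀ y ∈ thick P, ∀ v : Dir, v.axis ≠ 0 → y + ex ∉ thick P → y + v.vec ∉ thick P →
      y + ex + v.vec ∉ thick P := by
    intro y hy v hv h1 h2 h3
    have hyP : y ∉ P := fun hc => h1 (mem_T.2 (Or.inr (by rwa [add_sub_cancel_right])))
    have hx : y.1 % 4 = 0 := by
      by_contra hc
      rcases mem_T.1 hy with h | h
      · exact hyP h
      · exact hyP ((hB.sub hc).1 h)
    rw [mem_T] at h3
    have e : y + ex + v.vec - ex = y + v.vec := by abel
    rcases h3 with h3 | h3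
    · have e2 : y + ex + v.vec = y + v.vec + ex := by abel
      rw [e2, hB.add (by rw [Prod.fst_add, fst_vec v hv]; omega)] at h3
      exact h2 (sub_T h3)
    · rw [e] at h3
      exact h2 (sub_T h3)
  have keyN : ∀ y ∈ thick P, ∀ v : Dir, v.axis ≠ 0 → y - ex ∉ thick P → y + v.vec ∉ thick P →
      y - ex + v.vec ∉ thick P := by
    intro y hy v hv h1 h2 h3
    have hyP : y - ex ∉ P := fun hc => h1 (sub_T hc)
    have hy' : y ∈ P := by
      rcases mem_T.1 hy with h | h
      · exact h
      · exact absurd h hyP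
    have hx : y.1 % 4 = 0 := by
      by_contra hc
      exact hyP ((hB.sub hc).2 hy')
    rw [mem_T] at h3
    have e : y - ex + v.vec = y + v.vec - ex := by abel
    rw [e] at h3
    have hf : (y + v.vec - ex).1 % 4 ≠ 0 := by
      rw [Prod.fst_sub, Prod.fst_add, fst_vec v hv, ex_fst]; omega
    rw [hB.sub hf, or_self] at h3
    exact h2 (mem_T.2 (Or.inr h3))
  intro y hy u v huv h1 h2
  have hax : ∀ u v : Dir, Dir.perp u v = true → (u.axis = 0 ∧ v.axis ≠ 0) ∨
      (v.axis = 0 ∧ u.axis ≠ 0) ∨ (u.axis ≠ 0 ∧ v.axis ≠ 0) := by decide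
  rcases hax u v huv with ⟨hu, hv⟩ | ⟨hv, hu⟩ | ⟨hu, hv⟩
  · rcases axis_0 u hu with rfl | rfl
    · exact keyP y hy v hv h1 h2
    · rw [nx_ex, ← sub_eq_add_neg] at h1 ⊢
      exact keyN y hy v hv h1 h2
  · have e : y + u.vec + v.vec = y + v.vec + u.vec := by abel
    rw [e]
    rcases axis_0 v hv with rfl | rfl
    · exact keyP y hy u hu h2 h1
    · rw [nx_ex, ← sub_eq_add_neg] at h2 ⊢
      exact keyN y hy u hu h2 h1
  · intro h3
    rw [mem_T] at h1 h2 h3 hy
    rw [not_or] at h1 h2
    have perpx : ∀ u v : Dir, u.axis ≠ 0 → v.axis ≠ 0 → Dir.perp u v = true →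
        Dir.perp Dir.px u.neg = true ∧ Dir.perp Dir.px v.neg = true ∧
        Dir.perp Dir.nx u = true ∧ Dir.perp Dir.nx v = true ∧ Dir.perp u.neg v.neg = true ∧
        Dir.perp Dir.nx u.neg = true ∧ Dir.perp Dir.nx v.neg = true ∧
        Dir.perp Dir.px u = true ∧ Dir.perp Dir.px v = true := by decide
    obtain ⟨q1, q2, q3, q4, q5, q6, q7, q8, q9⟩ := perpx u v hu hv huv
    have e1 : ∀ w : Cube, w + u.vec + v.vec + Dir.nx.vec = w + u.vec + v.vec - ex := by
      intro w; rw [nx_ex, sub_eq_add_neg]
    have p1 := pp_neg u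
    have p2 := pp_neg v
    rcases hy with hy | hy
    · rcases h3 with h3 | h3
      · exact hM y hy u v huv h1.1 h2.1 h3
      · -- `y` in `P`, the diagonal in the translate
        by_cases g1 : y - ex ∈ P
        · refine hM (y - ex) g1 u v huv ?_ ?_ ?_
          · rw [show y - ex + u.vec = y + u.vec - ex by abel]; exact h1.2
          · rw [show y - ex + v.vec = y + v.vec - ex by abel]; exact h2.2
          · rw [show y - ex + u.vec + v.vec = y + u.vec + v.vec - ex by abel]; exact h3
        · by_cases g2 : y + u.vec + v.vec ∈ P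
          · exact hM y hy u v huv h1.1 h2.1 g2
          · refine hN (y + pp u + pp v) ?_ ?_
            · refine ⟨(y + u.vec + v.vec - ex, Dir.px), u.neg, v.neg, ⟨h3, ?_⟩, rfl, q1, q2, q5, ?_⟩
              · simp only
                rw [show Dir.px.vec = ex from rfl, sub_add_cancel]; exact g2
              · unfold crn
                simp only
                rw [show pp Dir.px = ex from rfl, ← p1, ← p2]
                abel
            · refine ⟨(y, Dir.nx), u, v, ⟨hy, ?_⟩, rfl, q3, q4, huv, ?_⟩
              · simp only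
                rw [nx_ex, ← sub_eq_add_neg]; exact g1
              · unfold crn
                simp only
                rw [show pp Dir.nx = 0 from rfl]
                abel
    · rcases h3 with h3 | h3
      · by_cases g1 : y ∈ P
        · exact hM y g1 u v huv h1.1 h2.1 h3
        · by_cases g2 : y + u.vec + v.vec - ex ∈ P
          · refine hM (y - ex) hy u v huv ?_ ?_ ?_
            · rw [show y - ex + u.vec = y + u.vec - ex by abel]; exact h1.2
            · rw [show y - ex + v.vec = y + v.vec - ex by abel]; exact h2.2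
            · rw [show y - ex + u.vec + v.vec = y + u.vec + v.vec - ex by abel]; exact g2
          · refine hN (y + pp u + pp v) ?_ ?_
            · refine ⟨(y - ex, Dir.px), u, v, ⟨hy, ?_⟩, rfl, q8, q9, huv, ?_⟩
              · simp only
                rw [show Dir.px.vec = ex from rfl, sub_add_cancel]; exact g1
              · unfold crn
                simp only
                rw [show pp Dir.px = ex from rfl]
                abel
            · refine ⟨(y + u.vec + v.vec, Dir.nx), u.neg, v.neg, ⟨h3, ?_⟩, rfl, q6, q7, q5, ?_⟩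
              · simp only
                rw [nx_ex, ← sub_eq_add_neg]; exact g2
              · unfold crn
                simp only
                rw [show pp Dir.nx = 0 from rfl, ← p1, ← p2]
                abel
      · refine hM (y - ex) hy u v huv ?_ ?_ ?_
        · rw [show y - ex + u.vec = y + u.vec - ex by abel]; exact h1.2
        · rw [show y - ex + v.vec = y + v.vec - ex by abel]; exact h2.2
        · rw [show y - ex + u.vec + v.vec = y + u.vec + v.vec - ex by abel]; exact h3

end Pool.Agent.Helper53.GP
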