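import Pool.Agent.Helper53.GP.ThickConn
import Pool.Agent.Helper53.GP.Sign

/-!
# The colouring on walls; the thick model has a compatible colouring (project TIE, MP_409f7f_co)
-/

namespace Pool.Agent.Helper53.GP

open Pool.Agent.Helper17.UF Pool.Agent.Helper84.LD Pool.Agent.Helper16.LD Relation

theorem cTie_01 {P : Finset Cube} {v : Cube} (h : v.2.2 % 4 = 0 ∨ v.2.2 % 4 = 1) :
    cTie P v = base P v := if_pos h

theorem cTie_23 {P : Finset Cube} {v : Cube} (h : v.2.2 % 4 = 2 ∨ v.2.2 % 4 = 3) :
    cTie P v = !base P v := if_neg (by omega)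

theorem base_even {P : Finset Cube} {v : Cube} (h : v.2.2 % 2 = 0) :
    base P v = true ↔ (v.1 % 4 = 1 ∨ OnF P Dir.px v) := by
  classical
  unfold base
  rw [if_pos h, decide_eq_true_iff]

theorem base_odd {P : Finset Cube} {v : Cube} (h : v.2.2 % 2 = 1) :
    base P v = true ↔ OnF P Dir.py v := by
  classical
  unfold base
  rw [if_neg (by omega), decide_eq_true_iff]

/-- Cubes above and below an odd height agree. -/
theorem FlatEven.iff {P : Finset Cube} (hF : FlatEven P) {x y z : ℤ} (hz : z % 2 = 1) :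
    (x, y, z - 1) ∈ P ↔ (x, y, z) ∈ P := by
  constructor
  · intro h
    by_contra hc
    have : IsFace P ((x, y, z - 1), Dir.pz) := by
      refine ⟨h, ?_⟩
      simp only [Dir.vec, Prod.mk_add_mk, add_zero, sub_add_cancel]
      exact hc
    have := hF _ this (fun h => h rfl)
    rw [lev_pz] at this
    simp only at this
    omega
  · intro h
    by_contra hc
    have : IsFace P ((x, y, z), Dir.nz) := by
      refine ⟨h, ?_⟩
      simp only [Dir.vec, Prod.mk_add_mk, add_zero]
      exact hc
    have := hF _ this (fun h => h rfl)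
    rw [lev_nz] at this
    simp only at this
    omega

theorem FlatEven.oc {P : Finset Cube} (hF : FlatEven P) {x y z : ℤ} (hz : z % 2 = 1) :
    oc P (x, y, z - 1) = oc P (x, y, z) := by
  rw [Bool.eq_iff_iff, oc_eq, oc_eq]
  exact hF.iff hz

/-- At an odd height no lattice point lies on faces with normals `py` and `ny`. -/
theorem no_py_ny {P : Finset Cube} (hM : Man P) (hF : FlatEven P) {v : Cube}
    (hz : v.2.2 % 2 = 1) (h1 : OnF P Dir.py v) (h2 : OnF P Dir.ny v) : False := by
  obtain ⟨x, y, z⟩ := v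
  simp only at hz
  rw [onF_py] at h1
  rw [onF_ny] at h2
  unfold pat at h1 h2
  rw [hF.oc hz, hF.oc hz, hF.oc hz, hF.oc hz] at h1 h2
  unfold py4 at h1
  unfold ny4 at h2
  simp only [Bool.or_self] at h1 h2
  have key : ∀ a b c d : Bool, (a && !b || c && !d) = true → (b && !a || d && !c) = true →
      (a = true ∧ b = false ∧ c = false ∧ d = true) ∨
      (a = false ∧ b = true ∧ c = true ∧ d = false) := by decide
  rcases key _ _ _ _ h1 h2 with ⟨a, b, c, d⟩ | ⟨a, b, c, d⟩
  · rw [oc_eq] at a d
    rw [oc_eq_false] at b c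
    have := hM _ a Dir.px Dir.py (by decide)
    simp only [Dir.vec, Prod.mk_add_mk, add_zero, sub_add_cancel] at this
    exact this c b d
  · rw [oc_eq] at b c
    rw [oc_eq_false] at a d
    have := hM _ b Dir.px Dir.ny (by decide)
    simp only [Dir.vec, Prod.mk_add_mk, add_zero, sub_add_cancel] at this
    refine this d ?_ ?_
    · rw [← sub_eq_add_neg]; exact a
    · rw [← sub_eq_add_neg]; exact c

theorem crn_fst (A : Face) (t w : Dir) : (crn A t w).1 = A.1.1 + (pp A.2).1 + (pp t).1 + (pp w).1 :=
  rfl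

/-- The colours on walls. -/
theorem cTie_wall {P : Finset Cube} (hM : Man P) (hF : FlatEven P) (hN : NoOpp P Dir.px)
    (hnx : ∀ v, IsFace P (v, Dir.nx) → v.1 % 4 = 0) {A : Face} (hA : IsFace P A) (hw : Wall A)
    {t w : Dir} (htt : t = Dir.pz ∨ t = Dir.nz) (hpw : Dir.perp A.2 w = true)
    (hwz : w.axis ≠ 2) (hne : ht A.1 t ≠ lev A) :
    cTie P (crn A t w) = decide (A.2 = dk (ht A.1 t)) := by
  obtain ⟨v, d⟩ := A
  simp only at hpw hne ⊢
  have hw' : d.axis ≠ 2 := hw
  have hpt : Dir.perp d t = true := by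
    have : ∀ d t : Dir, d.axis ≠ 2 → (t = Dir.pz ∨ t = Dir.nz) → Dir.perp d t = true := by decide
    exact this d t hw' htt
  have htw : Dir.perp t w = true := by
    have : ∀ t w : Dir, w.axis ≠ 2 → (t = Dir.pz ∨ t = Dir.nz) → Dir.perp t w = true := by decide
    exact this t w hwz htt
  have hon : OnF P d (crn (v, d) t w) := ⟨(v, d), t, w, hA, rfl, hpt, hpw, htw, rfl⟩
  have hz : (crn (v, d) t w).2.2 = GP.ht v t := by
    rw [crn_z]
    unfold GP.ht
    have k : ∀ d : Dir, d.axis ≠ 2 → (pp d).2.2 = 0 := by decide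
    rw [k d hw', k w hwz]
    simp only
    ring
  have hht : GP.ht v t = v.2.2 ∨ GP.ht v t = v.2.2 + 1 := by
    unfold GP.ht
    rcases htt with rfl | rfl
    · right; rfl
    · left; show v.2.2 + 0 = v.2.2; ring
  by_cases hx : d.axis = 0
  · have hl := lev_wall_x (v := v) hx
    have hev : GP.ht v t % 2 = 0 := by
      rcases hht with h | h <;> rcases hl.2 with h' | h' <;> omega
    rcases axis_0 d hx with rfl | rfl
    · have hb : base P (crn (v, Dir.px) t w) = true := (base_even (by rw [hz]; exact hev)).2 (Or.inr hon)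
      rcases mod4 (GP.ht v t) with h | h | h | h
      · rw [cTie_01 (by rw [hz]; left; exact h), hb, dk_0 h]; rfl
      · omega
      · rw [cTie_23 (by rw [hz]; left; exact h), hb, dk_2 h]; rfl
      · omega
    · have hb : base P (crn (v, Dir.nx) t w) = false := by
        rw [← Bool.not_eq_true, base_even (by rw [hz]; exact hev), not_or]
        refine ⟨?_, fun hc => hN _ hc hon⟩
        rw [crn_fst]
        have k : ∀ w : Dir, Dir.perp Dir.nx w = true → (pp w).1 = 0 := by decide
        rw [k t hpt, k w hpw, show (pp Dir.nx).1 = 0 from rfl]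
        have := hnx v hA
        simp only
        omega
      rcases mod4 (GP.ht v t) with h | h | h | h
      · rw [cTie_01 (by rw [hz]; left; exact h), hb, dk_0 h]; rfl
      · omega
      · rw [cTie_23 (by rw [hz]; left; exact h), hb, dk_2 h]; rfl
      · omega
  · have hy : d.axis = 1 := by
      rcases axis_cases d with h | h | h
      · exact absurd h hx
      · exact h
      · exact absurd h hw'
    have hl := lev_wall_y (v := v) hy
    have hodd : GP.ht v t % 2 = 1 := by
      rcases hht with h | h <;> rcases hl.2 with h' | h' <;> omega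
    have hdd : ∀ d : Dir, d.axis = 1 → d = Dir.py ∨ d = Dir.ny := by decide
    rcases hdd d hy with rfl | rfl
    · have hb : base P (crn (v, Dir.py) t w) = true := (base_odd (by rw [hz]; exact hodd)).2 hon
      rcases mod4 (GP.ht v t) with h | h | h | h
      · omega
      · rw [cTie_01 (by rw [hz]; right; exact h), hb, dk_1 h]; rfl
      · omega
      · rw [cTie_23 (by rw [hz]; right; exact h), hb, dk_3 h]; rfl
    · have hb : base P (crn (v, Dir.ny) t w) = false := by
        rw [← Bool.not_eq_true, base_odd (by rw [hz]; exact hodd)]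
        exact fun hc => no_py_ny hM hF (by rw [hz]; exact hodd) hc hon
      rcases mod4 (GP.ht v t) with h | h | h | h
      · omega
      · rw [cTie_01 (by rw [hz]; right; exact h), hb, dk_1 h]; rfl
      · omega
      · rw [cTie_23 (by rw [hz]; right; exact h), hb, dk_3 h]; rfl

section thick

variable {P : Finset Cube} (hB : Blk P)

theorem flatEven_thick (hF : FlatEven P) : FlatEven (thick P) := by
  rintro ⟨v, d⟩ ⟨h1, h2⟩ hw
  simp only at h1 h2
  have hd : d.axis = 2 := by
    by_contra hc
    exact hw hc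
  have hdd : ∀ d : Dir, d.axis = 2 → d = Dir.pz ∨ d = Dir.nz := by decide
  rw [mem_T, not_or] at h2
  have hz : ∀ d : Dir, lev (v - ex, d) = lev (v, d) := by
    intro d
    have : (v - ex).2.2 = v.2.2 := by
      rw [Prod.snd_sub, Prod.snd_sub]
      show v.2.2 - 0 = v.2.2
      ring
    cases d <;> simp only [lev, this]
  rcases mem_T.1 h1 with h | h
  · exact hF (v, d) ⟨h, h2.1⟩ hw
  · have := hF (v - ex, d) ⟨h, by
      simp only
      rw [show v - ex + d.vec = v + d.vec - ex by abel]
      exact h2.2⟩ hw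
    rw [hz] at this
    exact this

include hB

theorem thick_px {v : Cube} (h : IsFace (thick P) (v, Dir.px)) : v.1 % 4 = 0 := by
  obtain ⟨h1, h2⟩ := h
  simp only at h1 h2
  rw [show Dir.px.vec = ex from rfl, mem_T, not_or, add_sub_cancel_right] at h2
  by_contra hc
  rcases mem_T.1 h1 with h | h
  · exact h2.2 h
  · exact h2.2 ((hB.sub hc).1 h)

theorem thick_nx {v : Cube} (h : IsFace (thick P) (v, Dir.nx)) : v.1 % 4 = 0 := by
  obtain ⟨h1, h2⟩ := h
  simp only at h1 h2
  rw [nx_ex, ← sub_eq_add_neg, mem_T, not_or] at h2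
  by_contra hc
  rcases mem_T.1 h1 with h | h
  · exact h2.1 ((hB.sub hc).2 h)
  · exact h2.1 h

theorem onF_px_thick {v : Cube} (h : OnF (thick P) Dir.px v) : v.1 % 4 = 1 := by
  obtain ⟨A, t, w, hA, h1, h2, h3, -, rfl⟩ := h
  obtain ⟨u, d⟩ := A
  simp only at h1
  subst h1
  rw [crn_fst]
  have k : ∀ w : Dir, Dir.perp Dir.px w = true → (pp w).1 = 0 := by decide
  rw [k t h2, k w h3, show (pp Dir.px).1 = 1 from rfl]
  have := thick_px hB hA
  simp only
  omega

theorem onF_nx_thick {v : Cube} (h : OnF (thick P) Dir.nx v) : v.1 % 4 = 0 := by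
  obtain ⟨A, t, w, hA, h1, h2, h3, -, rfl⟩ := h
  obtain ⟨u, d⟩ := A
  simp only at h1
  subst h1
  rw [crn_fst]
  have k : ∀ w : Dir, Dir.perp Dir.nx w = true → (pp w).1 = 0 := by decide
  rw [k t h2, k w h3, show (pp Dir.nx).1 = 0 from rfl]
  have := thick_nx hB hA
  simp only
  omega

theorem noOpp_thick : NoOpp (thick P) Dir.px := by
  intro v h1 h2
  have := onF_px_thick hB h1
  have := onF_nx_thick hB (v := v) h2
  omega

theorem base_thick_even {v : Cube} (h : v.2.2 % 2 = 0) : base (thick P) v = decide (v.1 % 4 = 1) := by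
  rw [Bool.eq_iff_iff, base_even h, decide_eq_true_iff]
  exact ⟨fun h => h.elim id (onF_px_thick hB), Or.inl⟩

/-- The thick model has a compatible colouring. -/
theorem canCol_thick (hM : Man P) (hF : FlatEven P) (hN : NoOpp P Dir.px) :
    CanCol (thick P) (cTie (thick P)) := by
  constructor
  · intro A hA hw t w ht' hpw hwz hne
    exact cTie_wall (man_thick hM hB hN) (flatEven_thick hF) (noOpp_thick hB)
      (fun v hv => thick_nx hB hv) hA hw ht' hpw hwz hne
  · intro A hA hw h hh hc
    obtain ⟨v, d⟩ := A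
    have hd : d.axis = 2 := by
      by_contra hc
      exact hw hc
    have hlev := flatEven_thick hF _ hA hw
    -- the two ends of a lateral side have the same first and third coordinates
    have key : ∀ (d e : Dir), d.axis = 2 → e.axis = 0 → ∀ h : Hd, (h = Hd.E ∨ h = Hd.W) →
        (pp (dirH true d e Hd.S)).1 = 0 ∧ (pp (dirH true d e Hd.N)).1 = 0 ∧
        (pp (dirH true d e Hd.S)).2.2 = 0 ∧ (pp (dirH true d e Hd.N)).2.2 = 0 ∧
        (pp (dirH true d e h)).2.2 = 0 := by decide
    have hax : (eCan (v, d)).axis = 0 := by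
      rw [eCan, neg_axis, dk_axis, if_pos hlev]
    obtain ⟨k1, k2, k3, k4, k5⟩ := key d (eCan (v, d)) hd hax h hh
    have e1 : (cr true eCan (v, d) Hd.S h).1 = (cr true eCan (v, d) Hd.N h).1 := by
      unfold cr dA
      rw [crn_fst, crn_fst, k1, k2]
    have e2 : (cr true eCan (v, d) Hd.S h).2.2 = (cr true eCan (v, d) Hd.N h).2.2 := by
      unfold cr dA
      rw [crn_z, crn_z, k3, k4]
    have e3 : (cr true eCan (v, d) Hd.N h).2.2 = lev (v, d) := by
      unfold cr dA
      rw [crn_z, k4, k5]
      have hdd : ∀ d : Dir, d.axis = 2 → d = Dir.pz ∨ d = Dir.nz := by decide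
      rcases hdd d hd with rfl | rfl
      · rw [lev_pz]
        simp only [pp]
        ring
      · rw [lev_nz]
        simp only [pp]
        ring
    have hb : base (thick P) (cr true eCan (v, d) Hd.S h) =
        base (thick P) (cr true eCan (v, d) Hd.N h) := by
      rw [base_thick_even hB (by rw [e2, e3]; exact hlev),
        base_thick_even hB (by rw [e3]; exact hlev), e1]
    unfold cTie at hc ⊢
    rw [e2, hb] at hc
    exact hc

end thick

end Pool.Agent.Helper53.GP
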