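import Pool.Agent.Helper84.LD.Main

/-!
# Ladders with back steps give nets (project GP, MP_409f7f_co)
-/

namespace Pool.Agent.Helper53.GP

open Pool.Agent.Helper17.UF Pool.Agent.Helper84.LD Relation

/-- The face reached by a step. -/
def tgt (P : Finset Cube) (σ : Bool) (e : Face → Dir) (p : Face × Hd) : Face := nb P σ e p.1 p.2

/-- A ladder with back steps: `U` is the set of faces whose north side is glued, `O` the set of
exits of the columns (a face and the heading `E` or `W`), `y` the height inside a column. -/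
structure IsZig (P : Finset Cube) (σ : Bool) (e : Face → Dir) (U : Set Face)
    (O : Set (Face × Hd)) (y : Face → ℤ) : Prop where
  perp : ∀ A, IsFace P A → Dir.perp A.2 (e A) = true
  up_face : ∀ A ∈ U, IsFace P A
  up_cmp : ∀ A ∈ U, Cmp P σ e A Hd.N
  ht : ∀ A ∈ U, y (nb P σ e A Hd.N) = y A + 1
  cr_face : ∀ p ∈ O, IsFace P p.1
  cr_hd : ∀ p ∈ O, p.2 = Hd.E ∨ p.2 = Hd.W
  cr_cmp : ∀ p ∈ O, Cmp P σ e p.1 p.2
  out : ∀ A, IsFace P A → ∃ p ∈ O, EqvGen (Up P σ e U) A p.1
  uniq_out : ∀ p ∈ O, ∀ q ∈ O, EqvGen (Up P σ e U) p.1 q.1 → p = q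
  uniq_in : ∀ p ∈ O, ∀ q ∈ O, EqvGen (Up P σ e U) (tgt P σ e p) (tgt P σ e q) → p = q
  nodouble : ∀ p ∈ O, ∀ q ∈ O, EqvGen (Up P σ e U) (tgt P σ e p) q.1 → p.2 = Hd.W → q.2 = Hd.E
  order : ∀ p ∈ O, ∀ q ∈ O, EqvGen (Up P σ e U) (tgt P σ e p) q.1 → p.2 ≠ q.2 →
    ∀ A B, EqvGen (Up P σ e U) A p.1 → EqvGen (Up P σ e U) B (tgt P σ e q) →
      y A - y p.1 + y (tgt P σ e p) < y B - y (tgt P σ e q) + y q.1
  conn : ∀ A B, IsFace P A → IsFace P B →
    EqvGen (fun C D => Up P σ e U C D ∨ ∃ p ∈ O, p.1 = C ∧ tgt P σ e p = D) A B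

variable {P : Finset Cube} {σ : Bool} {e : Face → Dir} {U : Set Face} {O : Set (Face × Hd)}
  {y : Face → ℤ}

/-- Faces of one column at the same height coincide. -/
theorem IsZig.eq_of_height (h : IsZig P σ e U O y) {A B : Face}
    (hAB : EqvGen (Up P σ e U) A B) (hy : y A = y B) : A = B := by
  have hf : ∀ a b c, Up P σ e U a b → Up P σ e U a c → b = c := by
    rintro a b c ⟨-, h1⟩ ⟨-, h2⟩
    exact h1.symm.trans h2
  have hi : ∀ a b c, Up P σ e U a c → Up P σ e U b c → a = b := by
    rintro a b c ⟨ha, h1⟩ ⟨hb, h2⟩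
    have e1 := (Cmp.back (h.up_face a ha) (h.perp a (h.up_face a ha)) (h.up_cmp a ha)).2
    have e2 := (Cmp.back (h.up_face b hb) (h.perp b (h.up_face b hb)) (h.up_cmp b hb)).2
    rw [h1] at e1
    rw [h2] at e2
    exact e1.symm.trans e2
  have mono : ∀ a b, ReflTransGen (Up P σ e U) a b → y a ≤ y b ∧ (y a = y b → a = b) := by
    intro a b hab
    induction hab with
    | refl => exact ⟨le_refl _, fun _ => rfl⟩
    | tail h1 h2 ih =>
      obtain ⟨h3, h4⟩ := h2
      have := h.ht _ h3
      rw [h4] at this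
      exact ⟨by linarith [ih.1], fun h5 => by linarith [ih.1]⟩
  rcases eqvGen_comparable hf hi hAB with h1 | h1
  · exact (mono _ _ h1).2 hy
  · exact ((mono _ _ h1).2 hy.symm).symm

/-- The sign of a step. -/
def sg (b : Hd) : ℤ := if b = Hd.E then 1 else -1

/-- In a walk with steps `±1` and no two consecutive steps `-1`, consecutive visits of one
position are at distance two. -/
theorem zig_visits {x : ℕ → ℤ} {m : ℕ} (hstep : ∀ k, k + 1 ≤ m → x (k + 1) = x k + 1 ∨
    x (k + 1) = x k - 1) (hno : ∀ k, k + 2 ≤ m → x (k + 1) = x k - 1 → x (k + 2) = x (k + 1) + 1) :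
    ∀ d i : ℕ, 0 < d → i + d ≤ m → x (i + d) = x i → 2 ≤ d ∧ x (i + 2) = x i := by
  -- a walk that ends above: `x (i + d) ≥ x i - 1`, and `≥ x i` if its last step is `+1`
  have low : ∀ d i : ℕ, i + d ≤ m → x i - 1 ≤ x (i + d) ∧
      (0 < d → x (i + d) = x (i + d - 1) + 1 → x i ≤ x (i + d)) := by
    intro d
    induction d using Nat.strong_induction_on with
    | _ d ih =>
      intro i hi
      rcases Nat.eq_zero_or_pos d with rfl | hd
      · exact ⟨by simp, fun h => absurd h (lt_irrefl 0)⟩
      · rcases hstep i (by omega) with h1 | h1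
        · -- first step up
          have h2 := ih (d - 1) (by omega) (i + 1) (by omega)
          rw [show i + 1 + (d - 1) = i + d by omega] at h2
          refine ⟨by omega, fun _ _ => by omega⟩
        · -- first step down
          rcases Nat.lt_or_ge 1 d with hd2 | hd2
          · have h3 := hno i (by omega) h1
            have h2 := ih (d - 2) (by omega) (i + 2) (by omega)
            rw [show i + 2 + (d - 2) = i + d by omega] at h2
            refine ⟨by omega, fun _ h4 => ?_⟩
            rcases Nat.eq_zero_or_pos (d - 2) with h5 | h5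
            · have : d = 2 := by omega
              subst this
              omega
            · have := h2.2 h5 h4
              omega
          · have : d = 1 := by omega
            subst this
            refine ⟨by omega, fun _ h4 => ?_⟩
            rw [show i + 1 - 1 = i by omega] at h4
            omega
  intro d i hd hi hx
  have hd2 : 2 ≤ d := by
    by_contra hc
    have : d = 1 := by omega
    subst this
    rcases hstep i (by omega) with h1 | h1 <;> omega
  refine ⟨hd2, ?_⟩
  rcases hstep i (by omega) with h1 | h1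
  · -- up first; then it must go down
    rcases hstep (i + 1) (by omega) with h2 | h2
    · exfalso
      -- now two above, the walk cannot return
      have h3 := low (d - 2) (i + 2) (by omega)
      rw [show i + 2 + (d - 2) = i + d by omega] at h3
      rw [show i + 1 + 1 = i + 2 by omega] at h2
      omega
    · rw [show i + 1 + 1 = i + 2 by omega] at h2
      omega
  · have := hno i (by omega) h1
    omega

/-- The horizontal position of the columns. -/
def xpos {C : Type*} (s : C → C) (c0 : C) (r : C → ℤ) : ℕ → ℤ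
  | 0 => 0
  | k + 1 => xpos s c0 r k + r (s^[k] c0)

/-- A ladder with back steps gives a net. -/
theorem IsZig.exists_net (h : IsZig P σ e U O y) : ∃ L : Set Pl, Net P σ L := by
  classical
  by_cases hne : ∃ A, IsFace P A
  swap
  · refine ⟨∅, ?_, ?_, ?_, ?_, ?_⟩
    · intro A
      constructor
      · intro hA; exact absurd ⟨A, hA⟩ hne
      · rintro ⟨p, hp, -⟩; exact absurd hp (Set.notMem_empty p)
    · intro p hp; exact absurd hp (Set.notMem_empty p)
    · intro p hp; exact absurd hp (Set.notMem_empty p)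
    · intro p hp; exact absurd hp (Set.notMem_empty p)
    · intro p hp; exact absurd hp (Set.notMem_empty p)
  obtain ⟨A0, hA0⟩ := hne
  have hOf : O.Finite := by
    refine Set.Finite.subset (Set.Finite.prod (finite_faces P) (Set.finite_univ (α := Hd))) ?_
    intro p hp
    exact ⟨h.cr_face p hp, Set.mem_univ _⟩
  let C := {p : Face × Hd // p ∈ O}
  haveI : Finite C := hOf.to_subtype
  obtain ⟨p0, hp0, -⟩ := h.out A0 hA0
  let c0 : C := ⟨p0, hp0⟩
  have hoex : ∀ A : Face, ∃ c : C, IsFace P A → EqvGen (Up P σ e U) A c.1.1 := by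
    intro A
    by_cases hA : IsFace P A
    · obtain ⟨q, hq, hAq⟩ := h.out A hA
      exact ⟨⟨q, hq⟩, fun _ => hAq⟩
    · exact ⟨c0, fun h' => absurd h' hA⟩
  choose o ho using hoex
  have col_eq : ∀ A B, IsFace P A → IsFace P B → EqvGen (Up P σ e U) A B → o A = o B := by
    intro A B hA hB hAB
    apply Subtype.ext
    exact h.uniq_out _ (o A).2 _ (o B).2
      (((ho A hA).symm.trans _ _ _ hAB).trans _ _ _ (ho B hB))
  have oX : ∀ c : C, o c.1.1 = c := by
    intro c
    apply Subtype.ext
    exact (h.uniq_out _ c.2 _ (o c.1.1).2 (ho c.1.1 (h.cr_face _ c.2))).symm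
  let s : C → C := fun c => o (tgt P σ e c.1)
  have hnbE : ∀ c : C, IsFace P (tgt P σ e c.1) := fun c => isFace_nbr (h.cr_face _ c.2)
  have hs : Function.Injective s := by
    intro a b hab
    apply Subtype.ext
    refine h.uniq_in _ a.2 _ b.2 ?_
    have h1 := ho _ (hnbE a)
    have h2 := ho _ (hnbE b)
    have h3 : o (tgt P σ e a.1) = o (tgt P σ e b.1) := hab
    rw [h3] at h1
    exact h1.trans _ _ _ h2.symm
  have hconn : ∀ A B, EqvGen (fun C D => Up P σ e U C D ∨ ∃ p ∈ O, p.1 = C ∧ tgt P σ e p = D)
      A B → EqvGen (fun a b => s a = b) (o A) (o B) := by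
    intro A B hAB
    induction hAB with
    | rel C D hCD =>
      rcases hCD with hCD | hCD
      · have hC : IsFace P C := h.up_face _ hCD.1
        have hD : IsFace P D := by
          rw [← hCD.2]; exact isFace_nbr hC
        rw [col_eq C D hC hD (EqvGen.rel _ _ hCD)]
        exact EqvGen.refl _
      · obtain ⟨p, hp, hpC, hpD⟩ := hCD
        have h1 : o p.1 = ⟨p, hp⟩ := oX ⟨p, hp⟩
        refine EqvGen.rel _ _ ?_
        rw [← hpC, h1, ← hpD]
    | refl x => exact EqvGen.refl _
    | symm _ _ _ ih => exact ih.symm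
    | trans _ _ _ _ _ ih1 ih2 => exact ih1.trans _ _ _ ih2
  have hit : ∀ c : C, ∃ k : ℕ, s^[k] c0 = c := by
    intro c
    refine exists_iterate s hs ?_ c0 c
    intro a b
    have := hconn a.1.1 b.1.1 (h.conn _ _ (h.cr_face _ a.2) (h.cr_face _ b.2))
    rwa [oX, oX] at this
  let idx : C → ℕ := fun c => Nat.find (hit c)
  have hidx : ∀ c, s^[idx c] c0 = c := fun c => Nat.find_spec (hit c)
  have hmin : ∀ c k, s^[k] c0 = c → idx c ≤ k := fun c k hk => Nat.find_min' (hit c) hk
  let f : C → ℤ := fun c => y c.1.1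
  let g : C → ℤ := fun c => y (tgt P σ e c.1)
  let r : C → ℤ := fun c => sg c.1.2
  let pos : Face → ℤ × ℤ := fun A =>
    (xpos s c0 r (idx (o A)), shift s c0 f g (idx (o A)) + y A)
  let pl : Face → Pl := fun A => ⟨A, pos A, e A⟩
  let L : Set Pl := {p | ∃ A, IsFace P A ∧ p = pl A}
  have hpl : ∀ A, IsFace P A → pl A ∈ L := fun A hA => ⟨A, hA, rfl⟩
  let S : Pl → Pl → Prop := fun x z => x ∈ L ∧ z ∈ L ∧ (Glue P σ x z ∨ Glue P σ z x)
  have Ssymm : ∀ x z, ReflTransGen S x z → ReflTransGen S z x := by
    intro x z hxz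
    induction hxz with
    | refl => exact ReflTransGen.refl
    | tail _ h2 ih => exact ReflTransGen.head ⟨h2.2.1, h2.1, h2.2.2.symm⟩ ih
  have hcol : ∀ A B, EqvGen (Up P σ e U) A B → ReflTransGen S (pl A) (pl B) := by
    intro A B hAB
    induction hAB with
    | rel C D hCD =>
      have hC : IsFace P C := h.up_face _ hCD.1
      have hD : IsFace P D := by
        rw [← hCD.2]; exact isFace_nbr hC
      have hoo : o C = o D := col_eq C D hC hD (EqvGen.rel _ _ hCD)
      refine ReflTransGen.single ⟨hpl C hC, hpl D hD, Or.inl ⟨Hd.N, ?_, ?_⟩⟩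
      · have h1 := h.ht C hCD.1
        rw [hCD.2] at h1
        change (xpos s c0 r (idx (o D)), shift s c0 f g (idx (o D)) + y D) =
          (xpos s c0 r (idx (o C)), shift s c0 f g (idx (o C)) + y C) + Hd.N.vec
        rw [← hoo, h1]
        simp only [Hd.vec, Prod.mk_add_mk, add_zero, Prod.mk.injEq, true_and]
        ring
      · have h1 := h.up_cmp C hCD.1
        have h2 : (nbr P C (dA σ e C Hd.N)).1 = D := hCD.2
        unfold Cmp at h1
        rw [show nb P σ e C Hd.N = D from hCD.2] at h1
        change nbr P C (dirH σ C.2 (e C) Hd.N) = (D, dirH σ D.2 (e D) Hd.S)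
        exact Prod.ext h2 h1
    | refl x => exact ReflTransGen.refl
    | symm _ _ _ ih => exact Ssymm _ _ ih
    | trans _ _ _ _ _ ih1 ih2 => exact ih1.trans ih2
  have hsuc : ∀ k : ℕ, ∀ c : C, idx c = k + 1 → idx (s^[k] c0) = k ∧ s (s^[k] c0) = c := by
    intro k c hc
    have hsc : s (s^[k] c0) = c := by
      have := hidx c
      rw [hc, Function.iterate_succ_apply'] at this
      exact this
    refine ⟨?_, hsc⟩
    apply le_antisymm (hmin _ k rfl)
    have : idx c ≤ idx (s^[k] c0) + 1 := by
      refine hmin c _ ?_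
      rw [Function.iterate_succ_apply', hidx, hsc]
    omega
  have hbase : ∀ k : ℕ, ∀ c : C, idx c = k → ReflTransGen S (pl c0.1.1) (pl c.1.1) := by
    intro k
    induction k with
    | zero =>
      intro c hc
      have := hidx c
      rw [hc] at this
      have h0 : c0 = c := this
      rw [← h0]
    | succ k ih =>
      intro c hc
      obtain ⟨hk', hsc⟩ := hsuc k c hc
      set c' : C := s^[k] c0 with hc'
      refine (ih c' hk').trans ?_
      have hE := hnbE c'
      have hoE : o (tgt P σ e c'.1) = c := hsc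
      have hglue : S (pl c'.1.1) (pl (tgt P σ e c'.1)) := by
        refine ⟨hpl _ (h.cr_face _ c'.2), hpl _ hE, Or.inl ⟨c'.1.2, ?_, ?_⟩⟩
        · change (xpos s c0 r (idx (o (tgt P σ e c'.1))),
              shift s c0 f g (idx (o (tgt P σ e c'.1))) + y (tgt P σ e c'.1)) =
            (xpos s c0 r (idx (o c'.1.1)), shift s c0 f g (idx (o c'.1.1)) + y c'.1.1) +
              c'.1.2.vec
          rw [hoE, oX, hk', hc]
          have hvec : c'.1.2.vec = (r c', 0) := by
            rcases h.cr_hd _ c'.2 with h1 | h1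
            · change c'.1.2.vec = (sg c'.1.2, 0)
              rw [h1]; rfl
            · change c'.1.2.vec = (sg c'.1.2, 0)
              rw [h1]; rfl
          rw [hvec]
          simp only [Prod.mk_add_mk, shift, xpos, Prod.mk.injEq, add_zero]
          refine ⟨by rw [← hc'], ?_⟩
          simp only [f, g, ← hc']
          ring
        · have h1 := h.cr_cmp c'.1 c'.2
          unfold Cmp at h1
          change nbr P c'.1.1 (dirH σ c'.1.1.2 (e c'.1.1) c'.1.2) = (tgt P σ e c'.1,
            dirH σ (tgt P σ e c'.1).2 (e (tgt P σ e c'.1)) c'.1.2.opp)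
          exact Prod.ext rfl h1
      refine ReflTransGen.trans (b := pl (tgt P σ e c'.1)) (ReflTransGen.single hglue) ?_
      have := hcol _ _ (ho _ hE)
      rwa [hoE] at this
  -- the walk of the columns
  have hwalk : ∀ c : C, ∀ k : ℕ, k ≤ idx c → idx (s^[k] c0) = k := by
    intro c k hk
    apply le_antisymm (hmin _ k rfl)
    have h1 : s^[idx (s^[k] c0)] c0 = s^[k] c0 := hidx _
    have h2 : s^[idx c - k + idx (s^[k] c0)] c0 = c := by
      rw [Function.iterate_add_apply, h1, ← Function.iterate_add_apply,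
        show idx c - k + k = idx c by omega]
      exact hidx c
    have := hmin c _ h2
    omega
  have hro : ∀ k : ℕ, xpos s c0 r (k + 1) = xpos s c0 r k + 1 ∨
      xpos s c0 r (k + 1) = xpos s c0 r k - 1 := by
    intro k
    simp only [xpos, r, sg]
    split_ifs
    · left; rfl
    · right; ring
  have hnext : ∀ k : ℕ, EqvGen (Up P σ e U) (tgt P σ e (s^[k] c0).1) (s^[k + 1] c0).1.1 := by
    intro k
    rw [Function.iterate_succ_apply']
    exact ho _ (hnbE _)
  have hEW : ∀ c : C, r c = 1 ∧ c.1.2 = Hd.E ∨ r c = -1 ∧ c.1.2 = Hd.W := by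
    intro c
    rcases h.cr_hd _ c.2 with h1 | h1
    · left; exact ⟨by simp [r, sg, h1], h1⟩
    · right; exact ⟨by simp [r, sg, h1], h1⟩
  have hnn : ∀ k : ℕ, xpos s c0 r (k + 1) = xpos s c0 r k - 1 →
      xpos s c0 r (k + 2) = xpos s c0 r (k + 1) + 1 := by
    intro k hk
    simp only [xpos] at hk ⊢
    rcases hEW (s^[k] c0) with ⟨h1, -⟩ | ⟨-, h1⟩
    · rw [h1] at hk; omega
    · have h2 := h.nodouble _ (s^[k] c0).2 _ (s^[k + 1] c0).2 (hnext k) h1
      rcases hEW (s^[k + 1] c0) with ⟨h3, -⟩ | ⟨-, h3⟩
      · rw [h3]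
      · rw [h2] at h3; exact absurd h3 (by decide)
  -- the order of the columns at the same horizontal position
  have hord : ∀ d i : ℕ, 0 < d → xpos s c0 r (i + d) = xpos s c0 r i →
      (∃ c, idx c = i + d) → ∀ A B, IsFace P A → IsFace P B → idx (o A) = i →
      idx (o B) = i + d → shift s c0 f g i + y A < shift s c0 f g (i + d) + y B := by
    intro d
    induction d using Nat.strong_induction_on with
    | _ d ih =>
      intro i hd hx hc A B hA hB hoA hoB
      obtain ⟨c, hc⟩ := hc
      obtain ⟨hd2, hx2⟩ := zig_visits (x := xpos s c0 r) (m := i + d) (fun k _ => hro k)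
        (fun k _ hk => hnn k hk) d i hd le_rfl hx
      -- the two steps from `i` to `i + 2`
      have hpq : (s^[i] c0).1.2 ≠ (s^[i + 1] c0).1.2 := by
        intro heq
        simp only [xpos] at hx2
        rcases hEW (s^[i] c0) with ⟨h1, h1'⟩ | ⟨h1, h1'⟩ <;>
          rcases hEW (s^[i + 1] c0) with ⟨h3, h3'⟩ | ⟨h3, h3'⟩
        · rw [h1, h3] at hx2; omega
        · rw [h1', h3'] at heq; exact absurd heq (by decide)
        · rw [h1', h3'] at heq; exact absurd heq (by decide)
        · rw [h1, h3] at hx2; omega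
      have hoA' : o A = s^[i] c0 := by rw [← hidx (o A), hoA]
      have step : ∀ D, IsFace P D → idx (o D) = i + 2 →
          shift s c0 f g i + y A < shift s c0 f g (i + 2) + y D := by
        intro D hD hoD
        have hoD' : o D = s (s^[i + 1] c0) := by
          rw [← hidx (o D), hoD]
          exact Function.iterate_succ_apply' s (i + 1) c0
        have h1 : EqvGen (Up P σ e U) A (s^[i] c0).1.1 := by
          have := ho A hA
          rwa [hoA'] at this
        have h2 : EqvGen (Up P σ e U) D (tgt P σ e (s^[i + 1] c0).1) := by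
          have a1 := ho D hD
          rw [hoD'] at a1
          exact a1.trans _ _ _ (ho _ (hnbE _)).symm
        have h3 := h.order _ (s^[i] c0).2 _ (s^[i + 1] c0).2 (hnext i) hpq A D h1 h2
        have e1 : shift s c0 f g (i + 1) = shift s c0 f g i + f (s^[i] c0) - g (s^[i] c0) := rfl
        have e2 : shift s c0 f g (i + 2) =
            shift s c0 f g (i + 1) + f (s^[i + 1] c0) - g (s^[i + 1] c0) := rfl
        rw [e2, e1]
        simp only [f, g]
        linarith
      rcases Nat.eq_or_lt_of_le hd2 with hd3 | hd3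
      · subst hd3
        exact step B hB hoB
      · -- an intermediate face
        have hi2 : idx (s^[i + 2] c0) = i + 2 := hwalk c (i + 2) (by omega)
        have hD : IsFace P (s^[i + 2] c0).1.1 := h.cr_face _ (s^[i + 2] c0).2
        have hoD : idx (o (s^[i + 2] c0).1.1) = i + 2 := by rw [oX]; exact hi2
        have h1 := step _ hD hoD
        have h2 := ih (d - 2) (by omega) (i + 2) (by omega) (by
          rw [show i + 2 + (d - 2) = i + d by omega, hx, hx2])
          ⟨c, by rw [show i + 2 + (d - 2) = i + d by omega]; exact hc⟩ _ B hD hB hoD (by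
            rw [show i + 2 + (d - 2) = i + d by omega]; exact hoB)
        rw [show i + 2 + (d - 2) = i + d by omega] at h2
        linarith
  refine ⟨L, ?_, ?_, ?_, ?_, ?_⟩
  · intro A
    constructor
    · intro hA; exact ⟨pl A, hpl A hA, rfl⟩
    · rintro ⟨p, ⟨B, hB, rfl⟩, hp⟩
      have : B = A := hp
      rw [← this]; exact hB
  · rintro p ⟨A, hA, rfl⟩ p' ⟨B, hB, rfl⟩ hAB
    have : A = B := hAB
    rw [this]
  · rintro p ⟨A, hA, rfl⟩ p' ⟨B, hB, rfl⟩ hAB
    have h1 : (xpos s c0 r (idx (o A)), shift s c0 f g (idx (o A)) + y A) =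
      (xpos s c0 r (idx (o B)), shift s c0 f g (idx (o B)) + y B) := hAB
    rw [Prod.mk.injEq] at h1
    obtain ⟨h2, h3⟩ := h1
    rcases lt_trichotomy (idx (o A)) (idx (o B)) with h4 | h4 | h4
    · exfalso
      have h5 := hord (idx (o B) - idx (o A)) (idx (o A)) (by omega) (by
        rw [show idx (o A) + (idx (o B) - idx (o A)) = idx (o B) by omega]; exact h2.symm)
        ⟨o B, by omega⟩ A B hA hB rfl (by omega)
      rw [show idx (o A) + (idx (o B) - idx (o A)) = idx (o B) by omega] at h5
      linarith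
    · have h5 : o A = o B := by rw [← hidx (o A), ← hidx (o B), h4]
      rw [h4] at h3
      have h6 : y A = y B := by linarith
      have h7 : EqvGen (Up P σ e U) A B := by
        have := ho A hA
        rw [h5] at this
        exact this.trans _ _ _ (ho B hB).symm
      rw [h.eq_of_height h7 h6]
    · exfalso
      have h5 := hord (idx (o A) - idx (o B)) (idx (o B)) (by omega) (by
        rw [show idx (o B) + (idx (o A) - idx (o B)) = idx (o A) by omega]; exact h2)
        ⟨o A, by omega⟩ B A hB hA rfl (by omega)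
      rw [show idx (o B) + (idx (o A) - idx (o B)) = idx (o A) by omega] at h5
      linarith
  · rintro p ⟨A, hA, rfl⟩
    exact h.perp A hA
  · have hall : ∀ A, IsFace P A → ReflTransGen S (pl c0.1.1) (pl A) := by
      intro A hA
      exact (hbase _ (o A) rfl).trans (Ssymm _ _ (hcol _ _ (ho A hA)))
    rintro p ⟨A, hA, rfl⟩ p' ⟨B, hB, rfl⟩
    exact (Ssymm _ _ (hall A hA)).trans (hall B hB)

/-- **A ladder with back steps gives an edge unfolding.** -/
theorem IsZig.unfolding (hE : EdgeOK P) (h : IsZig P σ e U O y) : HasEdgeUnfolding P := by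
  obtain ⟨L, hL⟩ := h.exists_net
  exact net_unfolding_E hE hL

end Pool.Agent.Helper53.GP
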